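import Pool.Agent.H79.CN.AbsP
import Pool.Agent.H25.V1.Ins
import Pool.Agent.H25.V1.FibK
import Pool.Agent.H25.V1.Fact1

/-! # CN.AbsI : a relation for each of the points at the places of `I` -/

namespace H79.CN

open H68.BB H25.KP H25.V1

variable {K : Type} [Field K] {a b : MvPolynomial (Fin 2) K}

/-- the points of `W` -/
abbrev LW (a b : MvPolynomial (Fin 2) K) : Type := {P : Pt K // OnW a b P}

open Classical in
/-- the fibre containing the point -/
noncomputable def colP (P : Pt K) : Option K := if P.t0 = 0 then none else some (P.t1 / P.t0)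

theorem col_fib {P Q : Pt K} (h : colP P = colP Q) : P.t0 * Q.t1 = P.t1 * Q.t0 := by
  unfold colP at h
  by_cases h1 : P.t0 = 0
  · by_cases h2 : Q.t0 = 0
    · rw [h1, h2]; ring
    · rw [if_pos h1, if_neg h2] at h
      exact absurd h (by simp)
  · by_cases h2 : Q.t0 = 0
    · rw [if_neg h1, if_pos h2] at h
      exact absurd h (by simp)
    · rw [if_neg h1, if_neg h2] at h
      have h3 := Option.some.inj h
      rw [div_eq_div_iff h1 h2] at h3
      linear_combination -h3

/-- a torsion class in the quotient is zero -/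
theorem quot_tf {A : Type} [AddCommGroup A] (H : AddSubgroup A) (N : ℕ) (g : A ⧸ tor H) (hN : 0 < N)
    (h : N • g = 0) : g = 0 := by
  induction g using QuotientAddGroup.induction_on with
  | H z =>
    have h1 : ((N • z : A) : A ⧸ tor H) = 0 := h
    rw [QuotientAddGroup.eq_zero_iff] at h1 ⊢
    exact tor_sat hN h1

/-- the exterior product modulo torsion on the cycles supported on `W` -/
noncomputable def MZ (a b : MvPolynomial (Fin 2) K) {M : ℕ}
    (mul : MultilinearMap ℤ (fun _ : Fin M => Cyc1 K) (CycM K M)) :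
    MultilinearMap ℤ (fun _ : Fin M => ZW a b) (CycM K M ⧸ TM a b M) :=
  (QuotientAddGroup.mk' (TM a b M)).toIntLinearMap.compMultilinearMap
    (mul.compLinearMap (fun _ => (AddSubgroup.subtype (ZW a b)).toIntLinearMap))

variable {M : ℕ} {mul : MultilinearMap ℤ (fun _ : Fin M => Cyc1 K) (CycM K M)}

theorem MZ_apply (z : Fin M → ZW a b) :
    MZ a b mul z = ((mul (fun i => (z i : Cyc1 K)) : CycM K M) : CycM K M ⧸ TM a b M) := rfl

/-- torsion classes in `ZW` -/
noncomputable abbrev TZ (a b : MvPolynomial (Fin 2) K) : AddSubgroup (ZW a b) :=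
  (T1 a b).comap (AddSubgroup.subtype (ZW a b))

theorem MZ_T (hm : IsPr mul) {z : Fin M → ZW a b} (h : ∃ i, z i ∈ TZ a b) : MZ a b mul z = 0 := by
  obtain ⟨i, hi⟩ := h
  rw [MZ_apply, QuotientAddGroup.eq_zero_iff]
  exact kill1 hm (fun j => (z j).2) hi

/-- the letter of a point -/
noncomputable def uW (ha : a.IsHomogeneous 8) (hb : b.IsHomogeneous 12) (P : LW a b) : ZW a b :=
  ⟨aa P.1, aa_ZW ha hb P.2⟩

variable [IsAlgClosed K] [NZ6 K] (ha : a.IsHomogeneous 8) (hb : b.IsHomogeneous 12)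

include ha hb

theorem MZ_sym (hD : disc a b ≠ 0) {u0 u1 v0 v1 : K} (huv : u0 * v1 ≠ u1 * v0) (hu : ev (disc a b) u0 u1 = 0)
    (hv : ev (disc a b) v0 v1 = 0) (hm : IsPr mul) (l : Fin M → LW a b) (i j : Fin M) (hij : i ≠ j) :
    MZ a b mul (fun k => uW ha hb (l (Equiv.swap i j k))) = MZ a b mul (fun k => uW ha hb (l k)) := by
  rw [MZ_apply, MZ_apply, QuotientAddGroup.eq, ← sub_eq_neg_add]
  exact swap2 hm (z := fun k => (uW ha hb (l k) : Cyc1 K)) (fun k => (uW ha hb (l k)).2) hij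
    (P := (l i).1) (P' := (l j).1) rfl rfl (sym ha hb hD huv hu hv (l i).2 (l j).2)

theorem MZ_col (hD : disc a b ≠ 0) {u0 u1 v0 v1 : K} (huv : u0 * v1 ≠ u1 * v0) (hu : ev (disc a b) u0 u1 = 0)
    (hv : ev (disc a b) v0 v1 = 0) (hm : IsPr mul) (l : Fin M → LW a b) (i j : Fin M) (hij : i ≠ j)
    (h : colP (l i).1 = colP (l j).1) : MZ a b mul (fun k => uW ha hb (l k)) = 0 := by
  rw [MZ_apply, QuotientAddGroup.eq_zero_iff]
  exact kill2 hm (z := fun k => (uW ha hb (l k) : Cyc1 K)) (fun k => (uW ha hb (l k)).2) hij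
    (P := (l i).1) (P' := (l j).1) rfl rfl (fib ha hb hD huv hu hv (l i).2 (l j).2 (col_fib h))

theorem absI (hD : disc a b ≠ 0) {u0 u1 v0 v1 : K} (huv : u0 * v1 ≠ u1 * v0) (hu : ev (disc a b) u0 u1 = 0)
    (hv : ev (disc a b) v0 v1 = 0) (hm : IsPr mul) (x : Fin M → LW a b) (I : Finset (Fin M))
    (C : Finset (Option K)) (hC : C.card < I.card) (n : Fin M → Fin M → ℕ) (hn : ∀ j ∈ I, 0 < n j j)
    (w : Fin M → Cyc1 K) (hw : ∀ j ∈ I, w j ∈ AddSubgroup.closure {z | ∃ l : LW a b, colP l.1 ∈ C ∧ z = aa l.1})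
    (h : ∀ j ∈ I, (∑ i ∈ I, n j i • aa (x i).1) - w j ∈ T1 a b) : mul (fun k => aa (x k).1) ∈ TM a b M := by
  classical
  let z0 : (i : {i // ¬ i ∈ I}) → ZW a b := fun i => uW ha hb (x i.1)
  let M' := (MZ a b mul).domDomRestrict (fun i => i ∈ I) z0
  let ex : ({i // i ∈ I} → LW a b) → (Fin M → LW a b) := fun l j => if h : j ∈ I then l ⟨j, h⟩ else x j
  have hex : ∀ l : {i // i ∈ I} → LW a b, M' (fun k => uW ha hb (l k)) = MZ a b mul (fun k => uW ha hb (ex l k)) := by
    intro l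
    change MZ a b mul (fun j => if h : j ∈ I then uW ha hb (l ⟨j, h⟩) else uW ha hb (x j)) = _
    congr 1
    funext j
    by_cases hj : j ∈ I
    · simp only [ex, dif_pos hj]
    · simp only [ex, dif_neg hj]
  -- the auxiliary cycles as elements of `ZW`
  have hw' : ∀ j : {i // i ∈ I}, ∃ v : ZW a b, (v : Cyc1 K) = w j.1 ∧
      v ∈ AddSubgroup.closure {z | ∃ l : LW a b, colP l.1 ∈ C ∧ z = uW ha hb l} := by
    intro j
    have h1 : w j.1 ∈ (AddSubgroup.closure {z | ∃ l : LW a b, colP l.1 ∈ C ∧ z = uW ha hb l}).map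
        (AddSubgroup.subtype (ZW a b)) := by
      rw [AddMonoidHom.map_closure]
      refine AddSubgroup.closure_mono ?_ (hw j.1 j.2)
      rintro z ⟨l, hl, rfl⟩
      exact ⟨uW ha hb l, ⟨l, hl, rfl⟩, rfl⟩
    obtain ⟨v, hv1, hv2⟩ := h1
    exact ⟨v, hv2, hv1⟩
  choose v hv1 hv2 using hw'
  have key := absP M' (fun N g hN hg => quot_tf (RatEqM a b M) N g hN hg) (TZ a b) ?_ (uW ha hb)
    (fun l => colP l.1) ?_ ?_ (fun i => x i.1) C (by rw [Fintype.card_coe]; exact hC)
    (fun j i => n j.1 i.1) (fun j => hn j.1 j.2) v hv2 ?_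
  · rw [hex, MZ_apply, QuotientAddGroup.eq_zero_iff] at key
    have e : (fun i => ((uW ha hb (ex (fun i => x i.1) i) : ZW a b) : Cyc1 K)) = fun k => aa (x k).1 := by
      funext j
      by_cases hj : j ∈ I
      · simp only [ex, dif_pos hj]; rfl
      · simp only [ex, dif_neg hj]; rfl
    rw [e] at key
    exact key
  · rintro z ⟨i, hi⟩
    refine MZ_T hm ⟨i.1, ?_⟩
    simp only [dif_pos i.2]
    exact hi
  · intro l i j hij
    rw [hex (fun k => l (Equiv.swap i j k)), hex l]
    rw [← MZ_sym ha hb hD huv hu hv hm (ex l) i.1 j.1 (fun e => hij (Subtype.ext e))]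
    congr 1
    funext k
    congr 1
    by_cases hk : k ∈ I
    · by_cases hki : k = i.1
      · subst hki
        have e1 : (⟨i.1, hk⟩ : {i // i ∈ I}) = i := rfl
        simp only [ex, dif_pos hk, e1, Equiv.swap_apply_left, dif_pos j.2]
      · by_cases hkj : k = j.1
        · subst hkj
          have e1 : (⟨j.1, hk⟩ : {i // i ∈ I}) = j := rfl
          simp only [ex, dif_pos hk, e1, Equiv.swap_apply_right, dif_pos i.2]
        · have e1 : Equiv.swap i j ⟨k, hk⟩ = ⟨k, hk⟩ :=
            Equiv.swap_apply_of_ne_of_ne (fun e => hki (congrArg Subtype.val e))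
              (fun e => hkj (congrArg Subtype.val e))
          simp only [ex, dif_pos hk, e1, Equiv.swap_apply_of_ne_of_ne hki hkj]
    · have hki : k ≠ i.1 := fun e => hk (e ▸ i.2)
      have hkj : k ≠ j.1 := fun e => hk (e ▸ j.2)
      simp only [ex, dif_neg hk, Equiv.swap_apply_of_ne_of_ne hki hkj]
  · intro l i j hij hc
    rw [hex]
    refine MZ_col ha hb hD huv hu hv hm (ex l) i.1 j.1 (fun e => hij (Subtype.ext e)) ?_
    simp only [ex, dif_pos i.2, dif_pos j.2]
    exact hc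
  · intro j
    rw [AddSubgroup.mem_comap, map_sub, map_sum]
    have h1 := h j.1 j.2
    rw [← Finset.sum_coe_sort I] at h1
    rw [AddSubgroup.subtype_apply, hv1]
    exact h1

end H79.CN
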