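import Mathlib

/-! # CN.AbsP : multilinear maps on letters with colours (pure algebra, Mathlib only)

`repl`: replace one argument after another (induction over a Finset of places), each time `M (update z i (x - x')) = 0` by `hT`.
`absP`: by `repl`, `M (fun j => ∑ i, n j i • u (x i)) = M (fun j => w j)`.  The right hand side is `0`: induction over the closures (place by place, `AddSubgroup.closure_induction`,
`MultilinearMap.map_update_add`): for `w j = u (l j)` with `col (l j) ∈ C` two of the colours agree (`Fintype.exists_ne_map_eq_of_card_lt`, `Finset.exists_ne_map_eq_of_card_lt_of_maps_to`), `hcol`.  The left hand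
side is `∑ f : ι → ι, (∏ j, n j (f j)) • M (fun j => u (x (f j)))` (`MultilinearMap.map_sum`, `MultilinearMap.map_smul_univ`); not injective `f`: `0` by `hcol`; permutations:
`M (fun j => u (x (f j))) = M (fun j => u (x j))` (`hsym`, `Equiv.Perm.swap_induction_on`).  So it is `N • M (u ∘ x)` with `N ≥ ∏ n j j ≥ 1`. -/

namespace H79.CN

theorem repl {ι : Type} [Fintype ι] [DecidableEq ι] {A G : Type} [AddCommGroup A] [AddCommGroup G]
    (M : MultilinearMap ℤ (fun _ : ι => A) G) (T : AddSubgroup A) (hT : ∀ z : ι → A, (∃ i, z i ∈ T) → M z = 0)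
    {z z' : ι → A} (h : ∀ i, z i - z' i ∈ T) : M z = M z' := by
  have key : ∀ s : Finset ι, M (fun i => if i ∈ s then z i else z' i) = M z' := by
    intro s
    induction s using Finset.induction_on with
    | empty => simp
    | insert a s ha ih =>
      have h1 : (fun i => if i ∈ insert a s then z i else z' i) =
          Function.update (fun i => if i ∈ s then z i else z' i) a ((z a - z' a) + z' a) := by
        funext i
        by_cases hi : i = a
        · subst hi
          simp
        · simp [Function.update_of_ne hi, Finset.mem_insert, hi]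
      have h2 : Function.update (fun i => if i ∈ s then z i else z' i) a (z' a) =
          fun i => if i ∈ s then z i else z' i := by
        funext i
        by_cases hi : i = a
        · subst hi
          simp [ha]
        · simp [Function.update_of_ne hi]
      rw [h1, MultilinearMap.map_update_add, h2, ih, hT _ ⟨a, by simpa using h a⟩, zero_add]
  have h3 := key Finset.univ
  simpa using h3

private theorem clos {ι : Type} [Fintype ι] [DecidableEq ι] {A G L Col : Type} [AddCommGroup A] [AddCommGroup G]
    (M : MultilinearMap ℤ (fun _ : ι => A) G) (u : L → A) (col : L → Col)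
    (hcol : ∀ (l : ι → L) (i j : ι), i ≠ j → col (l i) = col (l j) → M (fun k => u (l k)) = 0)
    (C : Finset Col) (hC : C.card < Fintype.card ι) (s : Finset ι) :
    ∀ w : ι → A, (∀ j ∈ s, w j ∈ AddSubgroup.closure {z | ∃ l : L, col l ∈ C ∧ z = u l}) →
      (∀ j, j ∉ s → ∃ l : L, col l ∈ C ∧ w j = u l) → M w = 0 := by
  induction s using Finset.induction_on with
  | empty =>
    intro w _ h2
    choose l hl1 hl2 using fun j => h2 j (Finset.notMem_empty j)
    obtain ⟨i, _, j, _, hij, he⟩ := Finset.exists_ne_map_eq_of_card_lt_of_maps_to
      (s := Finset.univ) (t := C) (f := fun j => col (l j)) (by rwa [Finset.card_univ])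
      (fun j _ => hl1 j)
    have hw : w = fun k => u (l k) := funext hl2
    rw [hw]
    exact hcol l i j hij he
  | insert a s ha ih =>
    intro w h1 h2
    have key : ∀ y ∈ AddSubgroup.closure {z | ∃ l : L, col l ∈ C ∧ z = u l},
        M (Function.update w a y) = 0 := by
      intro y hy
      induction hy using AddSubgroup.closure_induction with
      | mem y hy =>
        apply ih
        · intro j hj
          have hja : j ≠ a := fun e => ha (e ▸ hj)
          rw [Function.update_of_ne hja]
          exact h1 j (Finset.mem_insert_of_mem hj)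
        · intro j hj
          by_cases hja : j = a
          · subst hja
            obtain ⟨l, hl, hz⟩ := hy
            exact ⟨l, hl, by simpa using hz⟩
          · obtain ⟨l, hl, hz⟩ := h2 j (by simp [hja, hj])
            exact ⟨l, hl, by rw [Function.update_of_ne hja]; exact hz⟩
      | zero => exact M.map_update_zero w a
      | add y y' _ _ hy hy' => rw [MultilinearMap.map_update_add, hy, hy', add_zero]
      | neg y _ hy => rw [MultilinearMap.map_update_neg, hy, neg_zero]
    have h3 := key (w a) (h1 a (Finset.mem_insert_self a s))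
    rwa [Function.update_eq_self] at h3

theorem absP {ι : Type} [Fintype ι] [DecidableEq ι] {A G L Col : Type} [AddCommGroup A] [AddCommGroup G]
    (M : MultilinearMap ℤ (fun _ : ι => A) G) (hG : ∀ (N : ℕ) (g : G), 0 < N → N • g = 0 → g = 0)
    (T : AddSubgroup A) (hT : ∀ z : ι → A, (∃ i, z i ∈ T) → M z = 0) (u : L → A) (col : L → Col)
    (hsym : ∀ (l : ι → L) (i j : ι), i ≠ j → M (fun k => u (l (Equiv.swap i j k))) = M (fun k => u (l k)))
    (hcol : ∀ (l : ι → L) (i j : ι), i ≠ j → col (l i) = col (l j) → M (fun k => u (l k)) = 0)
    (x : ι → L) (C : Finset Col) (hC : C.card < Fintype.card ι) (n : ι → ι → ℕ) (hn : ∀ j, 0 < n j j)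
    (w : ι → A) (hw : ∀ j, w j ∈ AddSubgroup.closure {z | ∃ l : L, col l ∈ C ∧ z = u l})
    (h : ∀ j, (∑ i, n j i • u (x i)) - w j ∈ T) : M (fun k => u (x k)) = 0 := by
  classical
  set g := M (fun k => u (x k)) with hg
  have h1 : M (fun j => ∑ i, n j i • u (x i)) = 0 := by
    rw [repl M T hT (z := fun j => ∑ i, n j i • u (x i)) (z' := w) h]
    exact clos M u col hcol C hC Finset.univ w (fun j _ => hw j) (fun j hj => absurd (Finset.mem_univ j) hj)
  have hperm : ∀ σ : Equiv.Perm ι, M (fun k => u (x (σ k))) = g := by
    intro σ
    induction σ using Equiv.Perm.swap_induction_on' with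
    | one => simp [hg]
    | mul_swap f i j hij ih =>
      have := hsym (fun k => x (f k)) i j hij
      rw [← ih, ← this]
      rfl
  let cf : (ι → ι) → ℕ := fun f => if Function.Bijective f then ∏ j, n j (f j) else 0
  have h2 : M (fun j => ∑ i, n j i • u (x i)) = (∑ f : ι → ι, cf f) • g := by
    rw [MultilinearMap.map_sum, Finset.sum_smul]
    refine Finset.sum_congr rfl fun f _ => ?_
    have h3 : (fun j => n j (f j) • u (x (f j))) = fun j => ((n j (f j) : ℕ) : ℤ) • u (x (f j)) := by
      funext j
      rw [natCast_zsmul]
    rw [h3, MultilinearMap.map_smul_univ M (fun j => ((n j (f j) : ℕ) : ℤ)) (fun j => u (x (f j))),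
      ← Nat.cast_prod, natCast_zsmul]
    by_cases hf : Function.Bijective f
    · have h4 : cf f = ∏ j, n j (f j) := if_pos hf
      rw [h4]
      have h5 := hperm (Equiv.ofBijective f hf)
      rw [← h5]
      rfl
    · have h4 : cf f = 0 := if_neg hf
      rw [h4, zero_smul]
      have h5 : ¬ Function.Injective f := fun h => hf (Finite.injective_iff_bijective.1 h)
      unfold Function.Injective at h5
      push Not at h5
      obtain ⟨i, j, hij, hne⟩ := h5
      rw [hcol (fun k => x (f k)) i j hne (by simp only [hij]), smul_zero]
  rw [h1] at h2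
  refine hG _ g ?_ h2.symm
  refine Finset.sum_pos' (fun _ _ => Nat.zero_le _) ⟨id, Finset.mem_univ _, ?_⟩
  have h4 : cf id = ∏ j, n j j := if_pos Function.bijective_id
  rw [h4]
  exact Finset.prod_pos fun j _ => hn j

end H79.CN
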