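import Mathlib

/-! # CN.Box : polynomials in two variables of bounded degrees (about 120 lines, Mathlib only)

`K[X][X]`: inner variable `t`, outer variable `x`.  `Box K n m`: degree `< n` in `t` and `< m` in `x`.
`box_finrank`: the coefficient map `Box K n m → (Fin m × Fin n → K)`, `q ↦ (q.coeff j).coeff i` is a linear bijection
(inverse: `∑ monomial j (monomial i c)`).  `box_mul`: `coeff_mul` twice; in every term one of the two indices is out of range.
`tdeg g` = degree in `t` = `natDegree` of `Polynomial.Bivariate.swap g`; first prove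
`((Bivariate.swap q).coeff i).coeff j = (q.coeff j).coeff i` (induction on `q`, `Bivariate.swap_monomial_monomial`).
`box_dvd`: `p = 0` or `natDegree (g * p) = natDegree g + natDegree p` (and the same for `swap`, an algebra isomorphism); a nonzero element of `Box K n m` has
`natDegree < m` and `tdeg < n`. -/

namespace H79.CN

open Polynomial Module

variable {K : Type} [Field K]

/-- polynomials in two variables of degree `< n` in the inner and `< m` in the outer variable -/
def Box (K : Type) [Field K] (n m : ℕ) : Submodule K K[X][X] where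
  carrier := {q | ∀ i j, (n ≤ i ∨ m ≤ j) → (q.coeff j).coeff i = 0}
  add_mem' := by
    intro p q hp hq i j h
    rw [coeff_add, coeff_add, hp i j h, hq i j h, add_zero]
  zero_mem' := by
    intro i j _
    simp
  smul_mem' := by
    intro c q hq i j h
    rw [coeff_smul, coeff_smul, hq i j h, smul_zero]

/-- the degree in the inner variable -/
noncomputable def tdeg (g : K[X][X]) : ℕ := (Bivariate.swap g).natDegree

theorem box_mono {n n' m m' : ℕ} (hn : n ≤ n') (hm : m ≤ m') : Box K n m ≤ Box K n' m' := by
  intro q hq i j h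
  exact hq i j (h.imp (le_trans hn) (le_trans hm))

/-- coefficients after exchanging the variables -/
private theorem swap_coeff (q : K[X][X]) (i j : ℕ) :
    ((Bivariate.swap q).coeff i).coeff j = (q.coeff j).coeff i := by
  induction q using Polynomial.induction_on' with
  | add p q hp hq => rw [map_add, coeff_add, coeff_add, hp, hq, coeff_add, coeff_add]
  | monomial n f =>
    induction f using Polynomial.induction_on' with
    | add p q hp hq =>
      rw [map_add, map_add, coeff_add, coeff_add, hp, hq, coeff_add, coeff_add]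
    | monomial m a =>
      rw [Bivariate.swap_monomial_monomial]
      simp only [coeff_monomial]
      by_cases h1 : m = i
      · by_cases h2 : n = j
        · simp [h1, h2]
        · simp [h1, h2, coeff_monomial]
      · by_cases h2 : n = j
        · simp [h1, h2, coeff_monomial]
        · simp [h1, h2]

private noncomputable def boxMap (K : Type) [Field K] (n m : ℕ) :
    Box K n m →ₗ[K] (Fin m × Fin n → K) where
  toFun q ij := (q.1.coeff ij.1).coeff ij.2
  map_add' p q := by
    ext ij
    simp
  map_smul' c q := by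
    ext ij
    simp

private theorem boxMap_bij (n m : ℕ) : Function.Bijective (boxMap K n m) := by
  constructor
  · rw [injective_iff_map_eq_zero]
    rintro ⟨q, hq⟩ h
    rw [Submodule.mk_eq_zero]
    ext j i
    rw [coeff_zero, coeff_zero]
    by_cases hi : n ≤ i
    · exact hq i j (Or.inl hi)
    by_cases hj : m ≤ j
    · exact hq i j (Or.inr hj)
    push Not at hi hj
    exact congrFun h (⟨j, hj⟩, ⟨i, hi⟩)
  · intro c
    have hcoef : ∀ i j : ℕ, (((∑ x : Fin m × Fin n,
        monomial (x.1 : ℕ) (monomial (x.2 : ℕ) (c x)) : K[X][X])).coeff j).coeff i =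
        ∑ x : Fin m × Fin n, if (x.1 : ℕ) = j ∧ (x.2 : ℕ) = i then c x else 0 := by
      intro i j
      rw [finsetSum_coeff, finsetSum_coeff]
      refine Finset.sum_congr rfl fun x _ => ?_
      rw [coeff_monomial]
      by_cases h1 : (x.1 : ℕ) = j
      · by_cases h2 : (x.2 : ℕ) = i
        · simp [h1, h2]
        · simp [h1, h2, coeff_monomial]
      · simp [h1]
    refine ⟨⟨∑ x : Fin m × Fin n, monomial (x.1 : ℕ) (monomial (x.2 : ℕ) (c x)), ?_⟩, ?_⟩
    · intro i j h
      rw [hcoef]
      refine Finset.sum_eq_zero fun x _ => if_neg ?_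
      rintro ⟨h1, h2⟩
      have h3 := x.1.2
      have h4 := x.2.2
      omega
    · ext x
      change (((∑ x : Fin m × Fin n,
        monomial (x.1 : ℕ) (monomial (x.2 : ℕ) (c x)) : K[X][X])).coeff x.1).coeff x.2 = c x
      rw [hcoef, Finset.sum_eq_single x]
      · simp
      · intro y _ hy
        apply if_neg
        rintro ⟨h1, h2⟩
        exact hy (Prod.ext (Fin.ext h1) (Fin.ext h2))
      · intro h
        exact absurd (Finset.mem_univ _) h

private noncomputable def boxEquiv (K : Type) [Field K] (n m : ℕ) :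
    Box K n m ≃ₗ[K] (Fin m × Fin n → K) :=
  LinearEquiv.ofBijective (boxMap K n m) (boxMap_bij n m)

theorem box_fin (n m : ℕ) : FiniteDimensional K (Box K n m) := by
  exact Module.Finite.equiv (boxEquiv K n m).symm

theorem box_finrank (n m : ℕ) : finrank K (Box K n m) = n * m := by
  rw [(boxEquiv K n m).finrank_eq, Module.finrank_fintype_fun_eq_card]
  simp [mul_comm]

theorem box_mul {a b c d : ℕ} {p q : K[X][X]} (hp : p ∈ Box K (a + 1) (b + 1)) (hq : q ∈ Box K c d) :
    p * q ∈ Box K (a + c) (b + d) := by
  intro i j h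
  rw [coeff_mul, finsetSum_coeff]
  refine Finset.sum_eq_zero fun x hx => ?_
  rw [coeff_mul]
  refine Finset.sum_eq_zero fun y hy => ?_
  rw [Finset.HasAntidiagonal.mem_antidiagonal] at hx hy
  rcases h with h | h
  · rcases Nat.lt_or_ge y.1 (a + 1) with h1 | h1
    · have h2 : c ≤ y.2 := by omega
      rw [hq y.2 x.2 (Or.inl h2), mul_zero]
    · rw [hp y.1 x.1 (Or.inl h1), zero_mul]
  · rcases Nat.lt_or_ge x.1 (b + 1) with h1 | h1
    · have h2 : d ≤ x.2 := by omega
      rw [hq y.2 x.2 (Or.inr h2), mul_zero]
    · rw [hp y.1 x.1 (Or.inr h1), zero_mul]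

theorem box_self (g : K[X][X]) : g ∈ Box K (tdeg g + 1) (g.natDegree + 1) := by
  intro i j h
  rcases h with h | h
  · rw [← swap_coeff]
    have h1 : (Bivariate.swap g).coeff i = 0 := coeff_eq_zero_of_natDegree_lt (by
      unfold tdeg at h
      omega)
    rw [h1, coeff_zero]
  · have h1 : g.coeff j = 0 := coeff_eq_zero_of_natDegree_lt (by omega)
    rw [h1, coeff_zero]

theorem box_deg {g : K[X][X]} (hg : g ≠ 0) {n m : ℕ} (h : g ∈ Box K n m) : tdeg g < n ∧ g.natDegree < m := by
  refine ⟨?_, ?_⟩
  · have hs : Bivariate.swap g ≠ 0 := by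
      intro h0
      apply hg
      have := congrArg Bivariate.swap h0
      rwa [Bivariate.swap_swap_apply, map_zero] at this
    by_contra hlt
    push Not at hlt
    apply hs
    rw [← leadingCoeff_eq_zero]
    ext j
    rw [coeff_zero]
    change ((Bivariate.swap g).coeff (Bivariate.swap g).natDegree).coeff j = 0
    rw [swap_coeff]
    exact h _ j (Or.inl hlt)
  · by_contra hlt
    push Not at hlt
    apply hg
    rw [← leadingCoeff_eq_zero]
    ext i
    rw [coeff_zero]
    exact h i _ (Or.inr hlt)

theorem tdeg_mul {g p : K[X][X]} (hg : g ≠ 0) (hp : p ≠ 0) : tdeg (g * p) = tdeg g + tdeg p := by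
  have hs : ∀ q : K[X][X], q ≠ 0 → Bivariate.swap q ≠ 0 := by
    intro q hq h0
    apply hq
    have := congrArg Bivariate.swap h0
    rwa [Bivariate.swap_swap_apply, map_zero] at this
  unfold tdeg
  rw [map_mul, natDegree_mul (hs g hg) (hs p hp)]

theorem box_dvd {g p : K[X][X]} (hg : g ≠ 0) {a b : ℕ} (h : g * p ∈ Box K (tdeg g + a) (g.natDegree + b)) :
    p ∈ Box K a b := by
  rcases eq_or_ne p 0 with rfl | hp
  · exact Submodule.zero_mem _
  obtain ⟨h1, h2⟩ := box_deg (mul_ne_zero hg hp) h
  rw [tdeg_mul hg hp] at h1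
  rw [natDegree_mul hg hp] at h2
  exact box_mono (by omega) (by omega) (box_self p)

/-- an element of degree zero in both variables is a unit or zero -/
theorem unit_of_deg {g : K[X][X]} (hg : g ≠ 0) (h1 : tdeg g = 0) (h2 : g.natDegree = 0) : IsUnit g := by
  have hb := box_self g
  rw [h1, h2] at hb
  obtain ⟨f, hf⟩ : ∃ f : K[X], g = C f := ⟨g.coeff 0, eq_C_of_natDegree_eq_zero h2⟩
  have hf0 : f.natDegree = 0 := by
    have h3 : ∀ i, 1 ≤ i → f.coeff i = 0 := by
      intro i hi
      have := hb i 0 (Or.inl hi)
      rwa [hf, coeff_C_zero] at this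
    by_contra hne
    have h4 := h3 f.natDegree (Nat.one_le_iff_ne_zero.2 hne)
    have h5 : f = 0 := leadingCoeff_eq_zero.1 h4
    rw [h5] at hne
    simp at hne
  obtain ⟨r, hr⟩ : ∃ r : K, f = C r := ⟨f.coeff 0, eq_C_of_natDegree_eq_zero hf0⟩
  rw [hf, hr]
  apply IsUnit.map
  apply IsUnit.map
  rw [isUnit_iff_ne_zero]
  rintro rfl
  apply hg
  rw [hf, hr, map_zero, map_zero]

end H79.CN
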