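import Pool.Agent.H79.CN.Box

/-! # CN.Fac : irreducible factors and their degrees (about 60 lines, Mathlib only)

`WfDvdMonoid.exists_factors gb h0` : a multiset `s` of irreducible elements with product associated to `gb`.  `tdeg` and `natDegree` of the product are the sums (`tdeg_mul`, `natDegree_mul`, induction on
the multiset), every irreducible element has `tdeg + natDegree ≥ 1` (`unit_of_deg`), associated elements have the same degrees (units of `K[X][X]` have degree `0`, or: `gb ∣ s.prod` and `s.prod ∣ gb`), and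
`tdeg gb + natDegree gb < 2 B` (`box_deg`).  A zero of the product is a zero of a factor (`evalEval_multiset_prod` or `evalEvalRingHom`). -/

namespace H79.CN

open Polynomial

variable {K : Type} [Field K]

theorem fac_D_mul {g p : K[X][X]} (hg : g ≠ 0) (hp : p ≠ 0) :
    tdeg (g * p) + (g * p).natDegree = (tdeg g + g.natDegree) + (tdeg p + p.natDegree) := by
  rw [tdeg_mul hg hp, natDegree_mul hg hp]
  ring

theorem fac_prod (s : Multiset K[X][X]) (hs : ∀ g ∈ s, Irreducible g) :
    s.prod ≠ 0 ∧ Multiset.card s ≤ tdeg s.prod + s.prod.natDegree ∧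
      ∀ g ∈ s, tdeg g + g.natDegree ≤ tdeg s.prod + s.prod.natDegree := by
  induction s using Multiset.induction_on with
  | empty => simp
  | cons a s ih =>
    obtain ⟨h1, h2, h3⟩ := ih (fun g hg => hs g (Multiset.mem_cons_of_mem hg))
    have ha : Irreducible a := hs a (Multiset.mem_cons_self a s)
    have ha0 : a ≠ 0 := ha.ne_zero
    have hD := fac_D_mul ha0 h1
    have ha1 : 1 ≤ tdeg a + a.natDegree := by
      by_contra hcon
      have h4 : tdeg a = 0 := by omega
      have h5 : a.natDegree = 0 := by omega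
      exact ha.not_isUnit (unit_of_deg ha0 h4 h5)
    rw [Multiset.prod_cons]
    refine ⟨mul_ne_zero ha0 h1, ?_, ?_⟩
    · rw [Multiset.card_cons, hD]
      omega
    · intro g hg
      rw [hD]
      rcases Multiset.mem_cons.1 hg with rfl | hg
      · omega
      · have := h3 g hg
        omega

theorem fac {gb : K[X][X]} (h0 : gb ≠ 0) {B : ℕ} (hB : gb ∈ Box K B B) :
    ∃ s : Multiset K[X][X], Multiset.card s ≤ 2 * B ∧ (∀ g ∈ s, Irreducible g ∧ tdeg g + g.natDegree ≤ 2 * B) ∧
      ∀ t x : K, evalEval t x gb = 0 → ∃ g ∈ s, evalEval t x g = 0 := by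
  obtain ⟨s, hs, hassoc⟩ := WfDvdMonoid.exists_factors gb h0
  obtain ⟨h1, h2, h3⟩ := fac_prod s hs
  obtain ⟨u, hu⟩ := hassoc
  have hu0 : (u : K[X][X]) ≠ 0 := u.ne_zero
  have hD := fac_D_mul h1 hu0
  rw [hu] at hD
  have hb := box_deg h0 hB
  refine ⟨s, by omega, fun g hg => ⟨hs g hg, ?_⟩, ?_⟩
  · have := h3 g hg
    omega
  · intro t x hz
    have e1 : evalEvalRingHom t x gb = 0 := hz
    rw [← hu, map_mul] at e1
    have e2 : IsUnit (evalEvalRingHom t x (u : K[X][X])) := u.isUnit.map _
    have e3 : evalEvalRingHom t x s.prod = 0 := by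
      rcases mul_eq_zero.1 e1 with h | h
      · exact h
      · exact absurd h e2.ne_zero
    rw [map_multiset_prod, Multiset.prod_eq_zero_iff] at e3
    obtain ⟨g, hg, hg0⟩ := Multiset.mem_map.1 e3
    exact ⟨g, hg, hg0⟩

/-- an irreducible polynomial which does not contain the outer variable has all its zeros over one value of `t` -/
theorem vert [IsAlgClosed K] {g : K[X][X]} (hg : Irreducible g) (h : g.natDegree = 0) {t x t' x' : K}
    (h1 : evalEval t x g = 0) (h2 : evalEval t' x' g = 0) : t = t' := by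
  obtain ⟨a, rfl⟩ : ∃ a, g = C a := ⟨_, eq_C_of_natDegree_eq_zero h⟩
  rw [evalEval_C] at h1 h2
  obtain ⟨b, rfl⟩ := dvd_iff_isRoot.2 (show IsRoot a t from h1)
  have e : (C ((X - C t) * b) : K[X][X]) = C (X - C t) * C b := by rw [C_mul]
  rcases hg.isUnit_or_isUnit e with hu | hu
  · exfalso
    have := (hu.map (evalEvalRingHom t x)).ne_zero
    apply this
    rw [coe_evalEvalRingHom, evalEval_C]
    simp
  · have h3 := (hu.map (evalEvalRingHom t' x')).ne_zero
    rw [coe_evalEvalRingHom, evalEval_C] at h3
    rw [eval_mul] at h2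
    rcases mul_eq_zero.1 h2 with h4 | h4
    · rw [eval_sub, eval_X, eval_C, sub_eq_zero] at h4
      exact h4.symm
    · exact absurd h4 h3

end H79.CN
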