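import Pool.Agent.H79.CN.Box
import Pool.Agent.H25.V1.Tr

/-! # CN.GenP : the generic point of an irreducible plane curve (about 100 lines)

`aeval (tt K) : K[X] → Om K` is injective (`transcendental_tt`).  `g.map (aeval (tt K))` has degree `g.natDegree > 0`, so a root `ξ` (`IsAlgClosed.exists_root`), `aevalAeval (tt K) ξ q = (q.map (aeval (tt K))).eval ξ`.
Conversely let `aevalAeval (tt K) ξ q = 0` and suppose `g ∤ q`.  `g` is irreducible of positive degree, so primitive (`Irreducible.isPrimitive`) and irreducible over
`RatFunc K` (`Polynomial.IsPrimitive.irreducible_iff_irreducible_map_fraction_map`); the images of `g` and `q` in `(RatFunc K)[X]` have the common root `ξ` in `Om K`, so they are not coprime, `g ∣ q` over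
`RatFunc K`, hence over `K[X]` (`Polynomial.IsPrimitive.dvd_of_fraction_map_dvd_fraction_map` needs both primitive: use `q = C c * primPart`, or
`IsPrimitive.dvd_iff_fraction_map_dvd_fraction_map`). -/

namespace H79.CN

open H68.BB H25.KP H25.V1 Polynomial

variable {K : Type} [Field K]

private theorem genP_aeval_tt (p : K[X]) :
    aeval (tt K) p = algebraMap (RatFunc K) (Om K) (algebraMap K[X] (RatFunc K) p) := by
  have h1 : algebraMap K[X] (Om K) X = tt K := by
    rw [IsScalarTower.algebraMap_apply K[X] (RatFunc K) (Om K), RatFunc.algebraMap_X]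
    rfl
  rw [← h1, aeval_algebraMap_apply, aeval_X_left_apply, ← IsScalarTower.algebraMap_apply K[X] (RatFunc K) (Om K)]

private theorem genP_eval (ξ : Om K) (q : K[X][X]) :
    aevalAeval (tt K) ξ q = aeval ξ (q.map (algebraMap K[X] (RatFunc K))) := by
  induction q using Polynomial.induction_on' with
  | add p q hp hq => rw [map_add, hp, hq, Polynomial.map_add, map_add]
  | monomial n a =>
    rw [Polynomial.map_monomial, aeval_monomial, ← genP_aeval_tt]
    simp [← C_mul_X_pow_eq_monomial]

theorem genP [IsAlgClosed K] {g : K[X][X]} (hg : Irreducible g) (hd : 0 < g.natDegree) :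
    ∃ ξ : Om K, ∀ q : K[X][X], aevalAeval (tt K) ξ q = 0 ↔ g ∣ q := by
  have hprim : g.IsPrimitive := hg.isPrimitive hd.ne'
  have hirr : Irreducible (g.map (algebraMap K[X] (RatFunc K))) :=
    (hprim.irreducible_iff_irreducible_map_fraction_map).mp hg
  have hdeg : (g.map (algebraMap K[X] (RatFunc K))).degree ≠ 0 := by
    rw [Polynomial.degree_map_eq_of_injective (RatFunc.algebraMap_injective K)]
    intro h
    rw [natDegree_eq_of_degree_eq_some h] at hd
    exact lt_irrefl 0 hd
  obtain ⟨ξ, hξ⟩ := IsAlgClosed.exists_aeval_eq_zero (Om K) _ hdeg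
  refine ⟨ξ, fun q => ?_⟩
  rw [genP_eval]
  constructor
  · intro h
    have hmin := minpoly.eq_of_irreducible hirr hξ
    have h1 : g.map (algebraMap K[X] (RatFunc K)) ∣ q.map (algebraMap K[X] (RatFunc K)) := by
      refine dvd_trans ?_ (minpoly.dvd (RatFunc K) ξ h)
      rw [← hmin]
      exact dvd_mul_right _ _
    exact hprim.dvd_of_fraction_map_dvd_fraction_map h1
  · rintro ⟨p, rfl⟩
    rw [Polynomial.map_mul, map_mul, hξ, zero_mul]

end H79.CN
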