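import Pool.Agent.H79.CN.Red

/-! # CN.Nrm : the equation of the projection of `W ∩ {G = 0}` to the `(t, x)`-plane (about 80 lines)

`nrm` (`coe_aevalAeval_eq_evalEval` for `F = K`): `gb = q^2 - f r^2`; it is not zero: if `r = 0` then `q ≠ 0` by `hG0` (scale `P.t0` to `1`), otherwise compare the parities of `natDegree` (`fpol` has `natDegree = 3`). -/

namespace H79.CN

open H68.BB H25.KP H25.V1 Polynomial

variable {K : Type} [Field K] {a b : MvPolynomial (Fin 2) K}

private theorem nrm_ev {q : MvPolynomial (Fin 2) K} {n : ℕ}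
    (hq : q.IsHomogeneous n) (c t0 t1 : K) : ev q (c * t0) (c * t1) = c ^ n * ev q t0 t1 := by
  unfold ev
  rw [MvPolynomial.aeval_def, MvPolynomial.aeval_def, MvPolynomial.eval₂_eq', MvPolynomial.eval₂_eq',
    Finset.mul_sum]
  refine Finset.sum_congr rfl fun d hd => ?_
  have h1 : d 0 + d 1 = n := by
    have h2 := hq (MvPolynomial.mem_support_iff.1 hd)
    rw [← h2]
    simp [Finsupp.weight_apply, Finsupp.sum_fintype, Fin.sum_univ_two]
  rw [Fin.prod_univ_two, Fin.prod_univ_two, ← h1]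
  simp only [Matrix.cons_val_zero, Matrix.cons_val_one]
  ring

private theorem nrm_onW (ha : a.IsHomogeneous 8) (hb : b.IsHomogeneous 12) {P : Pt K} (hP : OnW a b P)
    (h0 : P.t0 ≠ 0) : OnW a b (P.smul P.t0⁻¹) := by
  refine ⟨Or.inl (mul_ne_zero (inv_ne_zero h0) h0), ?_⟩
  have h := hP.2
  simp only [Pt.smul]
  rw [nrm_ev ha, nrm_ev hb]
  linear_combination P.t0⁻¹ ^ 12 * h

private theorem fpol_natDegree (a1 b1 : K[X]) : (fpol a1 b1).natDegree = 3 := by
  unfold fpol
  compute_degree!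

theorem nrm (ha : a.IsHomogeneous 8) (hb : b.IsHomogeneous 12) {G : MvPolynomial (Fin 4) K} {e : ℕ}
    (hG : MvPolynomial.IsWeightedHomogeneous wts G e) (hG0 : ∃ P : Pt K, OnW a b P ∧ P.t0 ≠ 0 ∧ evG G P ≠ 0) :
    ∃ gb : K[X][X], gb ≠ 0 ∧ gb ∈ Box K (12 * e + 13) (12 * e + 13) ∧ ∀ t x y : K,
      OnW a b (⟨1, t, x, y⟩ : Pt K) → evG G ⟨1, t, x, y⟩ = 0 → evalEval t x gb = 0 := by
  obtain ⟨q, hq, r, hr, hqr⟩ := red ha hb hG
  set f := fpol (dh a) (dh b) with hf
  have hfbox : f ∈ Box K (6 * 2 + 1) 4 :=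
    fpol_box (n := 2) ((dh_deg ha).trans (by norm_num)) ((dh_deg hb).trans (by norm_num))
  have hf3 : f.natDegree = 3 := fpol_natDegree _ _
  have hf0 : f ≠ 0 := by
    intro h
    rw [h, natDegree_zero] at hf3
    exact absurd hf3 (by norm_num)
  refine ⟨q * q - f * (r * r), ?_, ?_, ?_⟩
  · intro h
    have h1 : q * q = f * (r * r) := sub_eq_zero.mp h
    by_cases hr0 : r = 0
    · have hq0 : q = 0 := by
        rw [hr0, mul_zero, mul_zero] at h1
        exact mul_self_eq_zero.mp h1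
      obtain ⟨P, hP, h0, hne⟩ := hG0
      have h2 : evG G (P.smul P.t0⁻¹) ≠ 0 := by
        rw [evG_smul hG]
        exact mul_ne_zero (pow_ne_zero _ (inv_ne_zero h0)) hne
      have h3 : P.smul P.t0⁻¹ = ⟨1, P.t0⁻¹ * P.t1, P.t0⁻¹ ^ 4 * P.x, P.t0⁻¹ ^ 6 * P.y⟩ := by
        simp only [Pt.smul, inv_mul_cancel₀ h0]
      have h4 := nrm_onW ha hb hP h0
      rw [h3] at h2 h4
      apply h2
      rw [hqr K _ _ _ h4, hq0, hr0, map_zero, mul_zero, add_zero]
    · have hrr : r * r ≠ 0 := mul_ne_zero hr0 hr0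
      have hq0 : q ≠ 0 := by
        intro hq0
        rw [hq0, mul_zero] at h1
        exact mul_ne_zero hf0 hrr h1.symm
      have h2 := congrArg natDegree h1
      rw [natDegree_mul hq0 hq0, natDegree_mul hf0 hrr, natDegree_mul hr0 hr0, hf3] at h2
      omega
  · apply Submodule.sub_mem
    · exact box_mono (by omega) (by omega) (box_mul hq hq)
    · have h1 : r * r ∈ Box K (6 * e + (6 * e + 1)) (6 * e + (6 * e + 1)) := box_mul hr hr
      have h2 : f * (r * r) ∈ Box K (6 * 2 + (6 * e + (6 * e + 1))) (3 + (6 * e + (6 * e + 1))) :=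
        box_mul hfbox h1
      exact box_mono (by omega) (by omega) h2
  · intro t x y hW h0
    have h1 := hqr K t x y hW
    rw [h0, coe_aevalAeval_eq_evalEval] at h1
    have h2 := onW_fpol.mp hW
    rw [coe_aevalAeval_eq_evalEval, ← hf] at h2
    rw [evalEval_sub, evalEval_mul, evalEval_mul, evalEval_mul, ← h2]
    linear_combination -(evalEval t x q - y * evalEval t x r) * h1

end H79.CN
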