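import Mathlib

/-! # CN.Cnt : the number of zeros of a function on a curve (Mathlib only)

`A` a commutative algebra over a field `K` with an increasing exhaustive filtration `E N` by finite dimensional subspaces, `dim E N ≤ D N + c`.  If `Φ * E N ⊆ E (N + n)` and
`Φ` is not a zero divisor then at most `D n` homomorphisms `A → K` vanish at `Φ`. -/

namespace H79.CN

open Module

variable {K A : Type} [Field K] [CommRing A] [Algebra K A]

/-- the joint evaluation at finitely many distinct points is onto -/
theorem joint_surj (X : Finset (A →ₐ[K] K)) :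
    Function.Surjective (LinearMap.pi (fun χ : X => (χ.1.toLinearMap : A →ₗ[K] K))) := by
  classical
  rw [← LinearMap.range_eq_top]
  by_contra hne
  obtain ⟨φ, hφ0, hφ⟩ := Submodule.exists_le_ker_of_lt_top _ (lt_top_iff_ne_top.2 hne)
  -- `φ` is a linear dependence of the characters
  have hli := linearIndependent_monoidHom A K
  have hinj : Function.Injective (fun χ : X => ((χ.1 : A →ₐ[K] K) : A →* K)) := by
    intro χ χ' h
    apply Subtype.ext
    apply AlgHom.ext
    intro a
    exact DFunLike.congr_fun h a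
  have hli' := hli.comp _ hinj
  rw [Fintype.linearIndependent_iff] at hli'
  have hz := hli' (fun χ => φ (Pi.single χ 1)) ?_
  · apply hφ0
    apply LinearMap.pi_ext'
    intro χ
    apply LinearMap.ext_ring
    simpa using hz χ
  · funext a
    have h1 : φ (LinearMap.pi (fun χ : X => (χ.1.toLinearMap : A →ₗ[K] K)) a) = 0 :=
      LinearMap.mem_ker.1 (hφ ⟨a, rfl⟩)
    have h2 : (LinearMap.pi (fun χ : X => (χ.1.toLinearMap : A →ₗ[K] K)) a) =
        ∑ χ : X, χ.1 a • (Pi.single χ (1 : K) : X → K) := by
      funext χ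
      simp only [LinearMap.pi_apply, AlgHom.toLinearMap_apply, Finset.sum_apply, Pi.smul_apply]
      rw [Finset.sum_eq_single χ]
      · simp
      · intro b _ hb
        rw [Pi.single_eq_of_ne hb.symm]
        simp
      · intro h
        exact absurd (Finset.mem_univ χ) h
    rw [h2, map_sum] at h1
    simp only [Finset.sum_apply, Pi.smul_apply, Pi.zero_apply]
    rw [← h1]
    refine Finset.sum_congr rfl fun χ _ => ?_
    rw [map_smul, smul_eq_mul, smul_eq_mul, mul_comm]
    rfl

theorem card_zeros {E : ℕ → Submodule K A} (hfin : ∀ N, FiniteDimensional K (E N)) (hmono : Monotone E)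
    (hsup : ∀ a, ∃ N, a ∈ E N) {Φ : A} (hΦ : ∀ a, Φ * a = 0 → a = 0) {n : ℕ}
    (hmul : ∀ N, ∀ a ∈ E N, Φ * a ∈ E (N + n)) {D c : ℕ} (hc : ∀ N, finrank K (E N) ≤ D * N + c)
    (X : Finset (A →ₐ[K] K)) (hX : ∀ χ ∈ X, χ Φ = 0) : X.card ≤ D * n := by
  classical
  set J : A →ₗ[K] (X → K) := LinearMap.pi (fun χ : X => (χ.1.toLinearMap : A →ₗ[K] K)) with hJ
  have hJs : Function.Surjective J := joint_surj X
  -- a stage where the evaluation is onto
  obtain ⟨N0, hN0⟩ : ∃ N0, ∀ v : X → K, ∃ a ∈ E N0, J a = v := by
    have h1 : ∀ χ : X, ∃ N, ∃ a ∈ E N, J a = Pi.single χ 1 := by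
      intro χ
      obtain ⟨a, ha⟩ := hJs (Pi.single χ 1)
      obtain ⟨N, hN⟩ := hsup a
      exact ⟨N, a, hN, ha⟩
    choose N a haN haJ using h1
    refine ⟨Finset.univ.sup N, fun v => ⟨∑ χ : X, v χ • a χ, ?_, ?_⟩⟩
    · refine Submodule.sum_mem _ fun χ _ => Submodule.smul_mem _ _ ?_
      exact hmono (Finset.le_sup (Finset.mem_univ χ)) (haN χ)
    · rw [map_sum]
      funext χ
      simp only [map_smul, haJ, Finset.sum_apply, Pi.smul_apply, smul_eq_mul]
      rw [Finset.sum_eq_single χ]
      · simp
      · intro b _ hb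
        rw [Pi.single_eq_of_ne hb.symm, mul_zero]
      · intro h
        exact absurd (Finset.mem_univ χ) h
  -- the step
  have hstep : ∀ N, N0 ≤ N → X.card + finrank K (E N) ≤ finrank K (E (N + n)) := by
    intro N hN
    have := hfin N
    have := hfin (N + n)
    let f : E (N + n) →ₗ[K] (X → K) := J.comp (E (N + n)).subtype
    have hf : Function.Surjective f := by
      intro v
      obtain ⟨a, ha, hav⟩ := hN0 v
      exact ⟨⟨a, hmono (by omega) ha⟩, hav⟩
    let g : E N →ₗ[K] LinearMap.ker f :=
      { toFun := fun a => ⟨⟨Φ * a.1, hmul N a.1 a.2⟩, by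
          rw [LinearMap.mem_ker]
          funext χ
          change χ.1 (Φ * a.1) = 0
          rw [map_mul, hX χ.1 χ.2, zero_mul]⟩
        map_add' := by
          intro x y
          apply Subtype.ext
          apply Subtype.ext
          change Φ * (x.1 + y.1) = Φ * x.1 + Φ * y.1
          rw [mul_add]
        map_smul' := by
          intro r x
          apply Subtype.ext
          apply Subtype.ext
          change Φ * (r • x.1) = r • (Φ * x.1)
          rw [mul_smul_comm] }
    have hg : Function.Injective g := by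
      refine (injective_iff_map_eq_zero g).2 fun x hx => ?_
      apply Subtype.ext
      apply hΦ
      have h0 := congrArg (fun z : LinearMap.ker f => ((z : E (N + n)) : A)) hx
      exact h0
    have h1 := LinearMap.finrank_range_add_finrank_ker f
    rw [LinearMap.range_eq_top.2 hf, finrank_top, finrank_fintype_fun_eq_card, Fintype.card_coe] at h1
    have h2 := LinearMap.finrank_le_finrank_of_injective hg
    omega
  have hsum : ∀ L : ℕ, X.card * L ≤ finrank K (E (N0 + n * L)) := by
    intro L
    induction L with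
    | zero => simp
    | succ L ih =>
      have h1 := hstep (N0 + n * L) (by omega)
      have e : N0 + n * (L + 1) = N0 + n * L + n := by ring
      rw [e]
      calc X.card * (L + 1) = X.card + X.card * L := by ring
        _ ≤ X.card + finrank K (E (N0 + n * L)) := by omega
        _ ≤ _ := h1
  by_contra hcon
  push Not at hcon
  have h1 := hsum (D * N0 + c + 1)
  have h2 := hc (N0 + n * (D * N0 + c + 1))
  have h3 : (D * n + 1) * (D * N0 + c + 1) ≤ X.card * (D * N0 + c + 1) := Nat.mul_le_mul_right _ hcon
  have h4 : (D * n + 1) * (D * N0 + c + 1) ≤ D * (N0 + n * (D * N0 + c + 1)) + c := h3.trans (h1.trans h2)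
  have h5 : (D * n + 1) * (D * N0 + c + 1) = D * (N0 + n * (D * N0 + c + 1)) + c + 1 := by ring
  omega

/-- a nonzero function in a large space vanishing at given points -/
theorem exists_zero {m : ℕ} (V : Submodule K A) [FiniteDimensional K V] (hV : m < finrank K V)
    (χ : Fin m → (A →ₐ[K] K)) : ∃ Φ ∈ V, Φ ≠ 0 ∧ ∀ j, χ j Φ = 0 := by
  let f : V →ₗ[K] (Fin m → K) := (LinearMap.pi (fun j => ((χ j).toLinearMap : A →ₗ[K] K))).comp V.subtype
  have h1 : LinearMap.ker f ≠ ⊥ := by
    apply LinearMap.ker_ne_bot_of_finrank_lt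
    rw [finrank_fintype_fun_eq_card, Fintype.card_fin]
    exact hV
  obtain ⟨v, hv, hv0⟩ := Submodule.exists_mem_ne_zero_of_ne_bot h1
  refine ⟨v.1, v.2, fun h => hv0 (Subtype.ext h), fun j => ?_⟩
  exact congrFun (LinearMap.mem_ker.1 hv) j

end H79.CN
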