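import Pool.Agent.H79.CN.RRb
import Pool.Agent.H79.CN.Cnt

/-! # CN.Phi : a function with many given zeros and few others (about 120 lines)

`δ = tdeg g + g.natDegree`, `N = 2 E^2 + E + 2`.  Case 2: `q(τ,ξ) + υ r(τ,ξ) = 0` only for `r(τ,ξ) = 0`: then `dim EE M ≤ 2 δ M + c` (`EE_le`, `rk_le`),
`dim EE N ≥ (2 N + 3 n + 2) δ - 2 tdeg g * natDegree g` (`EE_ge2`, `rk_ge`), `m` = this minus one; `Φ` from `exists_zero`; `X.card ≤ 2 δ (N + 3 n)` (`card_zeros` with
`n := N + 3 n`, `D := 2 δ`; `hΦ`: `RR` is a domain; `hmul`: `EE_mul`).  Case 1: there are `q`, `r` with `q(τ,ξ) + υ r(τ,ξ) = 0`, `r(τ,ξ) ≠ 0`: `u = r`, `w = -q` in `EE_split`, `dim EE M ≤ δ M + c`,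
`D := δ`, `m = (N + 3 n + 1) δ - tdeg g * natDegree g - 1` (`EE_ge1`, `rk_ge`).  `2 m - X.card ≥ 2` in both cases because `tdeg g * g.natDegree ≤ E^2` (`nlinarith`). -/

namespace H79.CN

open Polynomial Module

variable {K F : Type} [Field K] [Field F] [Algebra K F]

/-- a bound for the number of points -/
def Mb (n E : ℕ) : ℕ := (2 * (2 * E ^ 2 + E + 2) + 3 * n + 2) * E

theorem phi {τ ξ υ : F} {n E : ℕ} {a1 b1 : K[X]} (hn : 1 ≤ n) (ha : a1.natDegree ≤ 4 * n) (hb : b1.natDegree ≤ 6 * n)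
    (hυ : υ ^ 2 = aevalAeval τ ξ (fpol a1 b1)) {g : K[X][X]} (hg : g ≠ 0)
    (hk : ∀ q : K[X][X], aevalAeval τ ξ q = 0 ↔ g ∣ q) (h1 : 1 ≤ tdeg g + g.natDegree)
    (hE : tdeg g + g.natDegree ≤ E) :
    ∃ m : ℕ, m ≤ Mb n E ∧ ∀ χ : Fin m → (RR K τ ξ υ →ₐ[K] K), ∃ Φ : RR K τ ξ υ, Φ ≠ 0 ∧ (∀ j, χ j Φ = 0) ∧
      ∀ X : Finset (RR K τ ξ υ →ₐ[K] K), (∀ χ ∈ X, χ Φ = 0) → X.card + 2 ≤ 2 * m := by
  classical
  set t := tdeg g with ht
  set d := g.natDegree with hd
  have hg0 : aevalAeval τ ξ g = 0 := (hk g).2 dvd_rfl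
  have htd : t * d ≤ E ^ 2 := by
    have h2 : t ≤ E := by omega
    have h3 : d ≤ E := by omega
    calc t * d ≤ E * E := Nat.mul_le_mul h2 h3
      _ = E ^ 2 := (sq E).symm
  set N : ℕ := 2 * E ^ 2 + E + 2 with hN
  have hdom : ∀ {Φ : RR K τ ξ υ}, Φ ≠ 0 → ∀ a, Φ * a = 0 → a = 0 :=
    fun hΦ a h => (mul_eq_zero.1 h).resolve_left hΦ
  have hge1 : (N + 3 * n + 1) * (t + d) ≤ rk K τ ξ (N + 3 * n + 1) + t * d :=
    rk_ge hg (fun q => (hk q).1) (by omega) (by omega)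
  have hge2 : (N + 1) * (t + d) ≤ rk K τ ξ (N + 1) + t * d :=
    rk_ge hg (fun q => (hk q).1) (by omega) (by omega)
  have hE1 : N + 3 * n + 1 ≤ (N + 3 * n + 1) * (t + d) := Nat.le_mul_of_pos_right _ (by omega)
  by_cases H : ∀ q r : K[X][X], aevalAeval τ ξ q + υ * aevalAeval τ ξ r = 0 → aevalAeval τ ξ r = 0
  · -- the generic case
    have hfr := EE_ge2 (K := K) (τ := τ) (ξ := ξ) (υ := υ) n N H
    refine ⟨(2 * N + 3 * n + 2) * (t + d) - 2 * (t * d) - 1, ?_, ?_⟩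
    · have h2 : (2 * N + 3 * n + 2) * (t + d) ≤ Mb n E := by
        unfold Mb
        exact Nat.mul_le_mul_left _ hE
      omega
    · intro χ
      have e1 : (2 * N + 3 * n + 2) * (t + d) = (N + 3 * n + 1) * (t + d) + (N + 1) * (t + d) := by ring
      have hfin := EE_fin (K := K) (τ := τ) (ξ := ξ) (υ := υ) n N
      obtain ⟨Φ, hΦE, hΦ0, hΦz⟩ := exists_zero (EE K n τ ξ υ N) (by omega) χ
      refine ⟨Φ, hΦ0, hΦz, ?_⟩
      intro X hX
      have hcard := card_zeros (E := EE K n τ ξ υ) (fun M => EE_fin n M) (EE_mono n)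
        (fun a => EE_sup hn ha hb hυ a) (hdom hΦ0) (n := N + 3 * n)
        (fun M a ha' => EE_mul hn ha hb hυ hΦE ha') (D := 2 * (t + d)) (c := (3 * n + 2) * (t + d))
        (fun M => by
          have h3 := EE_le (K := K) (τ := τ) (ξ := ξ) (υ := υ) n M
          have h4 : rk K τ ξ (M + 3 * n + 1) ≤ (M + 3 * n + 1) * (t + d) := rk_le hg hg0 _
          have h5 : rk K τ ξ (M + 1) ≤ (M + 1) * (t + d) := rk_le hg hg0 _
          have e2 : 2 * (t + d) * M + (3 * n + 2) * (t + d) =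
            (M + 3 * n + 1) * (t + d) + (M + 1) * (t + d) := by ring
          rw [e2]
          omega) X hX
      have e3 : 2 * (t + d) * (N + 3 * n) = (2 * N + 6 * n) * (t + d) := by ring
      have h6 : 4 + 4 * (t * d) + (2 * N + 6 * n) * (t + d) ≤ (4 * N + 6 * n + 4) * (t + d) := by
        have e4 : (4 * N + 6 * n + 4) * (t + d) = (2 * N + 4) * (t + d) + (2 * N + 6 * n) * (t + d) := by
          ring
        have h7 : 2 * N + 4 ≤ (2 * N + 4) * (t + d) := Nat.le_mul_of_pos_right _ (by omega)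
        omega
      have e5 : (4 * N + 6 * n + 4) * (t + d) = 2 * ((2 * N + 3 * n + 2) * (t + d)) := by ring
      omega
  · -- the degenerate case
    push Not at H
    obtain ⟨q, r, hqr, hr⟩ := H
    obtain ⟨k0, hk0⟩ := EE_split (K := K) (τ := τ) (ξ := ξ) (υ := υ) (u := r) (w := -q) hr
      (by rw [map_neg]; linear_combination hqr) n
    have hfr := EE_ge1 (K := K) (τ := τ) (ξ := ξ) (υ := υ) n N
    refine ⟨(N + 3 * n + 1) * (t + d) - t * d - 1, ?_, ?_⟩
    · have h2 : (N + 3 * n + 1) * (t + d) ≤ Mb n E := by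
        unfold Mb
        exact Nat.mul_le_mul (by omega) hE
      omega
    · intro χ
      have hfin := EE_fin (K := K) (τ := τ) (ξ := ξ) (υ := υ) n N
      obtain ⟨Φ, hΦE, hΦ0, hΦz⟩ := exists_zero (EE K n τ ξ υ N) (by omega) χ
      refine ⟨Φ, hΦ0, hΦz, ?_⟩
      intro X hX
      have hcard := card_zeros (E := EE K n τ ξ υ) (fun M => EE_fin n M) (EE_mono n)
        (fun a => EE_sup hn ha hb hυ a) (hdom hΦ0) (n := N + 3 * n)
        (fun M a ha' => EE_mul hn ha hb hυ hΦE ha') (D := t + d) (c := (3 * n + 1 + k0) * (t + d))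
        (fun M => by
          have h3 := hk0 M
          have h4 : rk K τ ξ (M + 3 * n + 1 + k0) ≤ (M + 3 * n + 1 + k0) * (t + d) := rk_le hg hg0 _
          have e2 : (t + d) * M + (3 * n + 1 + k0) * (t + d) = (M + 3 * n + 1 + k0) * (t + d) := by ring
          rw [e2]
          omega) X hX
      have e3 : (t + d) * (N + 3 * n) = (N + 3 * n) * (t + d) := by ring
      have h6 : 4 + 2 * (t * d) + (N + 3 * n) * (t + d) ≤ 2 * ((N + 3 * n + 1) * (t + d)) := by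
        have e4 : 2 * ((N + 3 * n + 1) * (t + d)) =
          (N + 3 * n + 2) * (t + d) + (N + 3 * n) * (t + d) := by ring
        have h7 : N + 3 * n + 2 ≤ (N + 3 * n + 2) * (t + d) := Nat.le_mul_of_pos_right _ (by omega)
        omega
      omega

end H79.CN
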