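import Pool.Agent.H79.CN.RR

/-! # CN.PtHom : points of the curve are homomorphisms of the coordinate ring, up to the sign of `y` (about 150 lines)

Every element of `MvPolynomial (Fin 3) K` is `q + y r` at all points with `y^2 = f(t,x)`: for `G : MvPolynomial (Fin 3) K` there are `q`, `r` with
`aeval ![τ,ξ,υ] G = q(τ,ξ) + υ r(τ,ξ)` and `aeval ![t,x,s*y] G = q(t,x) + s y r(t,x)` for `s = 1` and `s = -1` (`MvPolynomial.induction_on`).
Claim: for one of the two signs `s` every `G` with `aeval ![τ,ξ,υ] G = 0` satisfies `aeval ![t,x,s y] G = 0`.  Otherwise there are `(q1,r1)`, `(q2,r2)` with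
`q1 + υ r1 = 0 = q2 + υ r2` at `(τ,ξ)`, `q1 + y r1 ≠ 0`, `q2 - y r2 ≠ 0` at `(t,x)`; but `(q1 + y r1)(q2 - y r2) = (q1 q2 - f r1 r2) + y (r1 q2 - q1 r2)` and both brackets vanish at
`(τ,ξ)` (`υ^2 = f`), so they are divisible by `g` and vanish at `(t,x)`.
`RR` is the range of `aeval ![τ,ξ,υ]` (`Algebra.adjoin_range_eq_range_aeval` or directly `Algebra.adjoin_induction`); the homomorphism: `Ideal.Quotient.liftₐ` and
`Ideal.quotientKerAlgEquivOfSurjective`, or `RingHom.liftOfRightInverse`. -/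

namespace H79.CN

open Polynomial Module

variable {K F : Type} [Field K] [Field F] [Algebra K F]

private theorem nf {τ ξ υ : F} {a1 b1 : K[X]} (hυ : υ ^ 2 = aevalAeval τ ξ (fpol a1 b1)) {t x y : K}
    (hy : y ^ 2 = evalEval t x (fpol a1 b1)) (G : MvPolynomial (Fin 3) K) :
    ∃ q r : K[X][X], MvPolynomial.aeval ![τ, ξ, υ] G = aevalAeval τ ξ q + υ * aevalAeval τ ξ r ∧
      ∀ s : K, s ^ 2 = 1 → MvPolynomial.aeval ![t, x, s * y] G = evalEval t x q + s * y * evalEval t x r := by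
  induction G using MvPolynomial.induction_on with
  | C c =>
    refine ⟨C (C c), 0, ?_, fun s _ => ?_⟩
    · rw [MvPolynomial.aeval_C]; simp
    · rw [MvPolynomial.aeval_C]; simp
  | add p q hp hq =>
    obtain ⟨q1, r1, h1, h1'⟩ := hp
    obtain ⟨q2, r2, h2, h2'⟩ := hq
    refine ⟨q1 + q2, r1 + r2, ?_, fun s hs => ?_⟩
    · rw [map_add, h1, h2, map_add, map_add]; ring
    · rw [map_add, h1' s hs, h2' s hs, evalEval_add, evalEval_add]; ring
  | mul_X p i hp =>
    obtain ⟨q, r, h1, h2⟩ := hp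
    fin_cases i
    · refine ⟨q * C X, r * C X, ?_, fun s hs => ?_⟩
      · rw [map_mul, h1, MvPolynomial.aeval_X, map_mul, map_mul, aevalAeval_X]
        simp only [Fin.zero_eta, Matrix.cons_val_zero]
        ring
      · rw [map_mul, h2 s hs, MvPolynomial.aeval_X, evalEval_mul, evalEval_mul, evalEval_C, eval_X]
        simp only [Fin.zero_eta, Matrix.cons_val_zero]
        ring
    · refine ⟨q * X, r * X, ?_, fun s hs => ?_⟩
      · rw [map_mul, h1, MvPolynomial.aeval_X, map_mul, map_mul, aevalAeval_Y]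
        simp only [Fin.mk_one, Matrix.cons_val_one, Matrix.cons_val_zero]
        ring
      · rw [map_mul, h2 s hs, MvPolynomial.aeval_X, evalEval_mul, evalEval_mul, evalEval_X]
        simp only [Fin.mk_one, Matrix.cons_val_one, Matrix.cons_val_zero]
        ring
    · refine ⟨fpol a1 b1 * r, q, ?_, fun s hs => ?_⟩
      · rw [map_mul, h1, MvPolynomial.aeval_X, map_mul, ← hυ]
        change (_ + _) * υ = _
        ring
      · rw [map_mul, h2 s hs, MvPolynomial.aeval_X, evalEval_mul, ← hy]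
        change (_ + _) * (s * y) = _
        linear_combination y ^ 2 * evalEval t x r * hs

theorem pt_hom {τ ξ υ : F} {a1 b1 : K[X]} (hυ : υ ^ 2 = aevalAeval τ ξ (fpol a1 b1)) {g : K[X][X]}
    (hk : ∀ q : K[X][X], aevalAeval τ ξ q = 0 → g ∣ q) {t x y : K} (hg : evalEval t x g = 0)
    (hy : y ^ 2 = evalEval t x (fpol a1 b1)) :
    ∃ (χ : RR K τ ξ υ →ₐ[K] K) (s : ℤ), (s = 1 ∨ s = -1) ∧ χ (tR K τ ξ υ) = t ∧ χ (xR K τ ξ υ) = x ∧
      χ (yR K τ ξ υ) = s * y := by
  have hz : ∀ q : K[X][X], aevalAeval τ ξ q = 0 → evalEval t x q = 0 := by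
    intro q hq
    obtain ⟨c, rfl⟩ := hk q hq
    rw [evalEval_mul, hg, zero_mul]
  -- the sign
  have hs : ∃ s : ℤ, (s = 1 ∨ s = -1) ∧ ∀ G : MvPolynomial (Fin 3) K, MvPolynomial.aeval ![τ, ξ, υ] G = 0 →
      MvPolynomial.aeval ![t, x, (s : K) * y] G = 0 := by
    by_contra hcon
    push Not at hcon
    obtain ⟨G1, h1, h1'⟩ := hcon 1 (Or.inl rfl)
    obtain ⟨G2, h2, h2'⟩ := hcon (-1) (Or.inr rfl)
    obtain ⟨q1, r1, e1, e1'⟩ := nf hυ hy G1
    obtain ⟨q2, r2, e2, e2'⟩ := nf hυ hy G2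
    rw [e1] at h1
    rw [e2] at h2
    have f1 := e1' ((1 : ℤ) : K) (by simp)
    have f2 := e2' ((-1 : ℤ) : K) (by simp)
    rw [f1] at h1'
    rw [f2] at h2'
    have g1 := hz (q1 * q2 - fpol a1 b1 * (r1 * r2)) (by
      rw [map_sub, map_mul, map_mul, map_mul, ← hυ]
      linear_combination aevalAeval τ ξ q2 * h1 - υ * aevalAeval τ ξ r1 * h2)
    have g2 := hz (r1 * q2 - q1 * r2) (by
      rw [map_sub, map_mul, map_mul]
      linear_combination aevalAeval τ ξ r1 * h2 - aevalAeval τ ξ r2 * h1)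
    rw [evalEval_sub, evalEval_mul, evalEval_mul, evalEval_mul, ← hy] at g1
    rw [evalEval_sub, evalEval_mul, evalEval_mul] at g2
    have g3 : (evalEval t x q1 + ((1 : ℤ) : K) * y * evalEval t x r1) *
        (evalEval t x q2 + ((-1 : ℤ) : K) * y * evalEval t x r2) = 0 := by
      push_cast
      linear_combination g1 + y * g2
    rcases mul_eq_zero.1 g3 with h | h
    · exact h1' h
    · exact h2' h
  obtain ⟨s, hs1, hs2⟩ := hs
  -- the surjection
  let φ : MvPolynomial (Fin 3) K →ₐ[K] RR K τ ξ υ := MvPolynomial.aeval ![tR K τ ξ υ, xR K τ ξ υ, yR K τ ξ υ]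
  have hφ : ∀ G, ((φ G : RR K τ ξ υ) : F) = MvPolynomial.aeval ![τ, ξ, υ] G := by
    intro G
    have h1 : (RR K τ ξ υ).val.comp φ = MvPolynomial.aeval ![τ, ξ, υ] := by
      apply MvPolynomial.algHom_ext
      intro i
      fin_cases i
      · simp [φ, tR]
      · simp [φ, xR]
      · simp [φ, yR]
    exact DFunLike.congr_fun h1 G
  have hsurj : Function.Surjective φ := by
    rintro ⟨z, hz⟩
    have h1 : z ∈ (MvPolynomial.aeval ![τ, ξ, υ] : MvPolynomial (Fin 3) K →ₐ[K] F).range := by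
      have h2 : RR K τ ξ υ ≤ (MvPolynomial.aeval ![τ, ξ, υ] : MvPolynomial (Fin 3) K →ₐ[K] F).range := by
        refine Algebra.adjoin_le ?_
        rintro w (rfl | rfl | rfl)
        · exact ⟨MvPolynomial.X 0, by simp⟩
        · exact ⟨MvPolynomial.X 1, by simp⟩
        · exact ⟨MvPolynomial.X 2, by simp⟩
      exact h2 hz
    obtain ⟨G, hG⟩ := h1
    refine ⟨G, Subtype.ext ?_⟩
    rw [hφ]
    exact hG
  let ψ : MvPolynomial (Fin 3) K →ₐ[K] K := MvPolynomial.aeval ![t, x, (s : K) * y]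
  have hker : ∀ G, G ∈ RingHom.ker φ → ψ G = 0 := by
    intro G hG
    apply hs2 G
    rw [← hφ, (RingHom.mem_ker).1 hG]
    rfl
  let χ : RR K τ ξ υ →ₐ[K] K := (Ideal.Quotient.liftₐ (RingHom.ker φ) ψ hker).comp
    (Ideal.quotientKerAlgEquivOfSurjective hsurj).symm.toAlgHom
  have hχ : ∀ G, χ (φ G) = ψ G := by
    intro G
    have h1 : (Ideal.quotientKerAlgEquivOfSurjective hsurj).symm (φ G) = Ideal.Quotient.mk _ G := by
      rw [AlgEquiv.symm_apply_eq]
      rfl
    change (Ideal.Quotient.liftₐ (RingHom.ker φ) ψ hker) ((Ideal.quotientKerAlgEquivOfSurjective hsurj).symm (φ G)) = _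
    rw [h1]
    rfl
  refine ⟨χ, s, hs1, ?_, ?_, ?_⟩
  · have h1 := hχ (MvPolynomial.X 0)
    simpa [φ, ψ] using h1
  · have h1 := hχ (MvPolynomial.X 1)
    simpa [φ, ψ] using h1
  · have h1 := hχ (MvPolynomial.X 2)
    simpa [φ, ψ] using h1

end H79.CN
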