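import Pool.Agent.H79.CN.RelR
import Pool.Agent.H79.CN.AbsI
import Pool.Agent.H79.CN.Phi
import Pool.Agent.H79.CN.PtHom
import Pool.Agent.H79.CN.Fac
import Pool.Agent.H79.CN.GenP
import Pool.Agent.H79.CN.Nrm
import Pool.Agent.H25.V1.Ins
import Pool.Agent.H25.V1.FibK
import Pool.Agent.H25.V1.Fact1

/-! # CN.Cmp : many points on one irreducible curve (about 300 lines)

Replace `aa (P i)` by `± aa (pF χ_i)` (`repl`, `aa P + aa P.neg ∈ T1`), choose `m` of the places (`phi`), and apply `absI`. -/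

namespace H79.CN

open H68.BB H25.KP H25.V1 Polynomial

variable {K : Type} [Field K] {a b : MvPolynomial (Fin 2) K}

/-- `(P - o) + (-P - o)` is rationally equivalent to zero -/
theorem aa_neg [IsAlgClosed K] [NZ6 K] (ha : a.IsHomogeneous 8) (hb : b.IsHomogeneous 12) {P : Pt K}
    (hP : OnW a b P) : aa P + aa P.neg ∈ RatEq1 a b := by
  have h1 := cl_neg ha hb hP (OnW_o K ha hb)
  have h2 : H25.KP.pt P (o K) + H25.KP.pt P.neg (o K) - 2 • H25.KP.pt (o K) (o K) ∈ RatEq a b := by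
    rw [← QuotientAddGroup.eq_zero_iff]
    have h3 : ((H25.KP.pt P (o K) + H25.KP.pt P.neg (o K) - 2 • H25.KP.pt (o K) (o K) : Cyc K) : CH a b) =
        cl a b P (o K) + cl a b P.neg (o K) - 2 • cl a b (o K) (o K) := rfl
    rw [h3, h1, sub_self]
  have h4 := proj h2
  have h5 : Finsupp.mapDomain Prod.fst (H25.KP.pt P (o K) + H25.KP.pt P.neg (o K) - 2 • H25.KP.pt (o K) (o K)) = aa P + aa P.neg := by
    rw [Finsupp.mapDomain_sub, Finsupp.mapDomain_add, Finsupp.mapDomain_smul]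
    unfold H25.KP.pt
    rw [Finsupp.mapDomain_single, Finsupp.mapDomain_single, Finsupp.mapDomain_single]
    unfold aa
    abel
  rw [h5] at h4
  exact h4

/-- the sum over a multiset, split into prescribed members and the others -/
private theorem split_sum {α A ι : Type} [AddCommGroup A] [DecidableEq α] (c : Multiset α) (f : α → A) (I : Finset ι)
    (x : ι → α) (hx : Set.InjOn x I) :
    (c.map f).sum = (∑ i ∈ I, c.count (x i) • f (x i)) + ((c.filter (fun z => z ∉ I.image x)).map f).sum := by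
  have h1 : (c.map f).sum = ((c.filter (fun z => z ∈ I.image x)).map f).sum +
      ((c.filter (fun z => z ∉ I.image x)).map f).sum := by
    rw [← Multiset.sum_add, ← Multiset.map_add, Multiset.filter_add_not]
  rw [h1]
  congr 1
  have h2 : (∑ i ∈ I, c.count (x i) • f (x i)) = ∑ z ∈ I.image x, c.count z • f z := by
    rw [Finset.sum_image hx]
  rw [h2, Finset.sum_multiset_map_count]
  have h3 : ∀ z ∈ (c.filter (fun z => z ∈ I.image x)).toFinset,
      (c.filter (fun z => z ∈ I.image x)).count z • f z = c.count z • f z := by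
    intro z hz
    rw [Multiset.mem_toFinset, Multiset.mem_filter] at hz
    rw [Multiset.count_filter, if_pos hz.2]
  rw [Finset.sum_congr rfl h3]
  apply Finset.sum_subset
  · intro z hz
    rw [Multiset.mem_toFinset, Multiset.mem_filter] at hz
    exact hz.2
  · intro z hz hz'
    have h4 : z ∉ c := fun h => hz' (by
      rw [Multiset.mem_toFinset, Multiset.mem_filter]
      exact ⟨h, hz⟩)
    rw [Multiset.count_eq_zero_of_notMem h4, zero_smul]

theorem cmp [IsAlgClosed K] [NZ6 K] (ha : a.IsHomogeneous 8) (hb : b.IsHomogeneous 12) (hD : disc a b ≠ 0)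
    {u0 u1 v0 v1 : K} (huv : u0 * v1 ≠ u1 * v0) (hu : ev (disc a b) u0 u1 = 0) (hv : ev (disc a b) v0 v1 = 0)
    {E : ℕ} {g : K[X][X]} (hg : Irreducible g) (hd : 0 < g.natDegree) (hE : tdeg g + g.natDegree ≤ E)
    {M : ℕ} {mul : MultilinearMap ℤ (fun _ : Fin M => Cyc1 K) (CycM K M)} (hm : IsPr mul)
    (P : Fin M → Pt K) (hP : ∀ i, OnW a b (P i)) (I : Finset (Fin M)) (hI : Mb 2 E ≤ I.card)
    (h1 : ∀ i ∈ I, (P i).t0 = 1) (h2 : ∀ i ∈ I, evalEval (P i).t1 (P i).x g = 0)
    (h3 : ∀ i ∈ I, ∀ j ∈ I, (P i).t1 = (P j).t1 → i = j) :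
    mul (fun i => aa (P i)) ∈ TM a b M := by
  classical
  -- the generic point
  obtain ⟨ξ, hk⟩ := genP hg hd
  set τ : Om K := tt K with hτ
  obtain ⟨υ, hυ⟩ := IsAlgClosed.exists_pow_nat_eq (aevalAeval τ ξ (fpol (dh a) (dh b))) (n := 2) (by norm_num)
  have hs : OnW a b (⟨1, τ, ξ, υ⟩ : Pt (Om K)) := onW_fpol.2 hυ
  obtain ⟨m, hmM, hφ⟩ := phi (n := 2) (E := E) (by norm_num) (dh_deg ha) (dh_deg hb) hυ hg.ne_zero hk (by omega) hE
  obtain ⟨I', hI', hc⟩ := Finset.exists_subset_card_eq (hmM.trans hI)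
  -- the homomorphisms
  have hχ0 : ∀ i ∈ I', ∃ (χ : RR K τ ξ υ →ₐ[K] K) (s : ℤ), (s = 1 ∨ s = -1) ∧
      χ (tR K τ ξ υ) = (P i).t1 ∧ χ (xR K τ ξ υ) = (P i).x ∧ χ (yR K τ ξ υ) = s * (P i).y := by
    intro i hi
    have e1 : (⟨1, (P i).t1, (P i).x, (P i).y⟩ : Pt K) = P i := by
      rw [← h1 i (hI' hi)]
    have e2 : OnW a b (⟨1, (P i).t1, (P i).x, (P i).y⟩ : Pt K) := by rw [e1]; exact hP i
    have e3 := onW_fpol.1 e2
    rw [coe_aevalAeval_eq_evalEval] at e3
    exact pt_hom hυ (fun q hq => (hk q).1 hq) (h2 i (hI' hi)) e3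
  -- `m` is positive
  obtain ⟨i0, hi0⟩ : I'.Nonempty := by
    rw [← Finset.card_pos, hc]
    by_contra h0
    have h0' : m = 0 := by omega
    subst h0'
    obtain ⟨Φ, -, -, h4⟩ := hφ (fun j => j.elim0)
    have := h4 ∅ (by simp)
    omega
  have hχ1 : ∀ i : Fin M, ∃ (χ : RR K τ ξ υ →ₐ[K] K) (s : ℤ), (s = 1 ∨ s = -1) ∧ (i ∈ I' →
      χ (tR K τ ξ υ) = (P i).t1 ∧ χ (xR K τ ξ υ) = (P i).x ∧ χ (yR K τ ξ υ) = s * (P i).y) ∧ (i ∉ I' → s = 1) := by
    intro i
    by_cases hi : i ∈ I'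
    · obtain ⟨χ, s, hs1, hs2⟩ := hχ0 i hi
      exact ⟨χ, s, hs1, fun _ => hs2, fun h => absurd hi h⟩
    · obtain ⟨χ, s, hs1, hs2⟩ := hχ0 i0 hi0
      exact ⟨χ, 1, Or.inl rfl, fun h => absurd h hi, fun _ => rfl⟩
  choose χ s hs1 hs2 hs3 using hχ1
  have hinj : Set.InjOn χ I' := by
    intro i hi j hj hij
    refine h3 i (hI' hi) j (hI' hj) ?_
    rw [← (hs2 i hi).1, ← (hs2 j hj).1, hij]
  -- the function
  let e : Fin m ≃ I' := (Finset.equivFinOfCardEq hc).symm
  obtain ⟨Φ, hΦ, hΦ0, hΦX⟩ := hφ (fun j => χ (e j).1)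
  have hz : ∀ i ∈ I', χ i Φ = 0 := by
    intro i hi
    have h4 := hΦ0 (e.symm ⟨i, hi⟩)
    rw [Equiv.apply_symm_apply] at h4
    exact h4
  have hfin : {ψ : RR K τ ξ υ →ₐ[K] K | ψ Φ = 0}.Finite := by
    by_contra hinf
    obtain ⟨X, hX1, hX2⟩ := Set.Infinite.exists_subset_card_eq hinf (2 * m)
    have := hΦX X (fun ψ hψ => hX1 hψ)
    omega
  have hXc := hΦX hfin.toFinset (fun ψ hψ => hfin.mem_toFinset.1 hψ)
  -- the relations
  have hrel := fun i : Fin M => fun hi : i ∈ I' => rel ha hb hs hΦ (χ i) (hz i hi)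
  have hrel' : ∀ i : Fin M, ∃ (c : Multiset (RR K τ ξ υ →ₐ[K] K)) (w : Cyc1 K), i ∈ I' → χ i ∈ c ∧ (∀ ψ ∈ c, ψ Φ = 0) ∧
      w ∈ AddSubgroup.closure {z | ∃ P : Pt K, OnW a b P ∧ P.t0 = 0 ∧ z = aa P} ∧
      (c.map (fun ψ => aa (pF ψ))).sum - w ∈ T1 a b := by
    intro i
    by_cases hi : i ∈ I'
    · obtain ⟨c, w, h⟩ := hrel i hi
      exact ⟨c, w, fun _ => h⟩
    · exact ⟨0, 0, fun h => absurd h hi⟩
  choose c w hcw using hrel'
  -- the colours
  let C : Finset (Option K) := insert none ((hfin.toFinset \ I'.image χ).image (fun ψ => some (ψ (tR K τ ξ υ))))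
  have hC : C.card < I'.card := by
    have h4 : (I'.image χ).card = m := by rw [Finset.card_image_of_injOn hinj, hc]
    have h5 : I'.image χ ⊆ hfin.toFinset := by
      intro ψ hψ
      obtain ⟨i, hi, rfl⟩ := Finset.mem_image.1 hψ
      exact hfin.mem_toFinset.2 (hz i hi)
    have h6 : C.card ≤ (hfin.toFinset \ I'.image χ).card + 1 :=
      (Finset.card_insert_le _ _).trans (Nat.add_le_add_right Finset.card_image_le 1)
    rw [Finset.card_sdiff_of_subset h5, h4] at h6
    have h7 := Finset.card_le_card h5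
    rw [h4] at h7
    rw [hc]
    omega
  -- the letters
  let x : Fin M → LW a b := fun i => if i ∈ I' then ⟨pF (χ i), pF_onW hs (χ i)⟩ else ⟨P i, hP i⟩
  have hx : ∀ i ∈ I', (x i).1 = pF (χ i) := fun i hi => by simp only [x, if_pos hi]
  have key := absI ha hb hD huv hu hv hm x I' C hC (fun j i => (c j).count (χ i))
    (fun j hj => Multiset.count_pos.2 (hcw j hj).1)
    (fun j => w j - (((c j).filter (fun z => z ∉ I'.image χ)).map (fun ψ => aa (pF ψ))).sum) ?_ ?_
  · -- back to the points `P i`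
    have h4 : MZ a b mul (fun i => uW ha hb ⟨P i, hP i⟩) = MZ a b mul (fun i => s i • uW ha hb (x i)) := by
      refine repl (MZ a b mul) (TZ a b) (fun z hz => MZ_T hm hz) ?_
      intro i
      rw [AddSubgroup.mem_comap, map_sub, map_zsmul]
      change aa (P i) - s i • aa (x i).1 ∈ T1 a b
      by_cases hi : i ∈ I'
      · obtain ⟨g1, g2, g3⟩ := hs2 i hi
        rw [hx i hi]
        rcases hs1 i with h5 | h5
        · rw [h5] at g3 ⊢
          have h6 : pF (χ i) = P i := by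
            unfold pF
            rw [g1, g2, g3]
            ext <;> simp [h1 i (hI' hi)]
          rw [h6, one_smul, sub_self]
          exact AddSubgroup.zero_mem _
        · rw [h5] at g3 ⊢
          have h6 : pF (χ i) = (P i).neg := by
            unfold pF Pt.neg
            rw [g1, g2, g3]
            ext <;> simp [h1 i (hI' hi)]
          rw [h6, neg_smul, one_smul, sub_neg_eq_add]
          exact le_tor _ (aa_neg ha hb (hP i))
      · have h5 : (x i).1 = P i := by simp only [x, if_neg hi]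
        rw [hs3 i hi, h5, one_smul, sub_self]
        exact AddSubgroup.zero_mem _
    have h5 : MZ a b mul (fun i => uW ha hb (x i)) = 0 := by
      rw [MZ_apply, QuotientAddGroup.eq_zero_iff]
      exact key
    rw [MultilinearMap.map_smul_univ, h5, smul_zero, MZ_apply, QuotientAddGroup.eq_zero_iff] at h4
    exact h4
  · intro j hj
    obtain ⟨-, g2, g3, -⟩ := hcw j hj
    refine AddSubgroup.sub_mem _ ?_ ?_
    · refine AddSubgroup.closure_mono ?_ g3
      rintro z ⟨Q, hQ, hQ0, rfl⟩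
      refine ⟨⟨Q, hQ⟩, ?_, rfl⟩
      have h5 : colP Q = none := by
        unfold colP
        rw [if_pos hQ0]
      change colP Q ∈ C
      rw [h5]
      exact Finset.mem_insert_self _ _
    · refine AddSubgroup.multiset_sum_mem _ _ ?_
      intro z hz
      obtain ⟨ψ, hψ, rfl⟩ := Multiset.mem_map.1 hz
      rw [Multiset.mem_filter] at hψ
      refine AddSubgroup.subset_closure ⟨⟨pF ψ, pF_onW hs ψ⟩, ?_, rfl⟩
      have h5 : colP (pF ψ) = some (ψ (tR K τ ξ υ)) := by
        unfold colP pF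
        rw [if_neg one_ne_zero, div_one]
      change colP (pF ψ) ∈ C
      rw [h5]
      refine Finset.mem_insert_of_mem (Finset.mem_image.2 ⟨ψ, ?_, rfl⟩)
      rw [Finset.mem_sdiff]
      exact ⟨hfin.mem_toFinset.2 (g2 ψ hψ.1), hψ.2⟩
  · intro j hj
    have h5 := split_sum (c j) (fun ψ => aa (pF ψ)) I' χ hinj
    have h6 : ∑ i ∈ I', (c j).count (χ i) • aa (x i).1 = ∑ i ∈ I', (c j).count (χ i) • aa (pF (χ i)) :=
      Finset.sum_congr rfl fun i hi => by rw [hx i hi]
    rw [h6]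
    have h7 := (hcw j hj).2.2.2
    rw [h5] at h7
    convert h7 using 1
    abel

end H79.CN
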