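import Pool.Agent.H79.CN.Cmp

/-! # CN.CombU : points of `W ∩ {G = 0}`, uniform bound (about 120 lines)

`B = 12 e + 13`, `E = 2 B`, `M = E * (Mb 2 E + 1) + 2`.  If `(P i).t0 * (P j).t1 = (P i).t1 * (P j).t0` for some `i ≠ j`: `fib`, `kill2`.  So at most one `P i` has `t0 = 0`; replace the
others by `(P i).smul (P i).t0⁻¹` (`aa_prp`, `repl` or `kill1`; `evG_smul`).  `nrm`, `fac`; choose for every `i` with `t0 = 1` a factor `g ∈ s` with `g (t_i, x_i) = 0`; one factor has more than `Mb 2 E`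
(and at least two) points (`Finset.exists_lt_card_fiber_of_mul_lt_card_of_maps_to` on `s.toFinset`); it has `natDegree > 0` by `vert`; `cmp`. -/

namespace H79.CN

open H68.BB H25.KP H25.V1 Polynomial

private theorem cu_ev_scale {K : Type} [Field K] {q : MvPolynomial (Fin 2) K} {n : ℕ}
    (hq : q.IsHomogeneous n) (c t0 t1 : K) : ev q (c * t0) (c * t1) = c ^ n * ev q t0 t1 := by
  unfold ev
  rw [MvPolynomial.aeval_def, MvPolynomial.aeval_def, MvPolynomial.eval₂_eq', MvPolynomial.eval₂_eq',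
    Finset.mul_sum]
  refine Finset.sum_congr rfl fun d hd => ?_
  have h1 : d 0 + d 1 = n := by
    have h2 := hq (MvPolynomial.mem_support_iff.1 hd)
    rw [← h2]
    simp [Finsupp.weight_apply, Finsupp.sum_fintype, Fin.sum_univ_two]
  rw [Fin.prod_univ_two, Fin.prod_univ_two, ← h1]
  simp only [Matrix.cons_val_zero, Matrix.cons_val_one]
  ring

private theorem cu_OnW_smul {K : Type} [Field K] {a b : MvPolynomial (Fin 2) K} (ha : a.IsHomogeneous 8)
    (hb : b.IsHomogeneous 12) {P : Pt K} (hP : OnW a b P) {c : K} (hc : c ≠ 0) : OnW a b (P.smul c) := by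
  refine ⟨?_, ?_⟩
  · rcases hP.1 with hp | hp | hp | hp
    · exact Or.inl (mul_ne_zero hc hp)
    · exact Or.inr (Or.inl (mul_ne_zero hc hp))
    · exact Or.inr (Or.inr (Or.inl (mul_ne_zero (pow_ne_zero _ hc) hp)))
    · exact Or.inr (Or.inr (Or.inr (mul_ne_zero (pow_ne_zero _ hc) hp)))
  · show (c ^ 6 * P.y) ^ 2 = (c ^ 4 * P.x) ^ 3 + ev a (c * P.t0) (c * P.t1) * (c ^ 4 * P.x) + ev b (c * P.t0) (c * P.t1)
    rw [cu_ev_scale ha, cu_ev_scale hb]
    linear_combination c ^ 12 * hP.2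

/-- proportional coordinate vectors give the same product modulo torsion -/
private theorem cu_repl {K : Type} [Field K] [IsAlgClosed K] [NZ6 K] {a b : MvPolynomial (Fin 2) K}
    (ha : a.IsHomogeneous 8) (hb : b.IsHomogeneous 12) {m : ℕ}
    {mul : MultilinearMap ℤ (fun _ : Fin m => Cyc1 K) (CycM K m)} (hm : IsPr mul)
    {P P' : Fin m → Pt K} (hP : ∀ i, OnW a b (P i)) (hP' : ∀ i, OnW a b (P' i))
    (h : ∀ i, aa (P' i) - aa (P i) ∈ RatEq1 a b) (h1 : mul (fun i => aa (P' i)) ∈ TM a b m) :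
    mul (fun i => aa (P i)) ∈ TM a b m := by
  classical
  let ι : (ZW a b) →ₗ[ℤ] Cyc1 K := (AddSubgroup.subtype (ZW a b)).toIntLinearMap
  let q : CycM K m →ₗ[ℤ] (CycM K m ⧸ TM a b m) := (QuotientAddGroup.mk' (TM a b m)).toIntLinearMap
  let M : MultilinearMap ℤ (fun _ : Fin m => ZW a b) (CycM K m ⧸ TM a b m) :=
    q.compMultilinearMap (mul.compLinearMap (fun _ => ι))
  have hM : ∀ z : Fin m → ZW a b, M z = ((mul (fun i => (z i : Cyc1 K)) : CycM K m) : CycM K m ⧸ TM a b m) :=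
    fun z => rfl
  have key := repl M ((T1 a b).comap (AddSubgroup.subtype (ZW a b))) (by
    rintro z ⟨i, hi⟩
    rw [hM, QuotientAddGroup.eq_zero_iff]
    exact kill1 hm (fun j => (z j).2) hi)
    (z := fun i => ⟨aa (P' i), aa_ZW ha hb (hP' i)⟩) (z' := fun i => ⟨aa (P i), aa_ZW ha hb (hP i)⟩)
    (fun i => by
      rw [AddSubgroup.mem_comap]
      exact le_tor _ (h i))
  rw [hM, hM] at key
  have h2 : ((mul (fun i => aa (P' i)) : CycM K m) : CycM K m ⧸ TM a b m) = 0 :=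
    (QuotientAddGroup.eq_zero_iff _).2 h1
  rw [← QuotientAddGroup.eq_zero_iff]
  exact key.symm.trans h2

theorem combU (e : ℕ) : ∃ M : ℕ, 0 < M ∧ ∀ (K : Type) [Field K] [IsAlgClosed K] [NZ6 K]
    (a b : MvPolynomial (Fin 2) K) (_ : a.IsHomogeneous 8) (_ : b.IsHomogeneous 12) (_ : disc a b ≠ 0)
    (u0 u1 v0 v1 : K) (_ : u0 * v1 ≠ u1 * v0) (_ : ev (disc a b) u0 u1 = 0) (_ : ev (disc a b) v0 v1 = 0)
    (G : MvPolynomial (Fin 4) K) (_ : MvPolynomial.IsWeightedHomogeneous wts G e)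
    (_ : ∃ P : Pt K, OnW a b P ∧ P.t0 ≠ 0 ∧ evG G P ≠ 0)
    (mul : MultilinearMap ℤ (fun _ : Fin M => Cyc1 K) (CycM K M)) (_ : IsPr mul) (P : Fin M → Pt K)
    (_ : ∀ i, OnW a b (P i)) (_ : ∀ i, evG G (P i) = 0), mul (fun i => aa (P i)) ∈ TM a b M := by
  classical
  obtain ⟨B, hB⟩ : ∃ B : ℕ, B = 12 * e + 13 := ⟨_, rfl⟩
  obtain ⟨E, hE⟩ : ∃ E : ℕ, E = 2 * B := ⟨_, rfl⟩
  obtain ⟨D, hDd⟩ : ∃ D : ℕ, D = Mb 2 E := ⟨_, rfl⟩
  obtain ⟨M, hMd⟩ : ∃ M : ℕ, M = E * (D + 1) + 2 := ⟨_, rfl⟩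
  refine ⟨M, by omega, ?_⟩
  intro K _ _ _ a b ha hb hD u0 u1 v0 v1 huv hu hv G hG hG0 mul hm P hP hPG
  by_cases hprop : ∃ i j, i ≠ j ∧ (P i).t0 * (P j).t1 = (P i).t1 * (P j).t0
  · obtain ⟨i, j, hij, h⟩ := hprop
    exact kill2 hm (z := fun i => aa (P i)) (fun l => aa_ZW ha hb (hP l)) hij rfl rfl
      (H25.V1.fib ha hb hD huv hu hv (hP i) (hP j) h)
  · have hne : ∀ i j, (P i).t0 * (P j).t1 = (P i).t1 * (P j).t0 → i = j := by
      intro i j h
      by_contra hij
      exact hprop ⟨i, j, hij, h⟩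
    -- normalised coordinates
    let P' : Fin M → Pt K := fun i => if (P i).t0 = 0 then P i else (P i).smul (P i).t0⁻¹
    have hP'1 : ∀ i, (P i).t0 ≠ 0 → P' i = (P i).smul (P i).t0⁻¹ := fun i hi => if_neg hi
    have hP'W : ∀ i, OnW a b (P' i) := by
      intro i
      by_cases hi : (P i).t0 = 0
      · show OnW a b (if (P i).t0 = 0 then P i else (P i).smul (P i).t0⁻¹)
        rw [if_pos hi]
        exact hP i
      · rw [hP'1 i hi]
        exact cu_OnW_smul ha hb (hP i) (inv_ne_zero hi)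
    have hdiff : ∀ i, aa (P' i) - aa (P i) ∈ RatEq1 a b := by
      intro i
      by_cases hi : (P i).t0 = 0
      · have h1 : P' i = P i := if_pos hi
        rw [h1, sub_self]
        exact AddSubgroup.zero_mem _
      · rw [hP'1 i hi]
        exact aa_prp ha hb (hP i) (inv_ne_zero hi)
    refine cu_repl ha hb hm hP hP'W hdiff ?_
    have ht0 : ∀ i, (P i).t0 ≠ 0 → (P' i).t0 = 1 := by
      intro i hi
      rw [hP'1 i hi]
      exact inv_mul_cancel₀ hi
    have ht1 : ∀ i, (P i).t0 ≠ 0 → (P' i).t1 = (P i).t0⁻¹ * (P i).t1 := by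
      intro i hi
      rw [hP'1 i hi]
      rfl
    have heq : ∀ i j, (P i).t0 ≠ 0 → (P j).t0 ≠ 0 → (P' i).t1 = (P' j).t1 → i = j := by
      intro i j hi hj h
      rw [ht1 i hi, ht1 j hj] at h
      apply hne
      field_simp at h
      linear_combination -h
    have hG' : ∀ i, (P i).t0 ≠ 0 → evG G (P' i) = 0 := by
      intro i hi
      rw [hP'1 i hi, evG_smul hG, hPG, mul_zero]
    -- the factors
    obtain ⟨gb, hgb0, hgbB, hgb⟩ := nrm ha hb hG hG0
    rw [← hB] at hgbB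
    obtain ⟨s, hs1, hs2, hs3⟩ := fac hgb0 hgbB
    have hex : ∀ i : Fin M, ∃ g : K[X][X], (P i).t0 ≠ 0 → (g ∈ s ∧ evalEval (P' i).t1 (P' i).x g = 0) := by
      intro i
      by_cases hi : (P i).t0 = 0
      · exact ⟨0, fun h => absurd hi h⟩
      · have h1 : P' i = ⟨1, (P' i).t1, (P' i).x, (P' i).y⟩ := by
          rw [← ht0 i hi]
        have h2 := hgb (P' i).t1 (P' i).x (P' i).y (by rw [← h1]; exact hP'W i)
          (by rw [← h1]; exact hG' i hi)
        obtain ⟨g, hg, hg0⟩ := hs3 _ _ h2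
        exact ⟨g, fun _ => ⟨hg, hg0⟩⟩
    choose f hf using hex
    let S : Finset (Fin M) := Finset.univ.filter (fun i => (P i).t0 ≠ 0)
    have hScard : E * (D + 1) < S.card := by
      have h1 : (Finset.univ.filter (fun i : Fin M => ¬ (P i).t0 ≠ 0)).card ≤ 1 := by
        rw [Finset.card_le_one]
        intro i hi j hj
        rw [Finset.mem_filter, not_not] at hi hj
        apply hne
        rw [hi.2, hj.2, zero_mul, mul_zero]
      have h2 := Finset.card_filter_add_card_filter_not (s := (Finset.univ : Finset (Fin M)))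
        (fun i => (P i).t0 ≠ 0)
      rw [Finset.card_univ, Fintype.card_fin] at h2
      have h3 : S.card = (Finset.univ.filter (fun i : Fin M => (P i).t0 ≠ 0)).card := rfl
      omega
    rw [← hE] at hs1 hs2
    have hcard : s.toFinset.card ≤ E := (Multiset.toFinset_card_le s).trans hs1
    obtain ⟨g, hgs, hgc⟩ := Finset.exists_lt_card_fiber_of_mul_lt_card_of_maps_to (s := S)
      (t := s.toFinset) (f := f) (n := D + 1) (fun i hi => by
        rw [Multiset.mem_toFinset]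
        exact (hf i (Finset.mem_filter.1 hi).2).1)
      (lt_of_le_of_lt (Nat.mul_le_mul_right _ hcard) hScard)
    rw [Multiset.mem_toFinset] at hgs
    set I : Finset (Fin M) := S.filter (fun i => f i = g) with hI
    have hIt : ∀ i ∈ I, (P i).t0 ≠ 0 := by
      intro i hi
      exact (Finset.mem_filter.1 (Finset.mem_filter.1 hi).1).2
    have hIg : ∀ i ∈ I, evalEval (P' i).t1 (P' i).x g = 0 := by
      intro i hi
      have h1 := (hf i (hIt i hi)).2
      rw [(Finset.mem_filter.1 hi).2] at h1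
      exact h1
    have hd : 0 < g.natDegree := by
      rw [Nat.pos_iff_ne_zero]
      intro h0
      obtain ⟨i, hi, j, hj, hij⟩ := Finset.one_lt_card.1 (lt_of_le_of_lt (Nat.le_add_left 1 D) hgc)
      exact hij (heq i j (hIt i hi) (hIt j hj) (vert (hs2 g hgs).1 h0 (hIg i hi) (hIg j hj)))
    exact cmp ha hb hD huv hu hv (hs2 g hgs).1 hd (hs2 g hgs).2 hm P' hP'W I (by rw [← hDd]; omega)
      (fun i hi => ht0 i (hIt i hi)) hIg (fun i hi j hj h => heq i j (hIt i hi) (hIt j hj) h)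

end H79.CN
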