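import Pool.Agent.H25.V1.Conj

/-! # CN.Emb : moving a function to `tt` (about 30 lines)

From `H25.V1.conj` with `β = f`: `G.map (aeval tt)` is nonzero; it has a root because its degree is not zero: otherwise `G = C g0` up to a vanishing of the coefficients (`G.map` of degree `0`: since
`aeval (tt K)` is injective (`transcendental_tt`), `G.natDegree = 0`), and then `G.eval₂ (aeval f) f = aeval f g0 = 0`, `g0 = 0` (`trans`), `G = 0`: contradiction. -/

namespace H79.CN

open H68.BB H25.KP H25.V1 Polynomial

variable {K : Type} [Field K]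

theorem exists_emb [IsAlgClosed K] {f : Om K} (hf : ∀ c : K, f ≠ algebraMap K (Om K) c) :
    ∃ κ : Om K →ₐ[K] Om K, κ f = tt K := by
  have hftr : Transcendental K f := trans hf
  have heti : Function.Injective (aeval (tt K) : K[X] →ₐ[K] Om K).toRingHom :=
    transcendental_iff_injective.mp transcendental_tt
  obtain ⟨G, -, hGt, hGf, hroots, -⟩ := conj hf f
  by_cases hdeg : (G.map (aeval (tt K) : K[X] →ₐ[K] Om K).toRingHom).degree = 0
  · exfalso
    have h1 : G.natDegree = 0 := by
      rw [← natDegree_map_eq_of_injective heti G]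
      exact natDegree_eq_of_degree_eq_some hdeg
    rw [eq_C_of_natDegree_eq_zero h1, eval₂_C] at hGf
    have h2 : G.coeff 0 = 0 := by
      have h3 : (aeval f : K[X] →ₐ[K] Om K) (G.coeff 0) = 0 := hGf
      exact (transcendental_iff.mp hftr) _ h3
    apply hGt
    rw [eq_C_of_natDegree_eq_zero h1, h2, C_0, Polynomial.map_zero]
  · obtain ⟨ρ, hρ⟩ := IsAlgClosed.exists_root _ hdeg
    obtain ⟨τ, hτ, -⟩ := hroots ρ hρ
    exact ⟨τ, hτ⟩

end H79.CN
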