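import Pool.Agent.H79.CN.RR
import Pool.Agent.H25.V1.Fact1

/-! # CN.Hom : weighted homogeneous polynomials at the points `(1 : t : x : y)` (about 80 lines)

`evG_smul`: weighted homogeneity (`MvPolynomial.IsWeightedHomogeneous`, induction over the support or `MvPolynomial.aeval_def`, `eval₂_eq'`).  `a1 = aeval ![1, X] a`, `b1 = aeval ![1, X] b`: degrees `≤ 8`, `≤ 12`
(`a`, `b` homogeneous: every monomial contributes `c * 1^i * X^j`, `j ≤ 8`). `onW_fpol`: unfold, `dh_ev`. -/

namespace H79.CN

open H68.BB H25.KP H25.V1 Polynomial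

variable {K : Type} [Field K] {a b : MvPolynomial (Fin 2) K}

/-- the value of a polynomial in the four coordinates -/
noncomputable def evG {F : Type} [Field F] [Algebra K F] (G : MvPolynomial (Fin 4) K) (P : Pt F) : F :=
  MvPolynomial.aeval ![P.t0, P.t1, P.x, P.y] G

/-- the weights of the coordinates -/
def wts : Fin 4 → ℕ := ![1, 1, 4, 6]

/-- dehomogenisation of a binary form -/
noncomputable def dh (a : MvPolynomial (Fin 2) K) : K[X] := MvPolynomial.aeval ![(1 : K[X]), X] a

theorem evG_smul {F : Type} [Field F] [Algebra K F] {G : MvPolynomial (Fin 4) K} {e : ℕ}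
    (hG : MvPolynomial.IsWeightedHomogeneous wts G e) (c : F) (P : Pt F) : evG G (P.smul c) = c ^ e * evG G P := by
  unfold evG
  rw [MvPolynomial.aeval_def, MvPolynomial.aeval_def, MvPolynomial.eval₂_eq', MvPolynomial.eval₂_eq',
    Finset.mul_sum]
  refine Finset.sum_congr rfl fun d hd => ?_
  have h1 : d 0 + d 1 + 4 * d 2 + 6 * d 3 = e := by
    have h2 := hG (MvPolynomial.mem_support_iff.1 hd)
    rw [← h2, Finsupp.weight_apply, Finsupp.sum_fintype _ _ (fun i => by simp), Fin.sum_univ_four]
    simp only [wts, smul_eq_mul, Matrix.cons_val_zero, Matrix.cons_val_one, Matrix.cons_val]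
    ring
  rw [Fin.prod_univ_four, Fin.prod_univ_four, ← h1]
  simp only [Pt.smul, Matrix.cons_val_zero, Matrix.cons_val_one, Matrix.cons_val]
  ring

theorem dh_ev {F : Type} [Field F] [Algebra K F] (a : MvPolynomial (Fin 2) K) (t : F) : ev a 1 t = aeval t (dh a) := by
  unfold ev dh
  rw [← AlgHom.comp_apply, MvPolynomial.comp_aeval]
  refine congrArg (fun v => MvPolynomial.aeval v a) ?_
  funext i
  fin_cases i
  · simp
  · simp

theorem dh_deg {n : ℕ} (ha : a.IsHomogeneous n) : (dh a).natDegree ≤ n := by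
  unfold dh
  rw [MvPolynomial.aeval_def, MvPolynomial.eval₂_eq']
  refine natDegree_sum_le_of_forall_le _ _ fun d hd => ?_
  have h1 : d 0 + d 1 = n := by
    have h2 := ha (MvPolynomial.mem_support_iff.1 hd)
    rw [← h2]
    simp [Finsupp.weight_apply, Finsupp.sum_fintype, Fin.sum_univ_two]
  rw [Fin.prod_univ_two]
  simp only [Matrix.cons_val_zero, Matrix.cons_val_one, one_pow, one_mul]
  refine (natDegree_C_mul_X_pow_le (MvPolynomial.coeff d a) (d 1)).trans ?_
  omega

/-- the equation of `W` in terms of `fpol` -/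
theorem onW_fpol {F : Type} [Field F] [Algebra K F] {t x y : F} :
    OnW a b (⟨1, t, x, y⟩ : Pt F) ↔ y ^ 2 = aevalAeval t x (fpol (dh a) (dh b)) := by
  have h1 : aevalAeval t x (fpol (dh a) (dh b)) = x ^ 3 + ev a 1 t * x + ev b 1 t := by
    unfold fpol
    rw [map_add, map_add, map_mul, map_pow, aevalAeval_C, aevalAeval_C, aevalAeval_Y, dh_ev, dh_ev]
  rw [h1]
  exact ⟨fun h => h.2, fun h => ⟨Or.inl one_ne_zero, h⟩⟩

end H79.CN
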