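import Pool.Agent.H79.CN.RR
import Pool.Agent.H25.V1.SpU

/-! # CN.LimR : limits of a point with coordinates in `κ(RR)` (about 100 lines)

`Sp_exists`, `Sp_onW`: a limit `P` with scalar `c`.  If `P.t0 ≠ 0`: `c = c * 1` reduces to `P.t0 ≠ 0`, so `c⁻¹` is integral and reduces to `P.t0⁻¹` (`Rd.inv`), hence the three coordinates
`κ tR = c⁻¹ (c κ tR)`, `κ xR = c⁻⁴ (c⁴ κ xR)`, `κ yR` are integral, so `κ r ∈ π.V` for all `r` (`Algebra.adjoin_induction` on `r.2`), and `χ r := π.φ ⟨κ r, _⟩` is an algebra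
homomorphism (constants: `π.const`); `P = (pK χ).smul P.t0` by `Rd.unique`. -/

namespace H79.CN

open H68.BB H25.KP H25.V1 Polynomial

variable {K : Type} [Field K] {a b : MvPolynomial (Fin 2) K} {τ ξ υ : Om K}

/-- the point with coordinates in a field given by a homomorphism of the coordinate ring -/
noncomputable def pF {F : Type} [Field F] [Algebra K F] (χ : RR K τ ξ υ →ₐ[K] F) : Pt F :=
  ⟨1, χ (tR K τ ξ υ), χ (xR K τ ξ υ), χ (yR K τ ξ υ)⟩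

private theorem hom_aeval {A B : Type} [CommRing A] [CommRing B] [Algebra K A] [Algebra K B]
    (f : A →ₐ[K] B) (x : A) (c : MvPolynomial (Fin 2) K) :
    f (MvPolynomial.aeval ![1, x] c) = MvPolynomial.aeval ![1, f x] c := by
  rw [MvPolynomial.comp_aeval_apply]
  congr 2
  funext i
  fin_cases i
  · show f 1 = 1
    exact map_one f
  · rfl

theorem ev_hom {F : Type} [Field F] [Algebra K F] (χ : RR K τ ξ υ →ₐ[K] F) (c : MvPolynomial (Fin 2) K)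
    (z : RR K τ ξ υ) (h : (z : Om K) = ev c 1 τ) : χ z = ev c 1 (χ (tR K τ ξ υ)) := by
  have h1 : z = MvPolynomial.aeval ![1, tR K τ ξ υ] c := by
    apply Subtype.ext
    rw [h]
    exact (hom_aeval (RR K τ ξ υ).val (tR K τ ξ υ) c).symm
  rw [h1]
  exact hom_aeval χ (tR K τ ξ υ) c

/-- the points of the curve lie on `W` -/
theorem pF_onW {F : Type} [Field F] [Algebra K F] (hs : OnW a b (⟨1, τ, ξ, υ⟩ : Pt (Om K)))
    (χ : RR K τ ξ υ →ₐ[K] F) : OnW a b (pF χ) := by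
  refine ⟨Or.inl one_ne_zero, ?_⟩
  have hA : ((MvPolynomial.aeval ![1, tR K τ ξ υ] a : RR K τ ξ υ) : Om K) = ev a 1 τ :=
    hom_aeval (RR K τ ξ υ).val (tR K τ ξ υ) a
  have hB : ((MvPolynomial.aeval ![1, tR K τ ξ υ] b : RR K τ ξ υ) : Om K) = ev b 1 τ :=
    hom_aeval (RR K τ ξ υ).val (tR K τ ξ υ) b
  have h1 : yR K τ ξ υ ^ 2 = xR K τ ξ υ ^ 3 + MvPolynomial.aeval ![1, tR K τ ξ υ] a * xR K τ ξ υ
      + MvPolynomial.aeval ![1, tR K τ ξ υ] b := by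
    apply Subtype.ext
    show υ ^ 2 = ξ ^ 3 + ((MvPolynomial.aeval ![1, tR K τ ξ υ] a : RR K τ ξ υ) : Om K) * ξ
      + ((MvPolynomial.aeval ![1, tR K τ ξ υ] b : RR K τ ξ υ) : Om K)
    rw [hA, hB]
    exact hs.2
  have h2 := congrArg χ h1
  rw [map_pow, map_add, map_add, map_mul, map_pow, hom_aeval, hom_aeval] at h2
  exact h2

theorem lim_exists [IsAlgClosed K] (ha : a.IsHomogeneous 8) (hb : b.IsHomogeneous 12)
    (hs : OnW a b (⟨1, τ, ξ, υ⟩ : Pt (Om K))) (κ : RR K τ ξ υ →ₐ[K] Om K) (π : Place K (Om K)) :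
    ∃ P : Pt K, Sp π (pF κ) P ∧ OnW a b P ∧ (P.t0 = 0 ∨
      ∃ χ : RR K τ ξ υ →ₐ[K] K, (∀ r, Rd π.V π.φ (κ r) (χ r)) ∧ Prp (pF χ) P) := by
  obtain ⟨P, hP⟩ := Sp_exists π (P := pF κ) (Or.inl one_ne_zero)
  refine ⟨P, hP, Sp_onW ha hb (pF_onW hs κ) hP, ?_⟩
  by_cases ht : P.t0 = 0
  · exact Or.inl ht
  refine Or.inr ?_
  have hloc : IsLocalHom π.φ := Place.isLocal π
  obtain ⟨-, c, hc, h0, h1, h2, h3⟩ := hP
  have hc1 : Rd π.V π.φ c P.t0 := by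
    have e : c * (pF κ).t0 = c := mul_one c
    rw [e] at h0
    exact h0
  have hi : Rd π.V π.φ c⁻¹ P.t0⁻¹ := hc1.inv ht
  have k1 : Rd π.V π.φ (κ (tR K τ ξ υ)) (P.t0⁻¹ * P.t1) := by
    have e : κ (tR K τ ξ υ) = c⁻¹ * (c * (pF κ).t1) := (inv_mul_cancel_left₀ hc _).symm
    rw [e]
    exact hi.mul h1
  have k2 : Rd π.V π.φ (κ (xR K τ ξ υ)) (P.t0⁻¹ ^ 4 * P.x) := by
    have e : κ (xR K τ ξ υ) = c⁻¹ ^ 4 * (c ^ 4 * (pF κ).x) := by
      rw [inv_pow]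
      exact (inv_mul_cancel_left₀ (pow_ne_zero 4 hc) _).symm
    rw [e]
    exact (hi.pow 4).mul h2
  have k3 : Rd π.V π.φ (κ (yR K τ ξ υ)) (P.t0⁻¹ ^ 6 * P.y) := by
    have e : κ (yR K τ ξ υ) = c⁻¹ ^ 6 * (c ^ 6 * (pF κ).y) := by
      rw [inv_pow]
      exact (inv_mul_cancel_left₀ (pow_ne_zero 6 hc) _).symm
    rw [e]
    exact (hi.pow 6).mul h3
  have hV : ∀ r : RR K τ ξ υ, κ r ∈ π.V := by
    rintro ⟨r, hr⟩
    refine Algebra.adjoin_induction (p := fun x hx => κ (⟨x, hx⟩ : RR K τ ξ υ) ∈ π.V)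
      ?_ ?_ ?_ ?_ hr
    · intro x hx
      rcases hx with rfl | rfl | rfl
      · exact k1.mem
      · exact k2.mem
      · exact k3.mem
    · intro d
      have e : κ (⟨algebraMap K (Om K) d, (RR K τ ξ υ).algebraMap_mem d⟩ : RR K τ ξ υ)
          = algebraMap K (Om K) d := κ.commutes d
      show κ (⟨algebraMap K (Om K) d, (RR K τ ξ υ).algebraMap_mem d⟩ : RR K τ ξ υ) ∈ π.V
      rw [e]
      exact (rd_cst π d).mem
    · intro x y hx hy h4 h5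
      have e : κ (⟨x + y, (RR K τ ξ υ).add_mem hx hy⟩ : RR K τ ξ υ)
          = κ (⟨x, hx⟩ : RR K τ ξ υ) + κ (⟨y, hy⟩ : RR K τ ξ υ) :=
        map_add κ (⟨x, hx⟩ : RR K τ ξ υ) ⟨y, hy⟩
      show κ (⟨x + y, (RR K τ ξ υ).add_mem hx hy⟩ : RR K τ ξ υ) ∈ π.V
      rw [e]
      exact π.V.add_mem _ _ h4 h5
    · intro x y hx hy h4 h5
      have e : κ (⟨x * y, (RR K τ ξ υ).mul_mem hx hy⟩ : RR K τ ξ υ)
          = κ (⟨x, hx⟩ : RR K τ ξ υ) * κ (⟨y, hy⟩ : RR K τ ξ υ) :=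
        map_mul κ (⟨x, hx⟩ : RR K τ ξ υ) ⟨y, hy⟩
      show κ (⟨x * y, (RR K τ ξ υ).mul_mem hx hy⟩ : RR K τ ξ υ) ∈ π.V
      rw [e]
      exact π.V.mul_mem _ _ h4 h5
  let χ0 : RR K τ ξ υ →+* K :=
    π.φ.comp ((κ : RR K τ ξ υ →+* Om K).codRestrict π.V hV)
  have hχ0 : ∀ r, Rd π.V π.φ (κ r) (χ0 r) := fun r => ⟨hV r, rfl⟩
  let χ : RR K τ ξ υ →ₐ[K] K :=
    { χ0 with
      commutes' := by
        intro d
        show χ0 (algebraMap K (RR K τ ξ υ) d) = algebraMap K K d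
        have e := hχ0 (algebraMap K (RR K τ ξ υ) d)
        rw [κ.commutes d] at e
        exact e.unique (rd_cst π d) }
  have hχ : ∀ r, Rd π.V π.φ (κ r) (χ r) := hχ0
  refine ⟨χ, hχ, P.t0, ht, ?_⟩
  ext
  · show P.t0 = P.t0 * 1
    rw [mul_one]
  · show P.t1 = P.t0 * χ (tR K τ ξ υ)
    rw [(hχ _).unique k1, mul_inv_cancel_left₀ ht]
  · show P.x = P.t0 ^ 4 * χ (xR K τ ξ υ)
    rw [(hχ _).unique k2, inv_pow, mul_inv_cancel_left₀ (pow_ne_zero 4 ht)]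
  · show P.y = P.t0 ^ 6 * χ (yR K τ ξ υ)
    rw [(hχ _).unique k3, inv_pow, mul_inv_cancel_left₀ (pow_ne_zero 6 ht)]

/-- a homomorphism to which `κ` reduces is a limit -/
theorem lim_of_hom {κ : RR K τ ξ υ →ₐ[K] Om K} {π : Place K (Om K)} {χ : RR K τ ξ υ →ₐ[K] K}
    (h : ∀ r, Rd π.V π.φ (κ r) (χ r)) : Sp π (pF κ) (pF χ) :=
  Sp_one (h (tR K τ ξ υ)) (h (xR K τ ξ υ)) (h (yR K τ ξ υ))

end H79.CN
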