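import Pool.Agent.H79.CN.CombU
import Pool.Agent.H25.V1.Mult

/-! # CN.MainU : exterior products of zero-cycles of degree zero on curves of degree `e`, uniform version (about 80 lines)

`exists_mul`.  `mul z` for `z i` of degree zero with support in `X = {P on W, G P = 0}`: `z i = ∑ z i P • aa P` is in the closure of `{aa P | P ∈ X}`; `multi_ind` for the composite of `mul` with the
quotient map `CycM K M → CycM K M ⧸ TM a b M`. -/

namespace H79.CN

open H68.BB H25.KP H25.V1 Polynomial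

/-- a zero-cycle of degree zero is in the span of the `P - o` -/
private theorem mu_span {K : Type} [Field K] {X : Set (Pt K)} {z : Cyc1 K} (hz : deg z = 0)
    (h : ∀ P ∈ z.support, P ∈ X) : z ∈ AddSubgroup.closure {w : Cyc1 K | ∃ P ∈ X, w = aa P} := by
  classical
  have h1 : z = ∑ P ∈ z.support, z P • aa P := by
    have h2 : ∑ P ∈ z.support, z P • aa P =
        (∑ P ∈ z.support, (Finsupp.single P (z P) : Cyc1 K)) - (∑ P ∈ z.support, z P) • Finsupp.single (o K) 1 := by
      rw [Finset.sum_smul, ← Finset.sum_sub_distrib]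
      refine Finset.sum_congr rfl fun P _ => ?_
      rw [aa, smul_sub, Finsupp.smul_single, smul_eq_mul, mul_one]
    have h3 : (∑ P ∈ z.support, z P) = 0 := hz
    have h4 : (∑ P ∈ z.support, (Finsupp.single P (z P) : Cyc1 K)) = z := Finsupp.sum_single z
    rw [h2, h3, h4, zero_smul, sub_zero]
  rw [h1]
  refine AddSubgroup.sum_mem _ fun P hP => AddSubgroup.zsmul_mem _ (AddSubgroup.subset_closure ?_) _
  exact ⟨P, h P hP, rfl⟩

theorem mainU (e : ℕ) : ∃ M : ℕ, 0 < M ∧ ∀ (K : Type) [Field K] [IsAlgClosed K] [NZ6 K]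
    (a b : MvPolynomial (Fin 2) K) (_ : a.IsHomogeneous 8) (_ : b.IsHomogeneous 12) (_ : disc a b ≠ 0)
    (u0 u1 v0 v1 : K) (_ : u0 * v1 ≠ u1 * v0) (_ : ev (disc a b) u0 u1 = 0) (_ : ev (disc a b) v0 v1 = 0)
    (G : MvPolynomial (Fin 4) K) (_ : MvPolynomial.IsWeightedHomogeneous wts G e)
    (_ : ∃ P : Pt K, OnW a b P ∧ P.t0 ≠ 0 ∧ evG G P ≠ 0) (z : Fin M → Cyc1 K) (_ : ∀ i, deg (z i) = 0)
    (_ : ∀ i, ∀ P ∈ (z i).support, OnW a b P ∧ evG G P = 0),
    ∃ N : ℕ, 0 < N ∧ N • prodM z ∈ RatEqM a b M := by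
  classical
  obtain ⟨m, hm, hcomb⟩ := combU e
  refine ⟨m, hm, ?_⟩
  intro K _ _ _ a b ha hb hD u0 u1 v0 v1 huv hu hv G hG hG0 z hz hsupp
  obtain ⟨mul, hmul, hpr⟩ := exists_mul K m
  have key : mul z ∈ TM a b m := by
    let q : CycM K m →ₗ[ℤ] (CycM K m ⧸ TM a b m) := (QuotientAddGroup.mk' (TM a b m)).toIntLinearMap
    let M : MultilinearMap ℤ (fun _ : Fin m => Cyc1 K) (CycM K m ⧸ TM a b m) :=
      q.compMultilinearMap mul
    have hM : ∀ z, M z = ((mul z : CycM K m) : CycM K m ⧸ TM a b m) := fun z => rfl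
    have h0 := multi_ind M (fun _ => {w : Cyc1 K | ∃ P ∈ {P : Pt K | OnW a b P ∧ evG G P = 0}, w = aa P}) ?_ z
      (fun j => mu_span (hz j) (hsupp j))
    · rw [hM, QuotientAddGroup.eq_zero_iff] at h0
      exact h0
    · intro y hy
      choose P hP hyP using hy
      have hy' : y = fun i => aa (P i) := funext hyP
      rw [hM, QuotientAddGroup.eq_zero_iff, hy']
      exact hcomb K a b ha hb hD u0 u1 v0 v1 huv hu hv G hG hG0 mul hpr P (fun i => (hP i).1)
        (fun i => (hP i).2)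
  rw [hmul] at key
  exact key

end H79.CN
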