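import Pool.Agent.H25.V1.One

/-! # CN.Orb : the orbit of a point over `Om K` (about 60 lines)

The set of the `s.map σ` is finite: the coordinates are algebraic over `RatFunc K`, `σ z` is a root of `minpoly (RatFunc K) z`; `S` = the underlying multiset (`Finset.val`) of
the finite set; `s ↦ s.map σ` is an injective map of it to itself, so onto (`Finset.image`, `Finset.eq_of_subset_of_card_le`), `Multiset.map` of an injective map on `Finset.val`. -/

namespace H79.CN

open H68.BB H25.KP Polynomial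

variable {K : Type} [Field K]

private theorem map_map' (σ τ : Om K ≃ₐ[RatFunc K] Om K) (s : Pt (Om K)) :
    (s.map τ).map σ = s.map (τ.trans σ) := rfl

private theorem map_inj (σ : Om K ≃ₐ[RatFunc K] Om K) :
    Function.Injective fun s : Pt (Om K) => s.map σ := by
  intro P Q h
  have h0 : σ P.t0 = σ Q.t0 := congrArg Pt.t0 h
  have h1 : σ P.t1 = σ Q.t1 := congrArg Pt.t1 h
  have h2 : σ P.x = σ Q.x := congrArg Pt.x h
  have h3 : σ P.y = σ Q.y := congrArg Pt.y h
  exact Pt.ext (σ.injective h0) (σ.injective h1) (σ.injective h2) (σ.injective h3)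

private theorem mem_rt (z : Om K) (σ : Om K ≃ₐ[RatFunc K] Om K) :
    σ z ∈ (minpoly (RatFunc K) z).rootSet (Om K) := by
  have hi : IsIntegral (RatFunc K) z := Algebra.IsIntegral.isIntegral z
  rw [mem_rootSet]
  refine ⟨minpoly.ne_zero hi, ?_⟩
  have h := aeval_algHom_apply (σ : Om K →ₐ[RatFunc K] Om K) z (minpoly (RatFunc K) z)
  rw [minpoly.aeval, map_zero] at h
  exact h

private theorem orb_fin (s : Pt (Om K)) :
    (Set.range fun σ : Om K ≃ₐ[RatFunc K] Om K => s.map σ).Finite := by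
  have hf : ∀ z : Om K, ((minpoly (RatFunc K) z).rootSet (Om K)).Finite := fun z =>
    rootSet_finite _ _
  have hp := ((hf s.t0).prod ((hf s.t1).prod ((hf s.x).prod (hf s.y)))).image
    (fun q : Om K × Om K × Om K × Om K => (⟨q.1, q.2.1, q.2.2.1, q.2.2.2⟩ : Pt (Om K)))
  refine hp.subset ?_
  rintro _ ⟨σ, rfl⟩
  exact ⟨(σ s.t0, σ s.t1, σ s.x, σ s.y),
    ⟨mem_rt _ σ, mem_rt _ σ, mem_rt _ σ, mem_rt _ σ⟩, rfl⟩

theorem orb (s : Pt (Om K)) : ∃ S : Multiset (Pt (Om K)), s ∈ S ∧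
    (∀ σ : Om K ≃ₐ[RatFunc K] Om K, S.map (fun s => s.map σ) = S) ∧
    ∀ s' ∈ S, ∃ σ : Om K ≃ₐ[RatFunc K] Om K, s' = s.map σ := by
  classical
  refine ⟨(orb_fin s).toFinset.val, ?_, ?_, ?_⟩
  · rw [Finset.mem_val, Set.Finite.mem_toFinset]
    exact ⟨AlgEquiv.refl, rfl⟩
  · intro σ
    rw [← Finset.image_val_of_injOn (map_inj σ).injOn]
    congr 1
    ext P
    rw [Finset.mem_image, Set.Finite.mem_toFinset]
    constructor
    · rintro ⟨Q, hQ, rfl⟩
      rw [Set.Finite.mem_toFinset] at hQ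
      obtain ⟨τ, rfl⟩ := hQ
      exact ⟨τ.trans σ, (map_map' σ τ s).symm⟩
    · rintro ⟨τ, rfl⟩
      refine ⟨s.map (τ.trans σ.symm), ?_, ?_⟩
      · rw [Set.Finite.mem_toFinset]
        exact ⟨τ.trans σ.symm, rfl⟩
      · refine Pt.ext ?_ ?_ ?_ ?_
        · exact σ.apply_symm_apply _
        · exact σ.apply_symm_apply _
        · exact σ.apply_symm_apply _
        · exact σ.apply_symm_apply _
  · intro s' hs'
    rw [Finset.mem_val, Set.Finite.mem_toFinset] at hs'
    obtain ⟨σ, rfl⟩ := hs'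
    exact ⟨σ, rfl⟩

end H79.CN
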