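import Pool.Agent.H25.V1.One

/-! # CN.PlHom : a point of a subring of `Om K` is the restriction of a place (about 120 lines)

The proof of `place_exists` in `Pool/Agent/H68/BB/Plc.lean` with the subring `B` and the ideal `ker χ` in place of `f.range` and `I`
(`Ideal.image_subset_nonunits_valuationSubring (I : Ideal B.toSubring) ..`), `u = 0`: `tt ∈ B` reduces to `0`, so every element of the residue field is algebraic over (the image of) `K`.  For `b ∈ B`:
`b - χ b ∈ ker χ` is a nonunit, so `φ b = χ b`. -/

namespace H79.CN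

open H68.BB H25.KP Polynomial

variable {K : Type} [Field K]

private theorem plh_algMap_X (k : Type) [Field k] : algebraMap k[X] (Om k) X = tt k := by
  rw [IsScalarTower.algebraMap_apply k[X] (RatFunc k) (Om k), RatFunc.algebraMap_X]
  rfl

private theorem plh_algMap_C (k : Type) [Field k] (c : k) :
    algebraMap k[X] (Om k) (C c) = algebraMap k (Om k) c := by
  rw [IsScalarTower.algebraMap_apply k[X] (RatFunc k) (Om k), RatFunc.algebraMap_C]
  rw [IsScalarTower.algebraMap_apply k (RatFunc k) (Om k)]
  rfl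

private theorem plh_algMap_inj (k : Type) [Field k] : Function.Injective (algebraMap k[X] (Om k)) := by
  rw [IsScalarTower.algebraMap_eq k[X] (RatFunc k) (Om k)]
  exact (algebraMap (RatFunc k) (Om k)).injective.comp (RatFunc.algebraMap_injective k)

private theorem plh_mem (B : Subalgebra K (Om K)) (htt : tt K ∈ B) (p : K[X]) :
    algebraMap K[X] (Om K) p ∈ B := by
  induction p using Polynomial.induction_on' with
  | add p q hp hq => rw [map_add]; exact add_mem hp hq
  | monomial n a =>
    rw [← C_mul_X_pow_eq_monomial, map_mul, map_pow, plh_algMap_X, plh_algMap_C]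
    exact mul_mem (B.algebraMap_mem a) (pow_mem htt n)

theorem place_of_hom [IsAlgClosed K] (B : Subalgebra K (Om K)) (htt : tt K ∈ B) (χ : B →ₐ[K] K)
    (h0 : χ ⟨tt K, htt⟩ = 0) : ∃ π : Place K (Om K), ∀ b : B, Rd π.V π.φ (b : Om K) (χ b) := by
  classical
  let f : K[X] →+* Om K := algebraMap K[X] (Om K)
  have hf : Function.Injective f := plh_algMap_inj K
  let χ' : B.toSubring →+* K := χ.toRingHom
  have hχ' : ∀ b : B, χ' b = χ b := fun _ => rfl
  let I : Ideal B.toSubring := RingHom.ker χ'
  have hI : I ≠ ⊤ := RingHom.ker_ne_top χ'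
  obtain ⟨V, hBV, hIV⟩ := Ideal.image_subset_nonunits_valuationSubring I hI
  have hBmem : ∀ b : B, (b : Om K) ∈ V := fun b => hBV b.2
  have hmem : ∀ p : K[X], f p ∈ V := fun p => hBV (plh_mem B htt p)
  let fB : K[X] →+* V := f.codRestrict V.toSubring hmem
  let κ := IsLocalRing.ResidueField V
  let r : V →+* κ := IsLocalRing.residue V
  have hker : ∀ b : B, χ b = 0 → r ⟨b, hBmem b⟩ = 0 := by
    intro b hb
    change IsLocalRing.residue V _ = 0
    rw [IsLocalRing.residue_eq_zero_iff]
    have h1 : (b : Om K) ∈ (V.nonunits : Set (Om K)) := hIV ⟨b, hb, rfl⟩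
    obtain ⟨ha, h2⟩ := ValuationSubring.mem_nonunits_iff_exists_mem_maximalIdeal.mp h1
    exact h2
  have hXu : r (fB X) = 0 := by
    have h := hker ⟨tt K, htt⟩ h0
    have h1 : fB X = (⟨tt K, hBmem ⟨tt K, htt⟩⟩ : V) := Subtype.ext (plh_algMap_X K)
    rw [h1]
    exact h
  let ι : K →+* κ := (r.comp fB).comp C
  have hev : ∀ p : K[X], r (fB p) = ι (p.eval 0) := by
    intro p
    have h2 : p = X * p.divX + C (p.eval 0) := by
      conv_lhs => rw [← X_mul_divX_add p]
      rw [coeff_zero_eq_eval_zero]
    calc r (fB p) = r (fB (X * p.divX + C (p.eval 0))) := by rw [← h2]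
      _ = r (fB X) * r (fB p.divX) + r (fB (C (p.eval 0))) := by
          rw [map_add, map_mul, map_add, map_mul]
      _ = ι (p.eval 0) := by
          rw [hXu, zero_mul, zero_add]
          rfl
  have hint : ι.IsIntegral := by
    intro b'
    obtain ⟨b, rfl⟩ := IsLocalRing.residue_surjective b'
    have hb : IsAlgebraic K[X] (b : Om K) :=
      (IsFractionRing.isAlgebraic_iff K[X] (RatFunc K) (Om K)).mpr
        (Algebra.IsAlgebraic.isAlgebraic _)
    obtain ⟨G, hG, hGb⟩ := hb
    have hirr : Irreducible (C X : K[X][X]) :=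
      (Polynomial.prime_C_iff.mpr prime_X).irreducible
    obtain ⟨n, G', hnd, hGG⟩ := WfDvdMonoid.max_power_factor hG hirr
    have hG'b : aeval (b : Om K) G' = 0 := by
      rw [hGG, map_mul, map_pow, aeval_C, mul_eq_zero] at hGb
      rcases hGb with h | h
      · exfalso
        have h3 := eq_zero_of_pow_eq_zero h
        exact X_ne_zero (hf (h3.trans (map_zero f).symm))
      · exact h
    have hne : G'.map (evalRingHom 0) ≠ 0 := by
      intro h0
      apply hnd
      rw [C_dvd_iff_dvd_coeff]
      intro i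
      rw [X_dvd_iff, coeff_zero_eq_eval_zero]
      have h4 := congrArg (fun q => q.coeff i) h0
      simpa [coeff_map] using h4
    have hev2 : eval₂ (r.comp fB) (r b) G' = 0 := by
      have h5 : eval₂ fB b G' = 0 := by
        apply Subtype.val_injective
        have h6 : ((eval₂ fB b G' : V) : Om K) = eval₂ (V.subtype.comp fB) (V.subtype b) G' := by
          rw [← hom_eval₂]
          rfl
        rw [h6]
        exact hG'b
      rw [← hom_eval₂, h5, map_zero]
    have hcomp : r.comp fB = ι.comp (evalRingHom 0) :=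
      RingHom.ext fun p => hev p
    have hev3 : eval₂ ι (r b) (G'.map (evalRingHom 0)) = 0 := by
      rw [eval₂_map, ← hcomp]
      exact hev2
    let _ : Algebra K κ := ι.toAlgebra
    have halg : IsAlgebraic K (r b) := ⟨G'.map (evalRingHom 0), hne, hev3⟩
    exact halg.isIntegral
  have hbij := IsAlgClosed.ringHom_bijective_of_isIntegral ι hint
  let E : K ≃+* κ := RingEquiv.ofBijective ι hbij
  have hE : ∀ c, E.symm (ι c) = c := fun c => E.symm_apply_apply c
  have hcst : ∀ c : K, algebraMap K (Om K) c ∈ V := fun c => hBV (B.algebraMap_mem c)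
  have hrc : ∀ c : K, r ⟨algebraMap K (Om K) c, hcst c⟩ = ι c := by
    intro c
    have h7 : (⟨algebraMap K (Om K) c, hcst c⟩ : V) = fB (C c) := Subtype.ext (plh_algMap_C K c).symm
    rw [h7]
    rfl
  refine ⟨⟨V, (E.symm : κ →+* K).comp r, fun c => ⟨hcst c, ?_⟩⟩, fun b => ⟨hBmem b, ?_⟩⟩
  · change E.symm (r ⟨algebraMap K (Om K) c, _⟩) = c
    rw [hrc, hE]
  · change E.symm (r ⟨(b : Om K), _⟩) = χ b
    have h1 : χ (b - algebraMap K B (χ b)) = 0 := by
      rw [map_sub, AlgHom.commutes]
      exact sub_self _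
    have h2 := hker _ h1
    have h3 : (⟨((b - algebraMap K B (χ b) : B) : Om K), hBmem _⟩ : V)
        = ⟨(b : Om K), hBmem b⟩ - ⟨algebraMap K (Om K) (χ b), hcst _⟩ := Subtype.ext rfl
    rw [h3, map_sub, sub_eq_zero] at h2
    rw [h2, hrc, hE]

end H79.CN
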