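import Pool.Agent.H79.CN.Rank

/-! # CN.RR : the coordinate ring of a curve and its filtration (definitions and about 120 lines)

`τ, ξ, υ` in a field `F ⊇ K` with `υ^2 = ξ^3 + a1(τ) ξ + b1(τ)`, `RR = K[τ, ξ, υ]`.  `EE N` = the functions `q(τ,ξ) + υ r(τ,ξ)` with `q` of degrees `≤ N + 3n` and `r` of degrees `≤ N`.
`EE_sup`: induction (`Algebra.adjoin_induction`) with `EE_mul`, `EE_mono`, the generators and the constants are in `EE 0` (`n ≥ 1`); `EE_mul`:
`(q + υ r)(q' + υ r') = (q q' + f r r') + υ (q r' + q' r)`, `f ∈ Box (6 n + 1) 4`, `box_mul` (write `Box (N + 1 + ..) ..` appropriately, `box_mono`). -/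

namespace H79.CN

open Polynomial Module

variable {K F : Type} [Field K] [Field F] [Algebra K F]

/-- the cubic polynomial `x^3 + a1(t) x + b1(t)` -/
noncomputable def fpol (a1 b1 : K[X]) : K[X][X] := X ^ 3 + C a1 * X + C b1

/-- the coordinate ring -/
def RR (K : Type) {F : Type} [Field K] [Field F] [Algebra K F] (τ ξ υ : F) : Subalgebra K F :=
  Algebra.adjoin K {τ, ξ, υ}

variable {τ ξ υ : F}

theorem tau_mem (K : Type) {F : Type} [Field K] [Field F] [Algebra K F] (τ ξ υ : F) : τ ∈ RR K τ ξ υ :=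
  Algebra.subset_adjoin (Or.inl rfl)

theorem xi_mem (K : Type) {F : Type} [Field K] [Field F] [Algebra K F] (τ ξ υ : F) : ξ ∈ RR K τ ξ υ :=
  Algebra.subset_adjoin (Or.inr (Or.inl rfl))

theorem ups_mem (K : Type) {F : Type} [Field K] [Field F] [Algebra K F] (τ ξ υ : F) : υ ∈ RR K τ ξ υ :=
  Algebra.subset_adjoin (Or.inr (Or.inr rfl))

/-- the coordinate functions -/
def tR (K : Type) {F : Type} [Field K] [Field F] [Algebra K F] (τ ξ υ : F) : RR K τ ξ υ := ⟨τ, tau_mem K τ ξ υ⟩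
def xR (K : Type) {F : Type} [Field K] [Field F] [Algebra K F] (τ ξ υ : F) : RR K τ ξ υ := ⟨ξ, xi_mem K τ ξ υ⟩
def yR (K : Type) {F : Type} [Field K] [Field F] [Algebra K F] (τ ξ υ : F) : RR K τ ξ υ := ⟨υ, ups_mem K τ ξ υ⟩

/-- homomorphisms are determined by the coordinates -/
theorem hom_ext {B : Type} [CommRing B] [Algebra K B] {χ χ' : RR K τ ξ υ →ₐ[K] B}
    (h1 : χ (tR K τ ξ υ) = χ' (tR K τ ξ υ)) (h2 : χ (xR K τ ξ υ) = χ' (xR K τ ξ υ))
    (h3 : χ (yR K τ ξ υ) = χ' (yR K τ ξ υ)) : χ = χ' := by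
  apply AlgHom.adjoin_ext
  intro z hz
  rcases hz with rfl | rfl | rfl
  · exact h1
  · exact h2
  · exact h3

/-- the filtration -/
def EE (K : Type) {F : Type} [Field K] [Field F] [Algebra K F] (n : ℕ) (τ ξ υ : F) (N : ℕ) :
    Submodule K (RR K τ ξ υ) where
  carrier := {z | ∃ q ∈ Box K (N + 3 * n + 1) (N + 3 * n + 1), ∃ r ∈ Box K (N + 1) (N + 1),
    (z : F) = aevalAeval τ ξ q + υ * aevalAeval τ ξ r}
  add_mem' := by
    rintro x y ⟨q, hq, r, hr, h⟩ ⟨q', hq', r', hr', h'⟩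
    refine ⟨q + q', Submodule.add_mem _ hq hq', r + r', Submodule.add_mem _ hr hr', ?_⟩
    rw [Subalgebra.coe_add, h, h', map_add, map_add]
    ring
  zero_mem' := ⟨0, Submodule.zero_mem _, 0, Submodule.zero_mem _, by simp⟩
  smul_mem' := by
    rintro c x ⟨q, hq, r, hr, h⟩
    refine ⟨c • q, Submodule.smul_mem _ _ hq, c • r, Submodule.smul_mem _ _ hr, ?_⟩
    rw [Subalgebra.coe_smul, h, map_smul, map_smul, smul_add, mul_smul_comm]

theorem mem_EE {n N : ℕ} {z : RR K τ ξ υ} : z ∈ EE K n τ ξ υ N ↔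
    ∃ q ∈ Box K (N + 3 * n + 1) (N + 3 * n + 1), ∃ r ∈ Box K (N + 1) (N + 1),
      (z : F) = aevalAeval τ ξ q + υ * aevalAeval τ ξ r := Iff.rfl

theorem EE_mono (n : ℕ) : Monotone (EE K n τ ξ υ) := by
  intro N M h z hz
  obtain ⟨q, hq, r, hr, e⟩ := hz
  exact ⟨q, box_mono (by omega) (by omega) hq, r, box_mono (by omega) (by omega) hr, e⟩

theorem box_exists (q : K[X][X]) : ∃ k, q ∈ Box K (k + 1) (k + 1) :=
  ⟨max (tdeg q) q.natDegree, box_mono (by omega) (by omega) (box_self q)⟩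

theorem fpol_box {n : ℕ} {a1 b1 : K[X]} (ha : a1.natDegree ≤ 4 * n) (hb : b1.natDegree ≤ 6 * n) :
    fpol a1 b1 ∈ Box K (6 * n + 1) 4 := by
  have hx : (X : K[X][X]) ∈ Box K (0 + 1) (1 + 1) := by
    intro i j h
    rw [coeff_X]
    split_ifs with h1
    · subst h1
      have hi : i ≠ 0 := by omega
      rw [coeff_one, if_neg hi]
    · simp
  have hc : ∀ (p : K[X]) (m : ℕ), p.natDegree ≤ m → (C p : K[X][X]) ∈ Box K (m + 1) (0 + 1) := by
    intro p m hp i j h
    rw [coeff_C]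
    split_ifs with h1
    · exact coeff_eq_zero_of_natDegree_lt (by omega)
    · simp
  have h3 : (X ^ 3 : K[X][X]) ∈ Box K (6 * n + 1) 4 := by
    have h4 := box_mul hx (box_mul hx hx)
    have e : (X ^ 3 : K[X][X]) = X * (X * X) := by ring
    rw [e]
    exact box_mono (by omega) (by omega) h4
  unfold fpol
  refine Submodule.add_mem _ (Submodule.add_mem _ h3 ?_) ?_
  · exact box_mono (by omega) (by omega) (box_mul (hc a1 _ ha) hx)
  · exact box_mono (by omega) (by omega) (hc b1 _ hb)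

theorem EE_mul {n : ℕ} {a1 b1 : K[X]} (hn : 1 ≤ n) (ha : a1.natDegree ≤ 4 * n) (hb : b1.natDegree ≤ 6 * n)
    (hυ : υ ^ 2 = aevalAeval τ ξ (fpol a1 b1)) {N M : ℕ} {z w : RR K τ ξ υ} (hz : z ∈ EE K n τ ξ υ N)
    (hw : w ∈ EE K n τ ξ υ M) : z * w ∈ EE K n τ ξ υ (M + (N + 3 * n)) := by
  obtain ⟨q, hq, r, hr, hz⟩ := hz
  obtain ⟨q', hq', r', hr', hw⟩ := hw
  refine ⟨q * q' + fpol a1 b1 * (r * r'), ?_, q * r' + r * q', ?_, ?_⟩
  · refine Submodule.add_mem _ ?_ ?_
    · exact box_mono (by omega) (by omega) (box_mul hq hq')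
    · have h1 : fpol a1 b1 ∈ Box K (6 * n + 1) (3 + 1) := fpol_box ha hb
      exact box_mono (by omega) (by omega) (box_mul h1 (box_mul hr hr'))
  · refine Submodule.add_mem _ ?_ ?_
    · exact box_mono (by omega) (by omega) (box_mul hq hr')
    · exact box_mono (by omega) (by omega) (box_mul hr hq')
  · rw [Subalgebra.coe_mul, hz, hw]
    simp only [map_add, map_mul]
    rw [← hυ]
    ring

theorem EE_sup {n : ℕ} {a1 b1 : K[X]} (hn : 1 ≤ n) (ha : a1.natDegree ≤ 4 * n) (hb : b1.natDegree ≤ 6 * n)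
    (hυ : υ ^ 2 = aevalAeval τ ξ (fpol a1 b1)) (z : RR K τ ξ υ) : ∃ N, z ∈ EE K n τ ξ υ N := by
  have hC : ∀ (p : K[X]) (m : ℕ), p.natDegree ≤ m → (C p : K[X][X]) ∈ Box K (m + 1) (0 + 1) := by
    intro p m hp i j h
    rw [coeff_C]
    split_ifs with h1
    · exact coeff_eq_zero_of_natDegree_lt (by omega)
    · simp
  obtain ⟨z, hz⟩ := z
  induction hz using Algebra.adjoin_induction with
  | mem x hx =>
    rcases hx with rfl | rfl | rfl
    · refine ⟨0, C X, box_mono (by omega) (by omega) (hC X 1 natDegree_X_le), 0, Submodule.zero_mem _, ?_⟩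
      simp
    · refine ⟨0, X, ?_, 0, Submodule.zero_mem _, ?_⟩
      · intro i j h
        rw [coeff_X]
        split_ifs with h1
        · subst h1
          have hi : i ≠ 0 := by omega
          rw [coeff_one, if_neg hi]
        · simp
      · simp
    · refine ⟨0, 0, Submodule.zero_mem _, 1, ?_, ?_⟩
      · have h1 := hC 1 0 (by simp)
        rw [map_one] at h1
        exact box_mono (by omega) (by omega) h1
      · simp
  | algebraMap r =>
    refine ⟨0, C (C r), box_mono (by omega) (by omega) (hC (C r) 0 (by simp)), 0, Submodule.zero_mem _, ?_⟩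
    simp
  | add x y hx hy h1 h2 =>
    obtain ⟨N, hN⟩ := h1
    obtain ⟨M, hM⟩ := h2
    refine ⟨max N M, ?_⟩
    have h3 := Submodule.add_mem _ (EE_mono n (le_max_left N M) hN) (EE_mono n (le_max_right N M) hM)
    exact h3
  | mul x y hx hy h1 h2 =>
    obtain ⟨N, hN⟩ := h1
    obtain ⟨M, hM⟩ := h2
    exact ⟨_, EE_mul hn ha hb hυ hN hM⟩

end H79.CN
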