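import Pool.Agent.H79.CN.RR

/-! # CN.RRb : dimensions of the steps of the filtration (about 120 lines)

`EE_fin`, `EE_le`: `EE N` is the image of `(Box (N+3n+1) (N+3n+1)) × (Box (N+1) (N+1))` under a linear map; better: the images `B` of `Box (N+3n+1)`, `B'` of `Box (N+1)` under `evB τ ξ` are finite
dimensional, and the image of `EE N` in `F` is `B ⊔ υ B'`.
`EE_ge1`: `B ≤ B ⊔ υ B'`.  `EE_ge2`: `B ⊓ υ B' = ⊥` and `υ ≠ 0`.
`EE_split`: `u(τ,ξ) ≠ 0` and `u(τ,ξ) υ = w(τ,ξ)`, `u, w ∈ Box (k0+1) (k0+1)` (`box_exists`): multiplication by `u(τ,ξ)` is an injective linear map from `EE N` to the image of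
`Box (N+3n+1+k0) (N+3n+1+k0)`. -/

namespace H79.CN

open Polynomial Module

variable {K F : Type} [Field K] [Field F] [Algebra K F] {τ ξ υ : F}

theorem aev_comp_val (τ ξ υ : F) :
    (RR K τ ξ υ).val.comp (aevalAeval (R := K) (tR K τ ξ υ) (xR K τ ξ υ)) = aevalAeval (R := K) τ ξ := by
  apply (aevalAevalEquiv K F).symm.injective
  refine Prod.ext ?_ ?_
  · show (RR K τ ξ υ).val (aevalAeval (R := K) (tR K τ ξ υ) (xR K τ ξ υ) (C X)) = aevalAeval (R := K) τ ξ (C X)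
    rw [aevalAeval_X, aevalAeval_X]
    rfl
  · show (RR K τ ξ υ).val (aevalAeval (R := K) (tR K τ ξ υ) (xR K τ ξ υ) X) = aevalAeval (R := K) τ ξ X
    rw [aevalAeval_Y, aevalAeval_Y]
    rfl

theorem aev_mem (q : K[X][X]) : aevalAeval τ ξ q ∈ RR K τ ξ υ := by
  have h := DFunLike.congr_fun (aev_comp_val (K := K) τ ξ υ) q
  rw [← h]
  exact (aevalAeval (R := K) (tR K τ ξ υ) (xR K τ ξ υ) q).2

/-- the image of a box -/
noncomputable def BB (K : Type) {F : Type} [Field K] [Field F] [Algebra K F] (τ ξ : F) (k : ℕ) : Submodule K F :=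
  (Box K k k).map (evB τ ξ)

theorem BB_fin (k : ℕ) : FiniteDimensional K (BB K τ ξ k) := by
  haveI := box_fin (K := K) k k
  unfold BB
  infer_instance

/-- the image of `EE` in `F` -/
noncomputable def EF (K : Type) {F : Type} [Field K] [Field F] [Algebra K F] (n : ℕ) (τ ξ υ : F) (N : ℕ) :
    Submodule K F := (EE K n τ ξ υ N).map (RR K τ ξ υ).val.toLinearMap

noncomputable def eqEF (n N : ℕ) : EE K n τ ξ υ N ≃ₗ[K] EF K n τ ξ υ N :=
  Submodule.equivMapOfInjective (RR K τ ξ υ).val.toLinearMap Subtype.val_injective _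

theorem mem_EF {n N : ℕ} {z : F} : z ∈ EF K n τ ξ υ N ↔
    ∃ q ∈ Box K (N + 3 * n + 1) (N + 3 * n + 1), ∃ r ∈ Box K (N + 1) (N + 1),
      z = aevalAeval τ ξ q + υ * aevalAeval τ ξ r := by
  constructor
  · rintro ⟨w, ⟨q, hq, r, hr, e⟩, rfl⟩
    exact ⟨q, hq, r, hr, e⟩
  · rintro ⟨q, hq, r, hr, e⟩
    refine ⟨⟨z, ?_⟩, ⟨q, hq, r, hr, e⟩, rfl⟩
    rw [e]
    exact Subalgebra.add_mem _ (aev_mem q) (Subalgebra.mul_mem _ (ups_mem K τ ξ υ) (aev_mem r))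

theorem EF_eq (n N : ℕ) : EF K n τ ξ υ N =
    BB K τ ξ (N + 3 * n + 1) ⊔ (BB K τ ξ (N + 1)).map (LinearMap.mulLeft K υ) := by
  ext z
  rw [mem_EF, Submodule.mem_sup]
  constructor
  · rintro ⟨q, hq, r, hr, e⟩
    exact ⟨_, ⟨q, hq, rfl⟩, _, ⟨_, ⟨r, hr, rfl⟩, rfl⟩, e.symm⟩
  · rintro ⟨_, ⟨q, hq, rfl⟩, _, ⟨_, ⟨r, hr, rfl⟩, rfl⟩, e⟩
    exact ⟨q, hq, r, hr, e.symm⟩

theorem EF_fin (n N : ℕ) : FiniteDimensional K (EF K n τ ξ υ N) := by
  haveI := BB_fin (K := K) (τ := τ) (ξ := ξ) (N + 3 * n + 1)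
  haveI := BB_fin (K := K) (τ := τ) (ξ := ξ) (N + 1)
  rw [EF_eq]
  infer_instance

theorem EE_fin (n N : ℕ) : FiniteDimensional K (EE K n τ ξ υ N) := by
  haveI := EF_fin (K := K) (τ := τ) (ξ := ξ) (υ := υ) n N
  exact Module.Finite.equiv (eqEF (K := K) (τ := τ) (ξ := ξ) (υ := υ) n N).symm

theorem EE_rk (n N : ℕ) : finrank K (EE K n τ ξ υ N) = finrank K (EF K n τ ξ υ N) :=
  (eqEF (K := K) (τ := τ) (ξ := ξ) (υ := υ) n N).finrank_eq

theorem EE_le (n N : ℕ) : finrank K (EE K n τ ξ υ N) ≤ rk K τ ξ (N + 3 * n + 1) + rk K τ ξ (N + 1) := by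
  haveI := BB_fin (K := K) (τ := τ) (ξ := ξ) (N + 3 * n + 1)
  haveI := BB_fin (K := K) (τ := τ) (ξ := ξ) (N + 1)
  rw [EE_rk, EF_eq]
  refine (Submodule.finrank_add_le_finrank_add_finrank _ _).trans ?_
  exact Nat.add_le_add le_rfl (Submodule.finrank_map_le _ _)

theorem EE_ge1 (n N : ℕ) : rk K τ ξ (N + 3 * n + 1) ≤ finrank K (EE K n τ ξ υ N) := by
  haveI := EF_fin (K := K) (τ := τ) (ξ := ξ) (υ := υ) n N
  rw [EE_rk]
  refine Submodule.finrank_mono ?_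
  rw [EF_eq]
  exact le_sup_left

theorem EE_ge2 (n N : ℕ)
    (h : ∀ q r : K[X][X], aevalAeval τ ξ q + υ * aevalAeval τ ξ r = 0 → aevalAeval τ ξ r = 0) :
    rk K τ ξ (N + 3 * n + 1) + rk K τ ξ (N + 1) ≤ finrank K (EE K n τ ξ υ N) := by
  haveI := BB_fin (K := K) (τ := τ) (ξ := ξ) (N + 3 * n + 1)
  haveI := BB_fin (K := K) (τ := τ) (ξ := ξ) (N + 1)
  have hυ : υ ≠ 0 := by
    intro h0
    have h1 := h 0 1 (by rw [h0, zero_mul, map_zero, add_zero])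
    rw [map_one] at h1
    exact one_ne_zero h1
  have hinj : Function.Injective (LinearMap.mulLeft K υ) := by
    intro a b hab
    exact mul_left_cancel₀ hυ hab
  have hinf : BB K τ ξ (N + 3 * n + 1) ⊓ (BB K τ ξ (N + 1)).map (LinearMap.mulLeft K υ) = ⊥ := by
    rw [eq_bot_iff]
    rintro z ⟨⟨q, hq, e⟩, ⟨_, ⟨r, hr, rfl⟩, e'⟩⟩
    have e1 : aevalAeval τ ξ q = z := e
    have e2 : υ * aevalAeval τ ξ r = z := e'
    have h0 := h (-q) r (by rw [map_neg, e1, e2, neg_add_cancel])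
    rw [h0, mul_zero] at e2
    rw [Submodule.mem_bot, ← e2]
  have hs := Submodule.finrank_sup_add_finrank_inf_eq (BB K τ ξ (N + 3 * n + 1))
    ((BB K τ ξ (N + 1)).map (LinearMap.mulLeft K υ))
  rw [hinf, finrank_bot, add_zero] at hs
  have hm : finrank K ((BB K τ ξ (N + 1)).map (LinearMap.mulLeft K υ)) = rk K τ ξ (N + 1) :=
    (Submodule.equivMapOfInjective (LinearMap.mulLeft K υ) hinj (BB K τ ξ (N + 1))).finrank_eq.symm
  rw [EE_rk, EF_eq, hs, hm]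
  exact le_rfl

theorem EE_split {u w : K[X][X]} (hu : aevalAeval τ ξ u ≠ 0) (h : aevalAeval τ ξ u * υ = aevalAeval τ ξ w) (n : ℕ) :
    ∃ k0, ∀ N, finrank K (EE K n τ ξ υ N) ≤ rk K τ ξ (N + 3 * n + 1 + k0) := by
  obtain ⟨k1, hk1⟩ := box_exists u
  obtain ⟨k2, hk2⟩ := box_exists w
  refine ⟨k1 + k2, fun N => ?_⟩
  haveI := BB_fin (K := K) (τ := τ) (ξ := ξ) (N + 3 * n + 1 + (k1 + k2))
  have hinj : Function.Injective (LinearMap.mulLeft K (aevalAeval τ ξ u)) := by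
    intro a b hab
    exact mul_left_cancel₀ hu hab
  rw [EE_rk, (Submodule.equivMapOfInjective (LinearMap.mulLeft K (aevalAeval τ ξ u)) hinj
    (EF K n τ ξ υ N)).finrank_eq]
  refine Submodule.finrank_mono (t := BB K τ ξ (N + 3 * n + 1 + (k1 + k2))) ?_
  rintro _ ⟨z, hz, rfl⟩
  obtain ⟨q, hq, r, hr, e⟩ := mem_EF.1 hz
  refine ⟨u * q + w * r, ?_, ?_⟩
  · refine Submodule.add_mem _ ?_ ?_
    · exact box_mono (by omega) (by omega) (box_mul hk1 hq)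
    · exact box_mono (by omega) (by omega) (box_mul hk2 hr)
  · show aevalAeval τ ξ (u * q + w * r) = aevalAeval τ ξ u * z
    rw [e, map_add, map_mul, map_mul, ← h]
    ring

end H79.CN
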