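import Pool.Agent.H79.CN.Box

/-! # CN.Rank : the Hilbert function of a plane curve (about 100 lines)

`g(τ, ξ) = 0`.  `f` = the restriction of `evB τ ξ` to `Box K k k`; `finrank (range f) + finrank (ker f) = k ^ 2` (`box_finrank`), the range of `f` is the image of
`Box K k k`.  `rk_le`: if `k < tdeg g` or `k < g.natDegree` then `rk ≤ k * k ≤ k * (tdeg g + g.natDegree)`; otherwise `k = tdeg g + a = g.natDegree + b` and
`p ↦ g * p` is an injective linear map of `Box K a b` to `ker f` (`box_mul`, `box_self`), so `rk ≤ k * k - a * b`.  `rk_ge`: by `hk` and `box_dvd` every element of `ker f` is `g * p`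
with `p ∈ Box K a b`, so `finrank (ker f) ≤ a * b`. -/

namespace H79.CN

open Polynomial Module

variable {K F : Type} [Field K] [Field F] [Algebra K F]

/-- evaluation at `(τ, ξ)` -/
noncomputable def evB (τ ξ : F) : K[X][X] →ₗ[K] F := (aevalAeval τ ξ : K[X][X] →ₐ[K] F).toLinearMap

theorem evB_apply (τ ξ : F) (q : K[X][X]) : evB τ ξ q = aevalAeval τ ξ q := rfl

/-- the dimension of the space of functions -/
noncomputable def rk (K : Type) {F : Type} [Field K] [Field F] [Algebra K F] (τ ξ : F) (k : ℕ) : ℕ :=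
  finrank K ((Box K k k).map (evB τ ξ))

/-- evaluation on the box -/
private noncomputable def resB (τ ξ : F) (k : ℕ) : Box K k k →ₗ[K] F :=
  (evB τ ξ).domRestrict (Box K k k)

private theorem rk_add (τ ξ : F) (k : ℕ) :
    rk K τ ξ k + finrank K (LinearMap.ker (resB (K := K) τ ξ k)) = k * k := by
  have := box_fin (K := K) k k
  have h := LinearMap.finrank_range_add_finrank_ker (K := K) (V := Box K k k) (V₂ := F)
    (resB (K := K) τ ξ k)
  rw [box_finrank] at h
  unfold rk
  rw [← h, resB, LinearMap.range_domRestrict]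

/-- multiplication by `g` -/
private noncomputable def mulBox (g : K[X][X]) {k a b : ℕ} (ha : k = tdeg g + a)
    (hb : k = g.natDegree + b) : Box K a b →ₗ[K] Box K k k :=
  LinearMap.codRestrict (Box K k k) ((LinearMap.mulLeft K g).domRestrict (Box K a b)) (by
    rintro ⟨p, hp⟩
    change g * p ∈ Box K k k
    have h1 := box_mul (box_self g) hp
    rwa [← ha, ← hb] at h1)

private theorem mulBox_inj {g : K[X][X]} (hg : g ≠ 0) {k a b : ℕ} (ha : k = tdeg g + a)
    (hb : k = g.natDegree + b) : Function.Injective (mulBox g ha hb) := by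
  rw [injective_iff_map_eq_zero]
  rintro ⟨p, hp⟩ h
  have h1 : g * p = 0 := congrArg Subtype.val h
  rw [Submodule.mk_eq_zero]
  exact (mul_eq_zero.1 h1).resolve_left hg

private theorem sub_fin (k : ℕ) (N : Submodule K (Box K k k)) : Module.Finite K N := by
  have := box_fin (K := K) k k
  exact FiniteDimensional.finiteDimensional_submodule (K := K) (V := Box K k k) N

theorem rk_le {τ ξ : F} {g : K[X][X]} (hg : g ≠ 0) (h : aevalAeval τ ξ g = 0) (k : ℕ) :
    rk K τ ξ k ≤ k * (tdeg g + g.natDegree) := by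
  have hkk := rk_add (K := K) τ ξ k
  by_cases h1 : tdeg g ≤ k ∧ g.natDegree ≤ k
  · obtain ⟨a, ha⟩ := Nat.exists_eq_add_of_le h1.1
    obtain ⟨b, hb⟩ := Nat.exists_eq_add_of_le h1.2
    have h2 : LinearMap.range (mulBox g ha hb) ≤ LinearMap.ker (resB (K := K) τ ξ k) := by
      rintro _ ⟨p, rfl⟩
      rw [LinearMap.mem_ker]
      change aevalAeval τ ξ (g * p.1) = 0
      rw [map_mul, h, zero_mul]
    have := sub_fin k (LinearMap.ker (resB (K := K) τ ξ k))
    have h3 := Submodule.finrank_mono h2
    rw [LinearMap.finrank_range_of_inj (mulBox_inj hg ha hb), box_finrank] at h3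
    have e1 : k * k + tdeg g * g.natDegree = a * b + k * (tdeg g + g.natDegree) := by
      have e2 : (k : ℤ) = tdeg g + a := by exact_mod_cast ha
      have e3 : (k : ℤ) = g.natDegree + b := by exact_mod_cast hb
      have e4 : (a : ℤ) = k - tdeg g := by linarith
      have e5 : (b : ℤ) = k - g.natDegree := by linarith
      zify
      rw [e4, e5]
      ring
    omega
  · have h2 : k ≤ tdeg g + g.natDegree := by
      rw [not_and_or] at h1
      omega
    have h3 : k * k ≤ k * (tdeg g + g.natDegree) := Nat.mul_le_mul_left _ h2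
    omega

theorem rk_ge {τ ξ : F} {g : K[X][X]} (hg : g ≠ 0) (h : ∀ q : K[X][X], aevalAeval τ ξ q = 0 → g ∣ q) {k : ℕ}
    (h1 : tdeg g ≤ k) (h2 : g.natDegree ≤ k) :
    k * (tdeg g + g.natDegree) ≤ rk K τ ξ k + tdeg g * g.natDegree := by
  have hkk := rk_add (K := K) τ ξ k
  obtain ⟨a, ha⟩ := Nat.exists_eq_add_of_le h1
  obtain ⟨b, hb⟩ := Nat.exists_eq_add_of_le h2
  have h2 : LinearMap.ker (resB (K := K) τ ξ k) ≤ LinearMap.range (mulBox g ha hb) := by
    rintro ⟨q, hq⟩ hq0
    rw [LinearMap.mem_ker] at hq0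
    change aevalAeval τ ξ q = 0 at hq0
    obtain ⟨p, rfl⟩ := h q hq0
    refine ⟨⟨p, box_dvd hg ?_⟩, rfl⟩
    rw [← ha, ← hb]
    exact hq
  have := sub_fin k (LinearMap.range (mulBox g ha hb))
  have h3 := Submodule.finrank_mono h2
  rw [LinearMap.finrank_range_of_inj (mulBox_inj hg ha hb), box_finrank] at h3
  have e1 : k * k + tdeg g * g.natDegree = a * b + k * (tdeg g + g.natDegree) := by
    have e2 : (k : ℤ) = tdeg g + a := by exact_mod_cast ha
    have e3 : (k : ℤ) = g.natDegree + b := by exact_mod_cast hb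
    have e4 : (a : ℤ) = k - tdeg g := by linarith
    have e5 : (b : ℤ) = k - g.natDegree := by linarith
    zify
    rw [e4, e5]
    ring
  omega

end H79.CN
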