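import Pool.Agent.H79.CN.Hom

/-! # CN.Red : reduction of a form modulo the equation of `W` (about 120 lines)

`red`: the polynomials `G` for which `q, r ∈ Box (6 e + 1) (6 e + 1)` exist are closed under sums; for a monomial
`c T0^i T1^j X^k Y^l` with `i + j + 4 k + 6 l = e` take `c t^j x^k f^(l/2)` as `q` or as `r` according to the parity of `l` (`box_mul`, `fpol_box` with `n = 2`). -/

namespace H79.CN

open H68.BB H25.KP H25.V1 Polynomial

variable {K : Type} [Field K] {a b : MvPolynomial (Fin 2) K}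

private theorem box_t (c : K) (j : ℕ) : (C (C c * X ^ j) : K[X][X]) ∈ Box K (j + 1) 1 := by
  intro i k h
  rw [coeff_C]
  split_ifs with hk
  · have hi : i ≠ j := by
      rcases h with h | h
      · omega
      · omega
    rw [coeff_C_mul, coeff_X_pow, if_neg hi, mul_zero]
  · rw [coeff_zero]

private theorem box_x (k : ℕ) : (X ^ k : K[X][X]) ∈ Box K 1 (k + 1) := by
  intro i j h
  rw [coeff_X_pow]
  split_ifs with hk
  · have hi : i ≠ 0 := by
      rcases h with h | h
      · omega
      · omega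
    rw [coeff_one, if_neg hi]
  · rw [coeff_zero]

private theorem box_f {a1 b1 : K[X]} (ha : a1.natDegree ≤ 8) (hb : b1.natDegree ≤ 12) (l : ℕ) :
    fpol a1 b1 ^ l ∈ Box K (12 * l + 1) (3 * l + 1) := by
  induction l with
  | zero =>
    have h := box_x (K := K) 0
    rw [pow_zero] at h ⊢
    exact h
  | succ l ih =>
    have hf : fpol a1 b1 ∈ Box K (12 + 1) (3 + 1) :=
      fpol_box (n := 2) (by simpa using ha) (by simpa using hb)
    have h := box_mul hf ih
    rw [pow_succ']
    exact box_mono (by omega) (by omega) h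

private theorem box_all {a1 b1 : K[X]} (ha : a1.natDegree ≤ 8) (hb : b1.natDegree ≤ 12) (c : K)
    {j k l e : ℕ} (h : j + 4 * k + 6 * (2 * l) ≤ e) :
    (C (C c * X ^ j) : K[X][X]) * (X ^ k * fpol a1 b1 ^ l) ∈ Box K (6 * e + 1) (6 * e + 1) := by
  have h1 := box_mul (a := 0) (b := k) (box_x (K := K) k) (box_f ha hb l)
  have h2 := box_mul (a := j) (b := 0) (box_t c j) h1
  exact box_mono (by omega) (by omega) h2

private theorem evG_mon {F : Type} [Field F] [Algebra K F] (m : Fin 4 →₀ ℕ) (c : K) (t x y : F) :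
    evG (MvPolynomial.monomial m c) (⟨1, t, x, y⟩ : Pt F) =
      algebraMap K F c * (t ^ m 1 * (x ^ m 2 * y ^ m 3)) := by
  rw [evG, MvPolynomial.aeval_monomial, Finsupp.prod_fintype _ _ (fun i => pow_zero _),
    Fin.prod_univ_four]
  simp only [Matrix.cons_val_zero, Matrix.cons_val_one, Matrix.cons_val, one_pow, one_mul]
  ring

private theorem mon_val {F : Type} [Field F] [Algebra K F] (a1 b1 : K[X]) (c : K) (j k l : ℕ)
    (t x : F) :
    aevalAeval t x ((C (C c * X ^ j) : K[X][X]) * (X ^ k * fpol a1 b1 ^ l)) =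
      algebraMap K F c * (t ^ j * (x ^ k * aevalAeval t x (fpol a1 b1) ^ l)) := by
  have h1 : aevalAeval t x (C (C c * X ^ j) : K[X][X]) = algebraMap K F c * t ^ j := by
    rw [aevalAeval_C, map_mul, map_pow, aeval_C, aeval_X]
  have h2 : aevalAeval t x (X : K[X][X]) = x := aevalAeval_Y t x
  rw [map_mul, h1, map_mul, map_pow, map_pow, h2]
  ring

theorem red (ha : a.IsHomogeneous 8) (hb : b.IsHomogeneous 12) {G : MvPolynomial (Fin 4) K} {e : ℕ}
    (hG : MvPolynomial.IsWeightedHomogeneous wts G e) :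
    ∃ q ∈ Box K (6 * e + 1) (6 * e + 1), ∃ r ∈ Box K (6 * e + 1) (6 * e + 1),
      ∀ (F : Type) [Field F] [Algebra K F] (t x y : F), OnW a b (⟨1, t, x, y⟩ : Pt F) →
        evG G (⟨1, t, x, y⟩ : Pt F) = aevalAeval t x q + y * aevalAeval t x r := by
  have key : ∀ G' : MvPolynomial (Fin 4) K, G' = ∑ m ∈ G.support,
      MvPolynomial.monomial m (MvPolynomial.coeff m G) →
      ∃ q ∈ Box K (6 * e + 1) (6 * e + 1), ∃ r ∈ Box K (6 * e + 1) (6 * e + 1),
      ∀ (F : Type) [Field F] [Algebra K F] (t x y : F), OnW a b (⟨1, t, x, y⟩ : Pt F) →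
        evG G' (⟨1, t, x, y⟩ : Pt F) = aevalAeval t x q + y * aevalAeval t x r := by
    rintro _ rfl
    refine Finset.sum_induction _ (fun G' : MvPolynomial (Fin 4) K => ∃ q ∈ Box K (6 * e + 1) (6 * e + 1),
      ∃ r ∈ Box K (6 * e + 1) (6 * e + 1),
      ∀ (F : Type) [Field F] [Algebra K F] (t x y : F), OnW a b (⟨1, t, x, y⟩ : Pt F) →
        evG G' (⟨1, t, x, y⟩ : Pt F) = aevalAeval t x q + y * aevalAeval t x r) ?_ ?_ ?_
    · rintro G1 G2 ⟨q, hq, r, hr, h⟩ ⟨q', hq', r', hr', h'⟩
      refine ⟨q + q', Submodule.add_mem _ hq hq', r + r', Submodule.add_mem _ hr hr', ?_⟩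
      intro F _ _ t x y hW
      have e1 := h F t x y hW
      have e2 := h' F t x y hW
      have e3 : evG (G1 + G2) (⟨1, t, x, y⟩ : Pt F) =
          evG G1 (⟨1, t, x, y⟩ : Pt F) + evG G2 (⟨1, t, x, y⟩ : Pt F) := map_add _ _ _
      rw [e3, e1, e2, map_add, map_add]
      ring
    · refine ⟨0, Submodule.zero_mem _, 0, Submodule.zero_mem _, ?_⟩
      intro F _ _ t x y _
      have e3 : evG (0 : MvPolynomial (Fin 4) K) (⟨1, t, x, y⟩ : Pt F) = 0 := map_zero _
      rw [e3, map_zero, mul_zero, add_zero]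
    · intro m hm
      have hw : Finsupp.weight wts m = e := hG (MvPolynomial.mem_support_iff.1 hm)
      have hw' : m 0 + m 1 + m 2 * 4 + m 3 * 6 = e := by
        rw [← hw, Finsupp.weight_apply, Finsupp.sum_fintype m (fun i c => c • wts i) (fun i => zero_smul ℕ (wts i)),
          Fin.sum_univ_four]
        simp only [wts, smul_eq_mul, Matrix.cons_val_zero, Matrix.cons_val_one, Matrix.cons_val,
          mul_one]
      rcases Nat.even_or_odd' (m 3) with ⟨l, hl | hl⟩
      · refine ⟨_, box_all (dh_deg ha) (dh_deg hb) (MvPolynomial.coeff m G) (j := m 1) (k := m 2)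
          (l := l) (by omega), 0, Submodule.zero_mem _, ?_⟩
        intro F _ _ t x y hW
        rw [evG_mon, mon_val, map_zero, mul_zero, add_zero, hl, pow_mul, onW_fpol.1 hW]
      · refine ⟨0, Submodule.zero_mem _, _, box_all (dh_deg ha) (dh_deg hb)
          (MvPolynomial.coeff m G) (j := m 1) (k := m 2) (l := l) (by omega), ?_⟩
        intro F _ _ t x y hW
        rw [evG_mon, mon_val, map_zero, zero_add, hl, pow_succ, pow_mul, onW_fpol.1 hW]
        ring
  exact key G (MvPolynomial.support_sum_monomial_coeff G).symm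

end H79.CN
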