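import Pool.Agent.H79.CN.LimR
import Pool.Agent.H79.CN.Emb
import Pool.Agent.H79.CN.PlHom
import Pool.Agent.H79.CN.Orb
import Pool.Agent.H25.V1.Fact1
import Pool.Agent.H25.V1.Tr

/-! # CN.RelR : the relation given by a function with a given zero (about 150 lines)

`(Φ : Om K)` is not in `K` (if it were `c` then `Φ = algebraMap c`, `χ0 Φ = c = 0`, `Φ = 0`).  `κ` from `exists_emb` with `κ Φ = tt`, `s = pF (κ restricted to RR)`, `S` = its orbit (`orb`); its members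
are `pF (σ ∘ κ)` (`map_one`).  `π0` = the place of `place_of_hom` for `B = RR.map κ` (contains `tt = κ Φ`) and the homomorphism `χ0 ∘ κ⁻¹` (`κ` is injective:
`RR ≃ₐ RR.map κ`, `Subalgebra.equivMapOfInjective`), so `Rd π0 (κ r) (χ0 r)`; `π∞` from `place_inf`.
At `π0` choose the limit of every member of `S` by `lim_exists` (and `pF χ0` for `s` itself, `lim_of_hom`); at `π∞` too: there `P.t0 = 0` because otherwise `σ κ Φ = tt ∈ π∞.V`.
At `π0`: if `P.t0 ≠ 0` then `χ Φ = 0` (`σ κ Φ = tt` reduces to `0`, `Rd.unique`).  The difference of the two limit cycles is in `RatEq1`; both have `card S` members, so it is the difference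
of the sums of the `aa P`; `aa P - aa (pF χ) ∈ RatEq1` if `Prp (pF χ) P` (`aa_prp`).  `c` = the multiset of the `χ` of the members with `P.t0 ≠ 0` (or `χ0`), `w` = (sum of `aa P` over the members at
`π∞`) - (sum over the members at `π0` with `P.t0 = 0`). -/

namespace H79.CN

open H68.BB H25.KP H25.V1 Polynomial

variable {K : Type} [Field K] {a b : MvPolynomial (Fin 2) K} {τ ξ υ : Om K}

/-- the cycles over `t0 = 0` -/
private noncomputable def WW (a b : MvPolynomial (Fin 2) K) : AddSubgroup (Cyc1 K) :=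
  AddSubgroup.closure {z | ∃ P : Pt K, OnW a b P ∧ P.t0 = 0 ∧ z = aa P}

private theorem at_zero [IsAlgClosed K] [NZ6 K] (ha : a.IsHomogeneous 8) (hb : b.IsHomogeneous 12)
    (hs : OnW a b (⟨1, τ, ξ, υ⟩ : Pt (Om K))) {Φ : RR K τ ξ υ} (π : Place K (Om K))
    (S : Multiset (Pt (Om K)))
    (h : ∀ s ∈ S, ∃ P : Pt K, Sp π s P ∧ OnW a b P ∧
      (P.t0 = 0 ∨ ∃ χ : RR K τ ξ υ →ₐ[K] K, χ Φ = 0 ∧ Prp (pF χ) P)) :
    ∃ (c0 : Multiset (Pt K)) (c : Multiset (RR K τ ξ υ →ₐ[K] K)) (w : Cyc1 K),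
      Multiset.Rel (Sp π) S c0 ∧ (∀ χ ∈ c, χ Φ = 0) ∧ w ∈ WW a b ∧
      (c.map (fun χ => aa (pF χ))).sum + w - (c0.map aa).sum ∈ RatEq1 a b := by
  induction S using Multiset.induction_on with
  | empty =>
    refine ⟨0, 0, 0, Multiset.Rel.zero, by simp, zero_mem _, ?_⟩
    simp
  | cons s S ih =>
    obtain ⟨c0, c, w, h1, h2, h3, h4⟩ := ih (fun s' hs' => h s' (Multiset.mem_cons_of_mem hs'))
    obtain ⟨P, hP, hW, h5⟩ := h s (Multiset.mem_cons_self s S)
    rcases h5 with h5 | ⟨χ, hχ, hp⟩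
    · refine ⟨P ::ₘ c0, c, w + aa P, Multiset.Rel.cons hP h1, h2,
        add_mem h3 (AddSubgroup.subset_closure ⟨P, hW, h5, rfl⟩), ?_⟩
      have e : (c.map (fun χ => aa (pF χ))).sum + (w + aa P) - ((P ::ₘ c0).map aa).sum =
          (c.map (fun χ => aa (pF χ))).sum + w - (c0.map aa).sum := by
        rw [Multiset.map_cons, Multiset.sum_cons]
        abel
      rw [e]
      exact h4
    · refine ⟨P ::ₘ c0, χ ::ₘ c, w, Multiset.Rel.cons hP h1, ?_, h3, ?_⟩
      · intro χ' hχ'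
        rcases Multiset.mem_cons.1 hχ' with rfl | h6
        · exact hχ
        · exact h2 χ' h6
      · obtain ⟨d, hd, rfl⟩ := hp
        have h7 := aa_prp ha hb (pF_onW hs χ) hd
        have e : ((χ ::ₘ c).map (fun χ => aa (pF χ))).sum + w - (((pF χ).smul d ::ₘ c0).map aa).sum =
            (c.map (fun χ => aa (pF χ))).sum + w - (c0.map aa).sum -
              (aa ((pF χ).smul d) - aa (pF χ)) := by
          rw [Multiset.map_cons, Multiset.sum_cons, Multiset.map_cons, Multiset.sum_cons]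
          abel
        rw [e]
        exact (RatEq1 a b).sub_mem h4 h7

private theorem at_inf (π : Place K (Om K)) (S : Multiset (Pt (Om K)))
    (h : ∀ s ∈ S, ∃ P : Pt K, Sp π s P ∧ OnW a b P ∧ P.t0 = 0) :
    ∃ (c0 : Multiset (Pt K)), Multiset.Rel (Sp π) S c0 ∧ (c0.map aa).sum ∈ WW a b := by
  induction S using Multiset.induction_on with
  | empty => exact ⟨0, Multiset.Rel.zero, by simp⟩
  | cons s S ih =>
    obtain ⟨c0, h1, h2⟩ := ih (fun s' hs' => h s' (Multiset.mem_cons_of_mem hs'))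
    obtain ⟨P, hP, hW, h5⟩ := h s (Multiset.mem_cons_self s S)
    refine ⟨P ::ₘ c0, Multiset.Rel.cons hP h1, ?_⟩
    rw [Multiset.map_cons, Multiset.sum_cons]
    exact add_mem (AddSubgroup.subset_closure ⟨P, hW, h5, rfl⟩) h2

private theorem sum_aa (c : Multiset (Pt K)) :
    (c.map aa).sum = (c.map (fun p => (Finsupp.single p 1 : Cyc1 K))).sum -
      c.card • (Finsupp.single (o K) 1 : Cyc1 K) := by
  induction c using Multiset.induction_on with
  | empty => simp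
  | cons p c ih =>
    rw [Multiset.map_cons, Multiset.sum_cons, ih, Multiset.map_cons, Multiset.sum_cons,
      Multiset.card_cons, succ_nsmul, aa]
    abel

private theorem rel_sum {S : Multiset (Pt (Om K))} {π π' : Place K (Om K)} {c c' : Multiset (Pt K)}
    (hW : ∀ s ∈ S, OnW a b s) (hG : ∀ σ : Om K ≃ₐ[RatFunc K] Om K, S.map (fun s => s.map σ) = S)
    (h1 : Multiset.Rel (Sp π) S c) (h2 : Multiset.Rel (Sp π') S c') :
    (c.map aa).sum - (c'.map aa).sum ∈ RatEq1 a b := by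
  have e : (c.map aa).sum - (c'.map aa).sum =
      (c.map (fun p => (Finsupp.single p 1 : Cyc1 K))).sum -
        (c'.map (fun p => (Finsupp.single p 1 : Cyc1 K))).sum := by
    rw [sum_aa, sum_aa, ← Multiset.card_eq_card_of_rel h1, ← Multiset.card_eq_card_of_rel h2]
    abel
  rw [e]
  exact AddSubgroup.subset_closure ⟨S, π, π', c, c', hW, hG, h1, h2, rfl⟩

theorem rel [IsAlgClosed K] [NZ6 K] (ha : a.IsHomogeneous 8) (hb : b.IsHomogeneous 12)
    (hs : OnW a b (⟨1, τ, ξ, υ⟩ : Pt (Om K))) {Φ : RR K τ ξ υ} (hΦ : Φ ≠ 0) (χ0 : RR K τ ξ υ →ₐ[K] K)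
    (h0 : χ0 Φ = 0) :
    ∃ (c : Multiset (RR K τ ξ υ →ₐ[K] K)) (w : Cyc1 K), χ0 ∈ c ∧ (∀ χ ∈ c, χ Φ = 0) ∧
      w ∈ AddSubgroup.closure {z | ∃ P : Pt K, OnW a b P ∧ P.t0 = 0 ∧ z = aa P} ∧
      (c.map (fun χ => aa (pF χ))).sum - w ∈ T1 a b := by
  have hf : ∀ c : K, (Φ : Om K) ≠ algebraMap K (Om K) c := by
    intro c hc
    have h1 : Φ = algebraMap K (RR K τ ξ υ) c := Subtype.ext hc
    have h2 : c = 0 := by
      rw [h1, AlgHom.commutes] at h0
      exact h0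
    exact hΦ (by rw [h1, h2, map_zero])
  obtain ⟨κ, hκ⟩ := exists_emb hf
  let κR : RR K τ ξ υ →ₐ[K] Om K := κ.comp (RR K τ ξ υ).val
  have hκR : κR Φ = tt K := hκ
  have hinj : Function.Injective κR := by
    intro x y hxy
    have h1 : κ (x : Om K) = κ (y : Om K) := hxy
    exact Subtype.ext ((κ : Om K →+* Om K).injective h1)
  obtain ⟨S, hsS, hG, hS⟩ := orb (pF κR)
  -- members of the orbit
  have hmem : ∀ s ∈ S, ∃ κ' : RR K τ ξ υ →ₐ[K] Om K, s = pF κ' ∧ κ' Φ = tt K := by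
    intro s hs'
    obtain ⟨σ, rfl⟩ := hS s hs'
    refine ⟨((σ.restrictScalars K : Om K ≃ₐ[K] Om K) : Om K →ₐ[K] Om K).comp κR, ?_, ?_⟩
    · ext
      · show σ (1 : Om K) = 1
        exact map_one σ
      · rfl
      · rfl
      · rfl
    · show σ (κR Φ) = tt K
      rw [hκR]
      exact σ.commutes _
  have hW : ∀ s ∈ S, OnW a b s := by
    intro s hs'
    obtain ⟨κ', rfl, -⟩ := hmem s hs'
    exact pF_onW hs κ'
  -- the place over zero
  have htt : tt K ∈ κR.range := ⟨Φ, hκR⟩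
  obtain ⟨π0, hπ0⟩ := place_of_hom κR.range htt
    (χ0.comp ((AlgEquiv.ofInjective κR hinj).symm : κR.range →ₐ[K] RR K τ ξ υ)) (by
      show χ0 ((AlgEquiv.ofInjective κR hinj).symm ⟨tt K, htt⟩) = 0
      have h1 : (AlgEquiv.ofInjective κR hinj) Φ = ⟨tt K, htt⟩ := Subtype.ext hκR
      rw [← h1, AlgEquiv.symm_apply_apply]
      exact h0)
  have hR : ∀ r, Rd π0.V π0.φ (κR r) (χ0 r) := by
    intro r
    have h1 := hπ0 ((AlgEquiv.ofInjective κR hinj) r)
    have h2 : (χ0.comp ((AlgEquiv.ofInjective κR hinj).symm : κR.range →ₐ[K] RR K τ ξ υ))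
        ((AlgEquiv.ofInjective κR hinj) r) = χ0 r := by
      show χ0 ((AlgEquiv.ofInjective κR hinj).symm ((AlgEquiv.ofInjective κR hinj) r)) = χ0 r
      rw [AlgEquiv.symm_apply_apply]
    rw [h2] at h1
    exact h1
  have htt0 : Rd π0.V π0.φ (tt K) 0 := by
    have h1 := hR Φ
    rw [hκR, h0] at h1
    exact h1
  obtain ⟨π1, hπ1⟩ := place_inf K
  -- limits at zero
  have hz : ∀ s ∈ S, ∃ P : Pt K, Sp π0 s P ∧ OnW a b P ∧
      (P.t0 = 0 ∨ ∃ χ : RR K τ ξ υ →ₐ[K] K, χ Φ = 0 ∧ Prp (pF χ) P) := by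
    intro s hs'
    obtain ⟨κ', rfl, hκ'⟩ := hmem s hs'
    obtain ⟨P, h1, h2, h3⟩ := lim_exists ha hb hs κ' π0
    refine ⟨P, h1, h2, ?_⟩
    rcases h3 with h3 | ⟨χ, h4, h5⟩
    · exact Or.inl h3
    · refine Or.inr ⟨χ, ?_, h5⟩
      have h6 := h4 Φ
      rw [hκ'] at h6
      exact h6.unique htt0
  have hi : ∀ s ∈ S, ∃ P : Pt K, Sp π1 s P ∧ OnW a b P ∧ P.t0 = 0 := by
    intro s hs'
    obtain ⟨κ', rfl, hκ'⟩ := hmem s hs'
    obtain ⟨P, h1, h2, h3⟩ := lim_exists ha hb hs κ' π1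
    refine ⟨P, h1, h2, ?_⟩
    rcases h3 with h3 | ⟨χ, h4, h5⟩
    · exact h3
    · have h6 := h4 Φ
      rw [hκ'] at h6
      exact absurd h6.mem hπ1
  obtain ⟨S', rfl⟩ := Multiset.exists_cons_of_mem hsS
  obtain ⟨c0, c, w, k1, k2, k3, k4⟩ := at_zero ha hb hs (Φ := Φ) π0 S'
    (fun s' hs' => hz s' (Multiset.mem_cons_of_mem hs'))
  obtain ⟨c1, m1, m2⟩ := at_inf π1 (pF κR ::ₘ S') hi
  have k5 : Multiset.Rel (Sp π0) (pF κR ::ₘ S') (pF χ0 ::ₘ c0) :=
    Multiset.Rel.cons (lim_of_hom hR) k1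
  have k6 := rel_sum hW hG k5 m1
  refine ⟨χ0 ::ₘ c, (c1.map aa).sum - w, Multiset.mem_cons_self _ _, ?_, sub_mem m2 k3, ?_⟩
  · intro χ hχ
    rcases Multiset.mem_cons.1 hχ with rfl | h6
    · exact h0
    · exact k2 χ h6
  · refine le_tor _ ?_
    have e : ((χ0 ::ₘ c).map (fun χ => aa (pF χ))).sum - ((c1.map aa).sum - w) =
        ((c.map (fun χ => aa (pF χ))).sum + w - (c0.map aa).sum) +
          (((pF χ0 ::ₘ c0).map aa).sum - (c1.map aa).sum) := by
      rw [Multiset.map_cons, Multiset.sum_cons, Multiset.map_cons, Multiset.sum_cons]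
      abel
    rw [e]
    exact add_mem k4 k6

end H79.CN
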