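import Pool.Agent.H79.CN.Nrm

/-! # CN.T0 : a form which is not identically zero on `W` is not zero at some point with `t0 ≠ 0` (about 100 lines)

Suppose `G` vanishes at all points of `W` with `t0 ≠ 0`.  Take `q`, `r` from `red`: for all `t, x : K` and `y` with `y^2 = f(t,x)`: `q + y r = 0 = q - y r`, so `q(t,x) = 0` and `f(t,x) r(t,x) = 0`
for all `t, x`; `K` is infinite, so `q = 0` and `r = 0` (`fpol ≠ 0`).  Hence `G` vanishes at all points of `W` over `Om K` with `t0 ≠ 0` (`evG_smul` with `c = t0⁻¹`).  For a point `P` of `W` with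
`P.t0 = 0`: `P' = ⟨tt, P.t1, P.x, y'⟩` with `y'^2 = x^3 + a(tt, t1) x + b(tt, t1)`; at a place with `tt ↦ 0` (`place_exists K 0`) `y'` is integral (its square is) and its residue has the square
`P.y^2`: choose the sign such that it reduces to `P.y`.  `evG G P' = 0` reduces to `evG G P`. -/

namespace H79.CN

open H68.BB H25.KP H25.V1 Polynomial

variable {K : Type} [Field K] {a b : MvPolynomial (Fin 2) K}

private theorem t0_mem_of_pow {π : Place K (Om K)} {z : Om K} {n : ℕ} (hn : 0 < n) (h : z ^ n ∈ π.V) : z ∈ π.V := by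
  rcases π.V.mem_or_inv_mem z with h1 | h1
  · exact h1
  · by_contra hz
    have hz0 : z ≠ 0 := by
      rintro rfl
      exact hz π.V.zero_mem
    have := π.isLocal
    have h2 : Rd π.V π.φ z⁻¹ 0 := Rd.inv_zero hz
    have h3 : Rd π.V π.φ ((z⁻¹) ^ n) (0 ^ n) := h2.pow n
    rw [zero_pow (by omega)] at h3
    have h4 := h3.mul (Rd.of_mem (φ := π.φ) h)
    rw [inv_pow, inv_mul_cancel₀ (pow_ne_zero n hz0), zero_mul] at h4
    exact one_ne_zero (Rd.one.unique h4)

private theorem t0_rd {π : Place K (Om K)} {u : Fin 4 → Om K} {u' : Fin 4 → K} (hu : ∀ j, Rd π.V π.φ (u j) (u' j))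
    (G : MvPolynomial (Fin 4) K) : Rd π.V π.φ (MvPolynomial.aeval u G) (MvPolynomial.aeval u' G) := by
  induction G using MvPolynomial.induction_on with
  | C c => rw [MvPolynomial.aeval_C, MvPolynomial.aeval_C]; exact π.const c
  | add p q hp hq => rw [map_add, map_add]; exact hp.add hq
  | mul_X p n hp => rw [map_mul, map_mul, MvPolynomial.aeval_X, MvPolynomial.aeval_X]; exact hp.mul (hu n)

private theorem t0_scale {F : Type} [Field F] [Algebra K F] {q : MvPolynomial (Fin 2) K} {n : ℕ}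
    (hq : q.IsHomogeneous n) (c t0 t1 : F) : ev q (c * t0) (c * t1) = c ^ n * ev q t0 t1 := by
  unfold ev
  rw [MvPolynomial.aeval_def, MvPolynomial.aeval_def, MvPolynomial.eval₂_eq', MvPolynomial.eval₂_eq',
    Finset.mul_sum]
  refine Finset.sum_congr rfl fun d hd => ?_
  have h1 : d 0 + d 1 = n := by
    have h2 := hq (MvPolynomial.mem_support_iff.1 hd)
    rw [← h2]
    simp [Finsupp.weight_apply, Finsupp.sum_fintype, Fin.sum_univ_two]
  rw [Fin.prod_univ_two, Fin.prod_univ_two, ← h1]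
  simp only [Matrix.cons_val_zero, Matrix.cons_val_one]
  ring

private theorem t0_OnW_smul {F : Type} [Field F] [Algebra K F] (ha : a.IsHomogeneous 8) (hb : b.IsHomogeneous 12)
    {P : Pt F} (hP : OnW a b P) {c : F} (hc : c ≠ 0) : OnW a b (P.smul c) := by
  obtain ⟨hn, he⟩ := hP
  refine ⟨?_, ?_⟩
  · rcases hn with h | h | h | h
    · exact Or.inl (mul_ne_zero hc h)
    · exact Or.inr (Or.inl (mul_ne_zero hc h))
    · exact Or.inr (Or.inr (Or.inl (mul_ne_zero (pow_ne_zero _ hc) h)))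
    · exact Or.inr (Or.inr (Or.inr (mul_ne_zero (pow_ne_zero _ hc) h)))
  · show (c ^ 6 * P.y) ^ 2 = (c ^ 4 * P.x) ^ 3 + ev a (c * P.t0) (c * P.t1) * (c ^ 4 * P.x) + ev b (c * P.t0) (c * P.t1)
    rw [t0_scale ha, t0_scale hb]
    linear_combination c ^ 12 * he

private theorem t0_poly [Infinite K] {q : K[X][X]} (h : ∀ t x : K, aevalAeval t x q = 0) : q = 0 := by
  have h1 : ∀ x : K, q.eval (C x) = 0 := by
    intro x
    apply Polynomial.funext
    intro t
    have h2 := h t x
    rw [show aevalAeval t x q = evalEval t x q from congrFun (coe_aevalAeval_eq_evalEval t x) q] at h2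
    rw [eval_zero]
    exact h2
  apply Polynomial.eq_zero_of_infinite_isRoot
  have h3 : Set.range (C : K → K[X]) ⊆ {x | q.IsRoot x} := by
    rintro _ ⟨x, rfl⟩
    exact h1 x
  exact (Set.infinite_range_of_injective C_injective).mono h3

theorem t0_ne [IsAlgClosed K] [NZ6 K] (ha : a.IsHomogeneous 8) (hb : b.IsHomogeneous 12) {G : MvPolynomial (Fin 4) K}
    {e : ℕ} (hG : MvPolynomial.IsWeightedHomogeneous wts G e) (hG0 : ∃ P : Pt K, OnW a b P ∧ evG G P ≠ 0) :
    ∃ P : Pt K, OnW a b P ∧ P.t0 ≠ 0 ∧ evG G P ≠ 0 := by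
  by_contra hcon
  push Not at hcon
  obtain ⟨q, -, r, -, hqr⟩ := red ha hb hG
  have hinf : Infinite K := IsAlgClosed.instInfinite
  have key : ∀ t x : K, aevalAeval t x q = 0 ∧ aevalAeval t x (fpol (dh a) (dh b) * r) = 0 := by
    intro t x
    obtain ⟨y, hy⟩ := IsAlgClosed.exists_pow_nat_eq (aevalAeval t x (fpol (dh a) (dh b))) (n := 2) (by norm_num)
    have h1 : OnW a b (⟨1, t, x, y⟩ : Pt K) := onW_fpol.2 hy
    have h2 : OnW a b (⟨1, t, x, -y⟩ : Pt K) := onW_fpol.2 (by rw [neg_sq]; exact hy)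
    have e1 := hcon _ h1 one_ne_zero
    have e2 := hcon _ h2 one_ne_zero
    rw [hqr K t x y h1] at e1
    rw [hqr K t x (-y) h2] at e2
    have h3 : (2 : K) * aevalAeval t x q = 0 := by linear_combination e1 + e2
    have h4 : aevalAeval t x q = 0 := (mul_eq_zero.1 h3).resolve_left two_nz
    refine ⟨h4, ?_⟩
    rw [map_mul, ← hy]
    rw [h4, zero_add] at e1
    linear_combination y * e1
  have hq0 : q = 0 := t0_poly fun t x => (key t x).1
  have hf0 : fpol (dh a) (dh b) * r = 0 := t0_poly fun t x => (key t x).2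
  have hf : fpol (dh a) (dh b) ≠ 0 := by
    intro h
    have h1 : (fpol (dh a) (dh b)).coeff 3 = 1 := by
      unfold fpol
      simp [coeff_X, coeff_C]
    rw [h, coeff_zero] at h1
    exact zero_ne_one h1
  have hr0 : r = 0 := (mul_eq_zero.1 hf0).resolve_left hf
  have hO : ∀ P : Pt (Om K), OnW a b P → P.t0 ≠ 0 → evG G P = 0 := by
    intro P hP h0
    have h1 := t0_OnW_smul ha hb hP (inv_ne_zero h0)
    have h2 : P.smul P.t0⁻¹ = ⟨1, P.t0⁻¹ * P.t1, P.t0⁻¹ ^ 4 * P.x, P.t0⁻¹ ^ 6 * P.y⟩ := by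
      unfold Pt.smul
      rw [inv_mul_cancel₀ h0]
    have h3 := evG_smul hG P.t0⁻¹ P
    rw [h2] at h1 h3
    rw [hqr (Om K) _ _ _ h1, hq0, hr0, map_zero, mul_zero, add_zero] at h3
    exact (mul_eq_zero.1 h3.symm).resolve_left (pow_ne_zero _ (inv_ne_zero h0))
  obtain ⟨P, hP, hne⟩ := hG0
  by_cases h0 : P.t0 = 0
  · obtain ⟨π, hm, hv⟩ := place_exists K 0
    have htt : Rd π.V π.φ (tt K) 0 := ⟨hm, hv⟩
    have r1 : Rd π.V π.φ (algebraMap K (Om K) P.t1) P.t1 := π.const _
    have rx : Rd π.V π.φ (algebraMap K (Om K) P.x) P.x := π.const _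
    obtain ⟨y', hy'⟩ := IsAlgClosed.exists_pow_nat_eq
      (algebraMap K (Om K) P.x ^ 3 + ev a (tt K) (algebraMap K (Om K) P.t1) * algebraMap K (Om K) P.x +
        ev b (tt K) (algebraMap K (Om K) P.t1)) (n := 2) (by norm_num)
    have r2 : Rd π.V π.φ (y' ^ 2) (P.y ^ 2) := by
      rw [hy', hP.2, h0]
      exact ((rx.pow 3).add ((rd_ev a htt r1).mul rx)).add (rd_ev b htt r1)
    obtain ⟨c, hc⟩ := rd_of_mem (t0_mem_of_pow (n := 2) (by norm_num) r2.mem)
    have hc2 : c ^ 2 = P.y ^ 2 := (hc.pow 2).unique r2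
    obtain ⟨y2, hy2, hr2⟩ : ∃ y2 : Om K, y2 ^ 2 = y' ^ 2 ∧ Rd π.V π.φ y2 P.y := by
      rcases sq_eq_sq_iff_eq_or_eq_neg.1 hc2 with h | h
      · exact ⟨y', rfl, h ▸ hc⟩
      · refine ⟨-y', by ring, ?_⟩
        have := hc.neg
        rw [h, neg_neg] at this
        exact this
    have hPW : OnW a b (⟨tt K, algebraMap K (Om K) P.t1, algebraMap K (Om K) P.x, y2⟩ : Pt (Om K)) := by
      refine ⟨Or.inl ?_, ?_⟩
      · have := tt_ne K 0
        rw [cst, map_zero] at this
        exact this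
      · exact hy2.trans hy'
    have h1 := hO _ hPW (by
      have := tt_ne K 0
      rw [cst, map_zero] at this
      exact this)
    have h2 : Rd π.V π.φ (evG G (⟨tt K, algebraMap K (Om K) P.t1, algebraMap K (Om K) P.x, y2⟩ : Pt (Om K))) (evG G P) := by
      unfold evG
      apply t0_rd
      intro j
      fin_cases j
      · show Rd π.V π.φ (tt K) P.t0
        rw [h0]
        exact htt
      · exact r1
      · exact rx
      · exact hr2
    rw [h1] at h2
    exact hne (h2.unique Rd.zero)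
  · exact hne (hcon P hP h0)

end H79.CN
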